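import Mathlib
import Pool.Agent.Lib.P0c8ca5N.Gap
import Pool.Agent.Lib.P0c8ca5C.HOne
import Pool.Agent.Lib.P0c8ca5C.HTwo

/-!
# Definitions for the equivariant form over p-hypoelementary quotients

* `Phi Y s = ∑ |Y ⊓ s x|` for a family `s` of subgroups.
* `PdG p G H F`: the elements `x ∈ G` with `Pdef p H F x`: p-regular elements of `H` with a defect group in `F`.
* `PDG p G M T`: the elements `x ∈ G` with `PD p M T x`.
* `mDG`: the local multiplicity of P0c8ca5N.Defs (`mD`) with the additional condition `x ∈ G`.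
* `wDG p Γ M T S e = ∑ |M ⊓ st T f|` over the blocks `f` of defect zero of the image of `Γ ⊓ M` in
  `N_A(T) / T` under the image of the part of `e` supported in the centralizer of `S`.
-/

namespace Pool.Agent.Lib.P0c8ca5.Hy

open MonoidAlgebra Cy

variable {p : ℕ} {k : Type*} [Field k] {A : Type*} [Group A]

/-- the sum of `|Y ⊓ s x|` -/
noncomputable def Phi {X : Type*} [Fintype X] (Y : Subgroup A) (s : X → Subgroup A) : ℕ :=
  ∑ x, Nat.card ↥(Y ⊓ s x)

/-- p-regular elements of `H` in `G` with a defect group in `F` -/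
def PdG (p : ℕ) (G H : Subgroup A) (F : Set (Subgroup A)) (x : A) : Prop := Pdef p H F x ∧ x ∈ G

/-- p-regular elements of `C_M(T)` in `G` with the defect group `T` in `M` -/
def PDG (p : ℕ) (G M T : Subgroup A) (x : A) : Prop := PD p M T x ∧ x ∈ G

/-- the local multiplicity -/
noncomputable def mDG [Fintype A] (p : ℕ) (G M T S : Subgroup A) (e : MonoidAlgebra k A) : ℕ :=
  mult1 (EM p M (PDG p G M T) (cS S e))

/-- the local weight sum -/
noncomputable def wDG (p : ℕ) (Γ M T S : Subgroup A) (e : MonoidAlgebra k A) : ℕ :=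
  ∑ᶠ (f : MonoidAlgebra k (NQ T)) (_ : IsDZ p (sec (Γ ⊓ M) T) f ∧ f * proj T (cS S e) = f),
    Nat.card ↥(M ⊓ st T f)

end Pool.Agent.Lib.P0c8ca5.Hy
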