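import Mathlib
import Pool.Agent.Lib.P0c8ca5E.Defs
import Pool.Agent.Lib.P0c8ca5N.Blk3

/-!
# Module BlkA: the defect labels for the classes in `G`, the diagonal block

As P0c8ca5N.Blk0 (from `lab` on) and P0c8ca5N.Blk1, with the additional condition `x ∈ G` (`H` normalizes `G`).
-/

namespace Pool.Agent.Lib.P0c8ca5.Hy

open MonoidAlgebra Cy

variable {p : ℕ} {k : Type*} [Field k] {A : Type*} [Group A]

/-- the defect label of a class -/
noncomputable def labG (p : ℕ) (G H : Subgroup A) (F : Set (Subgroup A)) (Y : Cl H (PdG p G H F)) :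
    Subgroup A := crep H (Classical.choose (Y.out.2).1.2.2)

theorem conj_mem_G {G H : Subgroup A} (hG : H ≤ Subgroup.normalizer (G : Set A)) {g : A}
    (hg : g ∈ H) {x : A} (hx : x ∈ G) : g * x * g⁻¹ ∈ G :=
  (Subgroup.mem_normalizer_iff.1 (hG hg) x).1 hx

theorem PdG_conj [Fact p.Prime] [Finite A] {G H : Subgroup A} {F : Set (Subgroup A)}
    (hG : H ≤ Subgroup.normalizer (G : Set A))
    (hF : ∀ T ∈ F, ∀ h ∈ H, cg h T ∈ F) {g : A} (hg : g ∈ H) {x : A} (hx : PdG p G H F x) :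
    PdG p G H F (g * x * g⁻¹) :=
  ⟨Pdef_conj hF hg hx.1, conj_mem_G hG hg hx.2⟩

theorem labG_spec [Fact p.Prime] [Finite A] {G H : Subgroup A} {F : Set (Subgroup A)}
    (hF : ∀ T ∈ F, ∀ h ∈ H, cg h T ∈ F) {Y : Cl H (PdG p G H F)} {x : A}
    (hx : InCl H (PdG p G H F) Y x) {T : Subgroup A}
    (hT : IsSyl p (H ⊓ Subgroup.centralizer ({x} : Set A)) T) :
    T ∈ F ∧ crep H T = labG p G H F Y := by
  obtain ⟨hPx, hY⟩ := hx
  obtain ⟨h, hh, hxh⟩ : ∃ h ∈ H, (Y.out : A) = h * x * h⁻¹ := by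
    have h1 : Quotient.mk (clSetoid H (PdG p G H F)) ⟨x, hPx⟩
        = Quotient.mk (clSetoid H (PdG p G H F)) Y.out := by
      rw [Quotient.out_eq]; exact hY
    exact Quotient.exact h1
  have hT0 := Classical.choose_spec (Y.out.2).1.2.2
  have h2 := hT.cg h
  rw [Blk0Aux.cg_inf_centralizer hh, ← hxh] at h2
  obtain ⟨g, hg, hgT⟩ := h2.conj_eq hT0.2
  have hgH : g ∈ H := (Subgroup.mem_inf.1 hg).1
  rw [cg_cg] at hgT
  have hghH : g * h ∈ H := H.mul_mem hgH hh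
  constructor
  · have h3 : T = cg (g * h)⁻¹ (Classical.choose (Y.out.2).1.2.2) := by
      rw [hgT, cg_cg, inv_mul_cancel, cg_one]
    rw [h3]
    exact hF _ hT0.1 _ (H.inv_mem hghH)
  · unfold labG
    rw [hgT, crep_cg hghH]

theorem labG_le [Fact p.Prime] [Finite A] {G H : Subgroup A} {F : Set (Subgroup A)}
    (hF : ∀ T ∈ F, ∀ h ∈ H, cg h T ∈ F) (Y : Cl H (PdG p G H F)) :
    labG p G H F Y ≤ H ∧ IsPGroup p (labG p G H F Y) ∧ labG p G H F Y ∈ F ∧
      crep H (labG p G H F Y) = labG p G H F Y := by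
  have hT0 := Classical.choose_spec (Y.out.2).1.2.2
  obtain ⟨h, hh, hc⟩ := crep_spec H (Classical.choose (Y.out.2).1.2.2)
  have hlab : labG p G H F Y = cg h (Classical.choose (Y.out.2).1.2.2) := hc
  refine ⟨?_, ?_, ?_, ?_⟩
  · rw [hlab]
    intro y hy
    rw [mem_cg] at hy
    have h1 : h⁻¹ * y * h ∈ H := (Subgroup.mem_inf.1 (hT0.2.le hy)).1
    have h2 := H.mul_mem (H.mul_mem hh h1) (H.inv_mem hh)
    have e1 : h * (h⁻¹ * y * h) * h⁻¹ = y := by group
    rwa [e1] at h2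
  · rw [hlab]
    exact isPGroup_cg hT0.2.isPGroup
  · rw [hlab]
    exact hF _ hT0.1 h hh
  · unfold labG
    exact crep_crep _ _

open Blk1Aux

section
variable [Finite A] [Fact p.Prime] {G H T : Subgroup A} {F : Set (Subgroup A)}

theorem toPdG (hTF : T ∈ F) {x : A}
    (hx : PDG p G (H ⊓ Subgroup.normalizer (T : Set A)) T x) : PdG p G H F x :=
  ⟨toPdef hTF hx.1, hx.2⟩

/-- the map on classes -/
def cmapG (hTF : T ∈ F) :
    Cl (H ⊓ Subgroup.normalizer (T : Set A)) (PDG p G (H ⊓ Subgroup.normalizer (T : Set A)) T) →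
      Cl H (PdG p G H F) :=
  Quotient.map (fun x => ⟨x, toPdG hTF x.2⟩) (by
    rintro x y ⟨m, hm, e⟩
    exact ⟨m, (Subgroup.mem_inf.1 hm).1, e⟩)

theorem InCl_cmapG (hTF : T ∈ F)
    {Y : Cl (H ⊓ Subgroup.normalizer (T : Set A))
      (PDG p G (H ⊓ Subgroup.normalizer (T : Set A)) T)}
    {x : A} (h : InCl _ _ Y x) : InCl H (PdG p G H F) (cmapG hTF Y) x := by
  obtain ⟨hx, rfl⟩ := h
  exact ⟨toPdG hTF hx, rfl⟩

theorem InCl_of_cmapG (hT : T ≤ H) (hpT : IsPGroup p T) (hTF : T ∈ F)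
    {Y : Cl (H ⊓ Subgroup.normalizer (T : Set A))
      (PDG p G (H ⊓ Subgroup.normalizer (T : Set A)) T)}
    {w : A} (h : InCl H (PdG p G H F) (cmapG hTF Y) w)
    (hwT : w ∈ Subgroup.centralizer (T : Set A)) : InCl _ _ Y w := by
  have h1 := InCl_out Y
  have h2 := InCl_cmapG hTF h1
  obtain ⟨g, hg, he⟩ := exists_conj h2 h
  obtain ⟨h3, h4, h5⟩ := PD_iff.1 Y.out.2.1
  have h6 := isSyl_cg hg h5
  rw [← he] at h6
  have h7 : T ≤ H ⊓ Subgroup.centralizer ({w} : Set A) := by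
    intro t ht
    rw [Subgroup.mem_inf, Subgroup.mem_centralizer_singleton_iff]
    exact ⟨hT ht, Subgroup.mem_centralizer_iff.1 hwT t ht⟩
  have h8 : IsSyl p (H ⊓ Subgroup.centralizer ({w} : Set A)) T :=
    h6.of_card h7 hpT (by rw [card_cg])
  obtain ⟨m, hm, hm'⟩ := fusion hg h5 h8 he
  have hPD : PDG p G (H ⊓ Subgroup.normalizer (T : Set A)) T w :=
    ⟨PD_iff.2 ⟨h.1.1.1, h.1.1.2.1, h8⟩, h.1.2⟩
  obtain ⟨h9, h10⟩ := h1
  refine ⟨hPD, ?_⟩
  rw [← h10]
  exact (Quotient.sound (s := clSetoid _ _) ⟨m, hm, hm'⟩).symm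

theorem lab_cmapG (hF : ∀ T ∈ F, ∀ h ∈ H, cg h T ∈ F) (hTF : T ∈ F) (hrep : crep H T = T)
    (Y : Cl (H ⊓ Subgroup.normalizer (T : Set A))
      (PDG p G (H ⊓ Subgroup.normalizer (T : Set A)) T)) :
    labG p G H F (cmapG hTF Y) = T := by
  have h2 := InCl_cmapG hTF (InCl_out Y)
  obtain ⟨h3, h4, h5⟩ := PD_iff.1 Y.out.2.1
  have := (labG_spec hF h2 h5).2
  rw [← this, hrep]

/-- the map on classes with the given label -/
def lmapG (hF : ∀ T ∈ F, ∀ h ∈ H, cg h T ∈ F) (hTF : T ∈ F) (hrep : crep H T = T)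
    (Y : Cl (H ⊓ Subgroup.normalizer (T : Set A))
      (PDG p G (H ⊓ Subgroup.normalizer (T : Set A)) T)) :
    {Y : Cl H (PdG p G H F) // labG p G H F Y = T} := ⟨cmapG hTF Y, lab_cmapG hF hTF hrep Y⟩

theorem lmapG_bijective (hG : H ≤ Subgroup.normalizer (G : Set A))
    (hF : ∀ T ∈ F, ∀ h ∈ H, cg h T ∈ F) (hT : T ≤ H) (hpT : IsPGroup p T) (hTF : T ∈ F)
    (hrep : crep H T = T) : Function.Bijective (lmapG (p := p) (G := G) hF hTF hrep) := by
  constructor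
  · intro Y Y' h
    have h1 : cmapG hTF Y = cmapG hTF Y' := congrArg Subtype.val h
    have h2 := InCl_cmapG hTF (InCl_out Y)
    rw [h1] at h2
    have h3 := InCl_of_cmapG hT hpT hTF h2 Y.out.2.1.2.1
    exact InCl_unique (InCl_out Y) h3
  · rintro ⟨Y, hY⟩
    have h0 := InCl_out Y
    obtain ⟨⟨h1, h2, T', hT', hS⟩, hxG⟩ := Y.out.2
    have h3 := (labG_spec hF h0 hS).2
    rw [hY] at h3
    obtain ⟨g, hg, hg'⟩ := crep_spec H T'
    rw [h3] at hg'
    have h4 := isSyl_cg hg hS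
    rw [← hg'] at h4
    have h5 : PDG p G (H ⊓ Subgroup.normalizer (T : Set A)) T (g * (Y.out : A) * g⁻¹) :=
      ⟨PD_iff.2 ⟨H.mul_mem (H.mul_mem hg h1) (H.inv_mem hg), (preg_conj _ _).2 h2, h4⟩,
        conj_mem_G hG hg hxG⟩
    refine ⟨Quotient.mk _ ⟨_, h5⟩, Subtype.ext ?_⟩
    obtain ⟨h6, h7⟩ := h0
    change Quotient.mk (clSetoid H (PdG p G H F)) ⟨g * (Y.out : A) * g⁻¹, toPdG hTF h5⟩ = Y
    refine Eq.trans ?_ h7
    exact (Quotient.sound (s := clSetoid _ _) ⟨g, hg, rfl⟩).symm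

end

theorem block_multG [Fintype A] [Fact p.Prime] [CharP k p] {X H S G : Subgroup A}
    {e : MonoidAlgebra k A}
    (h : Ctx p X H S e) (hG : H ≤ Subgroup.normalizer (G : Set A))
    {F : Set (Subgroup A)} (hF : ∀ T ∈ F, ∀ h ∈ H, cg h T ∈ F)
    {T : Subgroup A} (hT : T ≤ H) (hpT : IsPGroup p T) (hTF : T ∈ F) (hrep : crep H T = T) :
    mult1 (fun i j : {Y : Cl H (PdG p G H F) // labG p G H F Y = T} =>
        EM p H (PdG p G H F) (cS S e) i.1 j.1)
      = mDG p G (H ⊓ Subgroup.normalizer (T : Set A)) T (S ⊔ T) e := by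
  classical
  symm
  unfold mDG
  apply mult1_reindex (Equiv.ofBijective _ (lmapG_bijective hG hF hT hpT hTF hrep))
  intro i j
  change EM p _ _ _ i j = EM p H (PdG p G H F) (cS S e) (cmapG hTF i) (cmapG hTF j)
  obtain ⟨hz1, hz2, hz3⟩ := PD_iff.1 i.out.2.1
  have hzT : (i.out : A) ∈ Subgroup.centralizer (T : Set A) := i.out.2.1.2.1
  have hin := InCl_cmapG hTF (InCl_out i)
  rw [EM_apply_of_mem (fun g hg x hx => PdG_conj hG hF hg hx) h.cS_inv hin,
    row_eq h hT hpT hz1 hzT (InCl H (PdG p G H F) (cmapG hTF j))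
      (fun g hg a => InCl_conj (fun g hg x hx => PdG_conj hG hF hg hx) hg)]
  unfold EM
  refine Finset.sum_congr rfl fun a _ => ?_
  by_cases ha : (cS (S ⊔ T) e).coeff a = 0
  · rw [ha]
    simp only [ite_self]
  · have haC : a ∈ Subgroup.centralizer ((S ⊔ T : Subgroup A) : Set A) := by
      by_contra hc
      exact ha (coeff_resS_of_notMem e hc)
    have haX : a ∈ X := by
      apply h.supp
      rwa [coeff_resS_of_mem e haC] at ha
    have haS : a ∈ Subgroup.centralizer (S : Set A) :=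
      Subgroup.centralizer_le (le_sup_left : S ≤ S ⊔ T) haC
    have haT : a ∈ Subgroup.centralizer (T : Set A) :=
      Subgroup.centralizer_le (le_sup_right : T ≤ S ⊔ T) haC
    have hwT : pr p (a * (i.out : A)) ∈ Subgroup.centralizer (T : Set A) :=
      pr_mem (Subgroup.mul_mem _ haT hzT)
    have hiff : InCl _ _ j (pr p (a * (i.out : A))) ↔
        InCl H (PdG p G H F) (cmapG hTF j) (pr p (a * (i.out : A))) :=
      ⟨fun h => InCl_cmapG hTF h, fun h => InCl_of_cmapG hT hpT hTF h hwT⟩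
    exact if_congr hiff rfl rfl

end Pool.Agent.Lib.P0c8ca5.Hy
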