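import Mathlib
import Pool.Agent.Lib.P0c8ca5E.BlkA

/-!
# Module BlkB: the decomposition of the multiplicity by defect groups, classes in `G`

As P0c8ca5N.Blk2 (`triang`, `mD_cg`) and P0c8ca5N.Blk3 (`defect_sum`), with the additional condition `x ∈ G` (`H` normalizes `G`).
-/

namespace Pool.Agent.Lib.P0c8ca5.Hy

open MonoidAlgebra Cy

variable {p : ℕ} {k : Type*} [Field k] {A : Type*} [Group A] [Fintype A]

open Blk2A in
theorem triangG [Fact p.Prime] [CharP k p] {X H S G : Subgroup A} {e : MonoidAlgebra k A}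
    (h : Ctx p X H S e) (hG : H ≤ Subgroup.normalizer (G : Set A))
    {F : Set (Subgroup A)} (hF : ∀ T ∈ F, ∀ h ∈ H, cg h T ∈ F)
    (Y Y' : Cl H (PdG p G H F)) (hY : EM p H (PdG p G H F) (cS S e) Y Y' ≠ 0) :
    Nat.card (labG p G H F Y) < Nat.card (labG p G H F Y') ∨
      labG p G H F Y = labG p G H F Y' := by
  classical
  obtain ⟨⟨hxH, hxp, T, hTF, hT⟩, hxG⟩ := Y.out.2
  set x : A := (Y.out : A) with hx
  have hTH : T ≤ H := hT.le.trans inf_le_left
  have hxT : x ∈ Subgroup.centralizer (T : Set A) := by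
    rw [Subgroup.mem_centralizer_iff]
    intro y hy
    exact (mem_cent.1 (Subgroup.mem_inf.1 (hT.le hy)).2).symm
  have hP : ∀ g ∈ H, ∀ a, PdG p G H F a → PdG p G H F (g * a * g⁻¹) := fun g hg a ha =>
    PdG_conj hG hF hg ha
  have h1 := row_eq h hTH hT.isPGroup hxH hxT (InCl H (PdG p G H F) Y')
    (fun g hg a => InCl_conj hP hg)
  have h2 : ∑ a : A, (if InCl H (PdG p G H F) Y' (pr p (a * x)) then
      (cS (S ⊔ T) e).coeff a else 0) ≠ 0 := by
    rw [← h1]
    exact hY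
  obtain ⟨a, -, ha⟩ := Finset.exists_ne_zero_of_sum_ne_zero h2
  have hin : InCl H (PdG p G H F) Y' (pr p (a * x)) := by
    by_contra hcon
    rw [if_neg hcon] at ha
    exact ha rfl
  rw [if_pos hin] at ha
  have haC : a ∈ Subgroup.centralizer ((S ⊔ T : Subgroup A) : Set A) := by
    by_contra hcon
    exact ha (coeff_resS_of_notMem _ hcon)
  have hae : e.coeff a ≠ 0 := by
    rwa [coeff_resS_of_mem _ (SetLike.mem_coe.2 haC)] at ha
  obtain ⟨haS, haT⟩ := mem_cent_sup.1 haC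
  have haH : a ∈ H := h.hCS (Subgroup.mem_inf.2 ⟨h.supp a hae, haS⟩)
  set w : A := pr p (a * x) with hw
  have hwT : w ∈ Subgroup.centralizer (T : Set A) := pr_mem (Subgroup.mul_mem _ haT hxT)
  obtain ⟨T', hT'⟩ := exists_isSyl (p := p) (H ⊓ Subgroup.centralizer ({w} : Set A))
  have hTw : T ≤ H ⊓ Subgroup.centralizer ({w} : Set A) := by
    refine le_inf hTH ?_
    intro y hy
    exact mem_cent.2 (Subgroup.mem_centralizer_iff.1 hwT y hy).symm
  have hlab' := labG_spec hF hin hT'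
  have hlab := labG_spec hF (InCl_out Y) hT
  have hcard : ∀ Q : Subgroup A, Nat.card (crep H Q) = Nat.card Q := by
    intro Q
    obtain ⟨g, _, e1⟩ := crep_spec H Q
    rw [e1, card_cg]
  have hle := hT'.card_le hTw hT.isPGroup
  rcases lt_or_eq_of_le hle with hlt | heq
  · left
    rw [← hlab.2, ← hlab'.2, hcard, hcard]
    exact hlt
  · right
    have h3 := hT'.of_card hTw hT.isPGroup heq.ge
    rw [← hlab.2, ← (labG_spec hF hin h3).2]

open Blk2A in
theorem mDG_cg [Fact p.Prime] [CharP k p] {X H S G : Subgroup A} {e : MonoidAlgebra k A}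
    (h : Ctx p X H S e) (hG : H ≤ Subgroup.normalizer (G : Set A))
    {T : Subgroup A} (hT : T ≤ H) {g : A} (hg : g ∈ H) :
    mDG p G (H ⊓ Subgroup.normalizer (cg g T : Set A)) (cg g T) (S ⊔ cg g T) e
      = mDG p G (H ⊓ Subgroup.normalizer (T : Set A)) T (S ⊔ T) e := by
  have hgS : cg g S = S := cg_eq_self_iff.2 (h.hHS hg)
  have hgH : cg g H = H := cg_eq_self_iff.2 (Subgroup.le_normalizer hg)
  have hM : H ⊓ Subgroup.normalizer (cg g T : Set A) =
      cg g (H ⊓ Subgroup.normalizer (T : Set A)) := by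
    rw [Blk2A.cg_inf, hgH, cg_normalizer]
  set M : Subgroup A := H ⊓ Subgroup.normalizer (T : Set A) with hMdef
  have hsup : cg g (S ⊔ T) = S ⊔ cg g T := by
    have h1 : cg g (S ⊔ T) = cg g S ⊔ cg g T := Subgroup.map_sup _ _ _
    rw [h1, hgS]
  have hc : cS (S ⊔ cg g T) e = cj g (cS (S ⊔ T) e) := by
    ext x
    rw [coeff_cj]
    have hiff : x ∈ Subgroup.centralizer ((S ⊔ cg g T : Subgroup A) : Set A) ↔
        g⁻¹ * x * g ∈ Subgroup.centralizer ((S ⊔ T : Subgroup A) : Set A) := by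
      rw [← hsup, ← cg_centralizer, mem_cg]
    have hinv : e.coeff (g⁻¹ * x * g) = e.coeff x := by
      have := h.inv g⁻¹ (X.inv_mem (h.hHX hg)) x
      rwa [inv_inv] at this
    by_cases hx : x ∈ Subgroup.centralizer ((S ⊔ cg g T : Subgroup A) : Set A)
    · rw [coeff_resS_of_mem _ (SetLike.mem_coe.2 hx),
        coeff_resS_of_mem _ (SetLike.mem_coe.2 (hiff.1 hx)), hinv]
    · rw [coeff_resS_of_notMem _ (fun h' => hx (SetLike.mem_coe.1 h')),
        coeff_resS_of_notMem _ (fun h' => hx (hiff.2 (SetLike.mem_coe.1 h')))]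
  have hMN : M ≤ Subgroup.normalizer
      ((Subgroup.centralizer ((S ⊔ T : Subgroup A) : Set A) : Subgroup A) : Set A) := by
    intro m hm
    have hmH := (Subgroup.mem_inf.1 hm).1
    have hmT := (Subgroup.mem_inf.1 hm).2
    rw [← cg_eq_self_iff, cg_centralizer]
    have h1 : cg m (S ⊔ T) = cg m S ⊔ cg m T := Subgroup.map_sup _ _ _
    rw [h1, cg_eq_self_iff.2 (h.hHS hmH), cg_eq_self_iff.2 hmT]
  have hcM : InvBy M (cS (S ⊔ T) e) :=
    resS_invBy hMN (h.inv.mono (inf_le_left.trans h.hHX))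
  have hMG : M ≤ Subgroup.normalizer (G : Set A) := inf_le_left.trans hG
  have hPM : ∀ m ∈ M, ∀ x, PDG p G M T x → PDG p G M T (m * x * m⁻¹) := by
    intro m hm x hx
    have h1 := PD_cg_of m hx.1
    rw [cg_eq_self_iff.2 (Subgroup.le_normalizer hm),
      cg_eq_self_iff.2 (Subgroup.mem_inf.1 hm).2] at h1
    exact ⟨h1, conj_mem_G hMG hm hx.2⟩
  unfold mDG
  rw [hM]
  have := EM_cong (p := p) (P' := PDG p G (cg g M) (cg g T)) hPM hcM g (fun x => by
    unfold PDG
    rw [PD_cg g]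
    have h2 := Subgroup.mem_normalizer_iff.1 (hG hg) x
    rw [h2])
  rw [← hc] at this
  exact this

theorem defect_sumG [Fact p.Prime] [CharP k p] {X H S G : Subgroup A} {e : MonoidAlgebra k A}
    (h : Ctx p X H S e) (hG : H ≤ Subgroup.normalizer (G : Set A))
    {F : Set (Subgroup A)} (hF : ∀ T ∈ F, ∀ h ∈ H, cg h T ∈ F)
    (D : Finset (Subgroup A)) (hD : ∀ T, T ∈ D ↔ T ≤ H ∧ IsPGroup p T ∧ T ∈ F) :
    Nat.card H * mult1 (EM p H (PdG p G H F) (cS S e))
      = ∑ T ∈ D, Nat.card ↥(H ⊓ Subgroup.normalizer (T : Set A))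
          * mDG p G (H ⊓ Subgroup.normalizer (T : Set A)) T (S ⊔ T) e := by
  classical
  have : Fintype (Subgroup A) := Fintype.ofFinite _
  have h1 := mult1_blocks (fun Y => labG p G H F Y) (fun T : Subgroup A => Nat.card T)
    (EM p H (PdG p G H F) (cS S e)) (fun Y Y' hY => triangG h hG hF Y Y' hY)
  have h2 := sum_crep H D (fun T hT g hg => by
      rw [hD] at hT ⊢
      refine ⟨?_, isPGroup_cg hT.2.1, hF T hT.2.2 g hg⟩
      have := cg_le_cg (g := g) hT.1
      rwa [cg_of_mem hg] at this)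
    (fun T => mDG p G (H ⊓ Subgroup.normalizer (T : Set A)) T (S ⊔ T) e)
    (fun T hT g hg => mDG_cg h hG ((hD T).1 hT).1 hg)
  rw [h1, h2]
  congr 1
  rw [← Finset.sum_filter_add_sum_filter_not Finset.univ
    (fun T => T ∈ D.filter (fun T => crep H T = T))]
  have h3 : ∑ T ∈ Finset.univ.filter (fun T => ¬ T ∈ D.filter (fun T => crep H T = T)),
      mult1 (fun i j : {Y : Cl H (PdG p G H F) // labG p G H F Y = T} =>
        EM p H (PdG p G H F) (cS S e) i.1 j.1) = 0 := by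
    apply Finset.sum_eq_zero
    intro T hT
    rw [Finset.mem_filter] at hT
    have : IsEmpty {Y : Cl H (PdG p G H F) // labG p G H F Y = T} := by
      constructor
      rintro ⟨Y, rfl⟩
      obtain ⟨h4, h5, h6, h7⟩ := labG_le hF Y
      exact hT.2 (Finset.mem_filter.2 ⟨(hD _).2 ⟨h4, h5, h6⟩, h7⟩)
    exact mult1_isEmpty _
  rw [h3, add_zero]
  have h4 : Finset.univ.filter (fun T => T ∈ D.filter (fun T => crep H T = T))
      = D.filter (fun T => crep H T = T) := by ext T; simp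
  rw [h4]
  refine Finset.sum_congr rfl (fun T hT => ?_)
  rw [Finset.mem_filter, hD] at hT
  exact block_multG h hG hF hT.1.1 hT.1.2.1 hT.1.2.2 hT.2

end Pool.Agent.Lib.P0c8ca5.Hy
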