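import Mathlib
import Pool.Agent.Lib.P0c8ca5E.Defs
import Pool.Agent.Lib.P0c8ca5N.CopB
import Pool.Agent.Lib.P0c8ca5C.Hyp
import Pool.Agent.Lib.P0c8ca5N.Final

/-!
# Module Cls: the conditions on the classes

`HypExt p G Γ X`: `G ≤ Γ ≤ X`, `Γ / G` a p-group, `X / Γ` cyclic of order prime to `p`.  The p-subgroups of
`X` lie in `Γ` (`CycExt.le_of_pGroup`), so for `C ≤ X` the Sylow subgroups of `C` and of `Γ ⊓ C` are the
same (`isSyl_inf`).
-/

namespace Pool.Agent.Lib.P0c8ca5.Hy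

open MonoidAlgebra Cy

variable {p : ℕ} {A : Type*} [Group A] [Finite A] [Fact p.Prime] {G Γ X : Subgroup A}

theorem isSyl_inf (hh : CycExt p Γ X) {C T : Subgroup A} (hC : C ≤ X) :
    IsSyl p C T ↔ IsSyl p (Γ ⊓ C) T := by
  constructor
  · intro h
    obtain ⟨T', hT'⟩ := exists_isSyl (p := p) (Γ ⊓ C)
    exact hT'.of_card (le_inf (hh.le_of_pGroup (h.le.trans hC) h.isPGroup) h.le) h.isPGroup
      (h.card_le (hT'.le.trans inf_le_right) hT'.isPGroup)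
  · intro h
    obtain ⟨P, hP⟩ := exists_isSyl (p := p) C
    exact hP.of_card (h.le.trans inf_le_right) h.isPGroup
      (h.card_le (le_inf (hh.le_of_pGroup (hP.le.trans hC) hP.isPGroup) hP.le) hP.isPGroup)

theorem supp_up (hh : HypExt p G Γ X) {Q R : Subgroup A} (hQ : Q ∈ Supp p G Γ) (hR : R ≤ X)
    (hpR : IsPGroup p R) (hQR : Q ≤ R) : R ∈ Supp p G Γ := by
  have hRΓ : R ≤ Γ := hh.ext.le_of_pGroup hR hpR
  refine ⟨hRΓ, hpR, le_antisymm (sup_le hh.CN hRΓ) ?_⟩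
  rw [← hQ.2.2]
  exact sup_le_sup_left hQR G

theorem supp_cg (hh : HypExt p G Γ X) {Q : Subgroup A} (hQ : Q ∈ Supp p G Γ) {g : A}
    (hg : g ∈ X) : cg g Q ∈ Supp p G Γ := by
  have hX : cg g Γ = Γ := cg_eq_self_iff.2 (hh.ext.hN hg)
  have hG : cg g G = G := cg_eq_self_iff.2 (hh.hC hg)
  refine ⟨?_, isPGroup_cg hQ.2.1, ?_⟩
  · rw [← hX]
    exact cg_le_cg hQ.1
  · conv_lhs => rw [← hG]
    rw [← cg_sup, hQ.2.2, hX]

theorem pdG_top (hh : HypExt p G Γ X) (x : A) : PdG p G X (Supp p G Γ) x ↔ PY p G Γ x := by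
  have hn : Γ ≤ Subgroup.normalizer (G : Set A) := hh.ext.NH.trans hh.hC
  rw [← pdef_top_iff hh.CN hn hh.pgrp x]
  have hC : X ⊓ Subgroup.centralizer ({x} : Set A) ≤ X := inf_le_left
  have e : Γ ⊓ (X ⊓ Subgroup.centralizer ({x} : Set A))
      = Γ ⊓ Subgroup.centralizer ({x} : Set A) := by
    rw [← inf_assoc, inf_of_le_left hh.ext.NH]
  constructor
  · rintro ⟨⟨-, h2, T, hT, hs⟩, hG⟩
    refine ⟨hh.CN hG, h2, T, hT, ?_⟩
    rw [isSyl_inf hh.ext hC, e] at hs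
    exact hs
  · intro h
    have hG : x ∈ G := ((pdef_top_iff hh.CN hn hh.pgrp x).1 h).1
    obtain ⟨h1, h2, T, hT, hs⟩ := h
    refine ⟨⟨hh.ext.NH h1, h2, T, hT, ?_⟩, hG⟩
    rw [isSyl_inf hh.ext hC, e]
    exact hs

theorem pdG_chain (hh : HypExt p G Γ X) {H Q : Subgroup A} (hQ : Q ∈ Supp p G Γ) (hQH : Q ≤ H)
    (hHX : H ≤ X) (hHQ : H ≤ Subgroup.normalizer (Q : Set A)) (x : A) :
    PdG p G H (Supp p G Γ) x ↔ x ∈ Γ ⊓ H ∧ Preg p x := by
  have hn : Γ ≤ Subgroup.normalizer (G : Set A) := hh.ext.NH.trans hh.hC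
  have h0 := pdef_iff hh.CN hn hh.pgrp hQ (le_inf hQ.1 hQH) (inf_le_left : Γ ⊓ H ≤ Γ)
    ((inf_le_right : Γ ⊓ H ≤ H).trans hHQ) x
  have e : Γ ⊓ (H ⊓ Subgroup.centralizer ({x} : Set A))
      = Γ ⊓ H ⊓ Subgroup.centralizer ({x} : Set A) := (inf_assoc _ _ _).symm
  have hC : H ⊓ Subgroup.centralizer ({x} : Set A) ≤ X := inf_le_left.trans hHX
  rw [← h0]
  constructor
  · rintro ⟨⟨h1, h2, T, hT, hs⟩, hG⟩
    refine ⟨⟨hh.CN hG, h1⟩, h2, T, hT, ?_⟩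
    rw [isSyl_inf hh.ext hC, e] at hs
    exact hs
  · rintro ⟨h1, h2, T, hT, hs⟩
    refine ⟨⟨h1.2, h2, T, hT, ?_⟩, ?_⟩
    · rw [isSyl_inf hh.ext hC, e]
      exact hs
    · obtain ⟨n, hn'⟩ := hh.pgrp x h1.1
      exact mem_of_preg h2 hn'

/-- the local data of a nonempty chain -/
structure ChData {k : Type*} [Field k] (p : ℕ) (G Γ X : Subgroup A) (e : MonoidAlgebra k A)
    (σ : Finset (Subgroup A)) : Prop where
  ctx : Ctx p X (stab X σ) (σ.sup id) e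
  least : ∃ Q ∈ Supp p G Γ, Q ≤ stab X σ ∧ stab X σ ≤ Subgroup.normalizer (Q : Set A)
  supp : SuppIn (Γ ⊓ stab X σ) (cS (σ.sup id) e)
  inv : InvBy (stab X σ) (cS (σ.sup id) e)

theorem chData {k : Type*} [Field k] (hh : HypExt p G Γ X)
    {e : MonoidAlgebra k A} (he : SuppIn G e) (hinv : InvBy X e)
    {σ : Finset (Subgroup A)} (hne : σ.Nonempty)
    (hσ : IsChain (· ≤ ·) (σ : Set (Subgroup A))) (hσS : ∀ Q ∈ σ, Q ∈ Supp p G Γ) :
    ChData p G Γ X e σ := by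
  classical
  have hSσ : σ.sup id ∈ σ := sup_mem_chain hne hσ
  obtain ⟨Q, hQσ, hQmin⟩ := exists_least hne hσ
  have hQS := hσS Q hQσ
  have hHn : ∀ R ∈ σ, stab X σ ≤ Subgroup.normalizer (R : Set A) := fun R hR x hx =>
    (mem_stab.1 hx).2 R hR
  have hQH : Q ≤ stab X σ := by
    intro x hx
    rw [mem_stab]
    exact ⟨hh.ext.NH (hQS.1 hx), fun R hR => Subgroup.le_normalizer (hQmin R hR hx)⟩
  have hctx : Ctx p X (stab X σ) (σ.sup id) e :=
    { hHX := inf_le_left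
      hS := (hσS _ hSσ).2.1
      hHS := hHn _ hSσ
      hCS := by
        intro x hx
        rw [mem_stab]
        refine ⟨hx.1, fun R hR => ?_⟩
        have hRS : R ≤ σ.sup id := Finset.le_sup (f := id) hR
        exact Subgroup.centralizer_le_normalizer _ (Subgroup.centralizer_le hRS hx.2)
      supp := he.mono (hh.CN.trans hh.ext.NH)
      inv := hinv }
  refine ⟨hctx, ⟨Q, hQS, hQH, hHn Q hQσ⟩, ?_, hctx.cS_inv⟩
  intro x hx
  refine Subgroup.mem_inf.2 ⟨hh.CN (he x ?_), hctx.cS_supp x hx⟩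
  intro h0
  apply hx
  rw [coeff_resS]
  split_ifs
  · exact h0
  · rfl

theorem ChData.idem {k : Type*} [Field k] [CharP k p] (hh : HypExt p G Γ X)
    {e : MonoidAlgebra k A} {σ : Finset (Subgroup A)} (hd : ChData p G Γ X e σ)
    (hne : σ.Nonempty) (hσ : IsChain (· ≤ ·) (σ : Set (Subgroup A)))
    (hσS : ∀ Q ∈ σ, Q ∈ Supp p G Γ) (hee : e * e = e) :
    cS (σ.sup id) e * cS (σ.sup id) e = cS (σ.sup id) e :=
  hd.ctx.cS_idem ((hσS _ (sup_mem_chain hne hσ)).1.trans hh.ext.NH) hee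

end Pool.Agent.Lib.P0c8ca5.Hy
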