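import Mathlib
import Pool.Agent.Lib.P0c8ca5E.Defs
import Pool.Agent.Lib.P0c8ca5.WeightsD
import Pool.Agent.Lib.P0c8ca5C.HTwo

/-! # Sums over `PT` as double sums -/

namespace Pool.Agent.Lib.P0c8ca5.Hy

open MonoidAlgebra Cy

theorem fsum_eq {β : Type*} (P : β → Prop) (S : Finset β) (hS : ∀ b, b ∈ S ↔ P b) (F : β → ℕ) :
    ∑ᶠ (b) (_ : P b), F b = ∑ b ∈ S, F b := by
  rw [← finsum_mem_coe_finset]
  congr 1
  funext b
  have h : (P b) = (b ∈ (S : Set β)) := propext (hS b).symm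
  rw [h]

theorem fsum_congr {β : Type*} {P P' : β → Prop} {F F' : β → ℕ} (h : ∀ b, P b ↔ P' b)
    (hF : ∀ b, P b → F b = F' b) :
    ∑ᶠ (b) (_ : P b), F b = ∑ᶠ (b) (_ : P' b), F' b := by
  have e : P = P' := funext fun b => propext (h b)
  subst e
  refine finsum_congr fun b => ?_
  by_cases hb : P b
  · simp only [hb, finsum_true]
    exact hF b hb
  · simp only [hb, finsum_false]

variable {p : ℕ} {k : Type*} [Field k] {A : Type*} [Group A] [Fintype A]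

theorem finite_dz [Fact p.Prime] [CharP k p] [IsAlgClosed k] (C R : Subgroup A)
    (c : MonoidAlgebra k A) :
    {φ : MonoidAlgebra k (NQ R) | IsDZ p (sec C R) φ ∧ φ * proj R c = φ}.Finite :=
  (finite_isBlock (k := k) (sec C R)).subset (fun _ hφ => hφ.1.blk)

open Classical in
theorem sum_PT [Fact p.Prime] [CharP k p] [IsAlgClosed k] [Fintype (Subgroup A)] {C : Subgroup A}
    {f : MonoidAlgebra k A} [Fintype (PT p C f)] (F : (R : Subgroup A) → MonoidAlgebra k (NQ R) → ℕ)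
    (D : Finset (Subgroup A)) (hD : ∀ R, R ∈ D ↔ R ≤ C ∧ IsPGroup p R) :
    ∑ x : PT p C f, F x.1.1 x.2.1
      = ∑ R ∈ D, ∑ᶠ (φ : MonoidAlgebra k (NQ R)) (_ : IsDZ p (sec C R) φ ∧ φ * proj R f = φ),
          F R φ := by
  let inst1 : Fintype {R : Subgroup A // R ≤ C ∧ IsPGroup p R} := Fintype.ofFinite _
  have hfin : ∀ R : {R : Subgroup A // R ≤ C ∧ IsPGroup p R},
      Finite {φ : MonoidAlgebra k (NQ R.1) // IsDZ p (sec C R.1) φ ∧ φ * proj R.1 f = φ} :=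
    fun R => (finite_dz C R.1 f).to_subtype
  let inst2 : ∀ R : {R : Subgroup A // R ≤ C ∧ IsPGroup p R},
      Fintype {φ : MonoidAlgebra k (NQ R.1) // IsDZ p (sec C R.1) φ ∧ φ * proj R.1 f = φ} :=
    fun R => Fintype.ofFinite _
  have h1 : ∑ x : PT p C f, F x.1.1 x.2.1
      = ∑ R : {R : Subgroup A // R ≤ C ∧ IsPGroup p R},
          ∑ φ : {φ : MonoidAlgebra k (NQ R.1) // IsDZ p (sec C R.1) φ ∧ φ * proj R.1 f = φ},
            F R.1 φ.1 := by
    let E : PT p C f ≃ (Σ R : {R : Subgroup A // R ≤ C ∧ IsPGroup p R},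
      {φ : MonoidAlgebra k (NQ R.1) // IsDZ p (sec C R.1) φ ∧ φ * proj R.1 f = φ}) := Equiv.refl _
    refine (Fintype.sum_equiv E _ (fun x => F x.1.1 x.2.1) (fun x => rfl)).trans ?_
    rw [Fintype.sum_sigma]
  rw [h1]
  have h2 : ∀ R : {R : Subgroup A // R ≤ C ∧ IsPGroup p R},
      (∑ φ : {φ : MonoidAlgebra k (NQ R.1) // IsDZ p (sec C R.1) φ ∧ φ * proj R.1 f = φ},
        F R.1 φ.1)
      = ∑ᶠ (φ : MonoidAlgebra k (NQ R.1)) (_ : IsDZ p (sec C R.1) φ ∧ φ * proj R.1 f = φ),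
          F R.1 φ := by
    intro R
    rw [fsum_eq _ (finite_dz C R.1 f).toFinset (fun φ => by rw [Set.Finite.mem_toFinset]; rfl)]
    symm
    apply Finset.sum_subtype (f := fun φ => F R.1 φ)
    intro φ
    rw [Set.Finite.mem_toFinset]; rfl
  rw [Fintype.sum_congr _ _ h2]
  symm
  exact Finset.sum_subtype D hD (fun R => ∑ᶠ (φ : MonoidAlgebra k (NQ R))
    (_ : IsDZ p (sec C R) φ ∧ φ * proj R f = φ), F R φ)

end Pool.Agent.Lib.P0c8ca5.Hy
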