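import Mathlib
import Pool.Agent.Lib.P0c8ca5E.PTsum
import Pool.Agent.Lib.P0c8ca5N.WInv
import Pool.Agent.Lib.P0c8ca5N.Rad

/-!
# Module LocW: the weight sum of the stabilizer of a nonempty chain

PROOF of `loc_w`.  `Phi H (stP p (Γ ⊓ H) (cS S e))` is the sum over the p-subgroups `R ≤ Γ ⊓ H` and the `φ` with
`IsDZ p (sec (Γ ⊓ H) R) φ`, `φ * proj R (cS S e) = φ` of `|H ⊓ st R φ|` (`sum_PT`).  If there is such a `φ` then
`Q ≤ R` (`radical` for `Γ ⊓ H`), so `R ∈ Supp p G Γ`.  For such `R` the sum over `φ` is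
`wDG p Γ (H ⊓ N(R)) R (S ⊔ R) e` (`sec_inf_normalizer`, `cS_cS`, `proj_cS`, `st_le`).
-/

namespace Pool.Agent.Lib.P0c8ca5.Hy

open MonoidAlgebra Cy

variable {p : ℕ} {k : Type*} [Field k] {A : Type*} [Group A] [Fintype A]

theorem wDG_loc [Fact p.Prime] [CharP k p] {X H S Γ R : Subgroup A}
    {e : MonoidAlgebra k A} (hctx : Ctx p X H S e) (hR : R ≤ H) (hpR : IsPGroup p R) :
    wDG p Γ (H ⊓ Subgroup.normalizer (R : Set A)) R (S ⊔ R) e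
      = ∑ᶠ (φ : MonoidAlgebra k (NQ R)) (_ : IsDZ p (sec (Γ ⊓ H) R) φ
          ∧ φ * proj R (cS S e) = φ), Nat.card ↥(H ⊓ st R φ) := by
  have h1 : proj R (cS S e) = proj R (cS (S ⊔ R) e) := by
    rw [← cS_cS, proj_cS hpR (hctx.cS_inv.mono hR)]
  unfold wDG
  refine fsum_congr (fun φ => ?_) (fun φ _ => ?_)
  · rw [h1, ← inf_assoc, sec_inf_normalizer]
  · congr 2
    rw [inf_assoc, inf_of_le_right (st_le : st R φ ≤ Subgroup.normalizer (R : Set A))]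

theorem loc_w [Fact p.Prime] [CharP k p] [IsAlgClosed k] {G Γ X H S Q : Subgroup A}
    {e : MonoidAlgebra k A} (hGΓ : G ≤ Γ) (hctx : Ctx p X H S e) (hQ : Q ∈ Supp p G Γ)
    (hQH : Q ≤ H) (hHQ : H ≤ Subgroup.normalizer (Q : Set A))
    (D : Finset (Subgroup A)) (hD : ∀ T, T ∈ D ↔ T ≤ H ∧ T ∈ Supp p G Γ)
    [Fintype (PT p (Γ ⊓ H) (cS S e))] :
    ∑ T ∈ D, wDG p Γ (H ⊓ Subgroup.normalizer (T : Set A)) T (S ⊔ T) e
      = Phi H (stP p (Γ ⊓ H) (cS S e)) := by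
  classical
  have : Fintype (Subgroup A) := Fintype.ofFinite _
  let D' : Finset (Subgroup A) := Finset.univ.filter (fun R => R ≤ Γ ⊓ H ∧ IsPGroup p R)
  have hD' : ∀ R, R ∈ D' ↔ R ≤ Γ ⊓ H ∧ IsPGroup p R := by intro R; simp [D']
  have h1 : Phi H (stP p (Γ ⊓ H) (cS S e))
      = ∑ R ∈ D', ∑ᶠ (φ : MonoidAlgebra k (NQ R)) (_ : IsDZ p (sec (Γ ⊓ H) R) φ
          ∧ φ * proj R (cS S e) = φ), Nat.card ↥(H ⊓ st R φ) :=
    sum_PT (fun R φ => Nat.card ↥(H ⊓ st R φ)) D' hD'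
  rw [h1]
  have hsub : D ⊆ D' := by
    intro T hT
    obtain ⟨h2, h3, h4, -⟩ := (hD T).1 hT
    exact (hD' T).2 ⟨le_inf h3 h2, h4⟩
  rw [← Finset.sum_subset hsub]
  · refine Finset.sum_congr rfl fun T hT => ?_
    obtain ⟨h2, h3, h4, -⟩ := (hD T).1 hT
    exact wDG_loc hctx h2 h4
  · intro R hR hRD
    obtain ⟨hRH, hpR⟩ := (hD' R).1 hR
    have h5 : ∀ φ : MonoidAlgebra k (NQ R), ¬ (IsDZ p (sec (Γ ⊓ H) R) φ
        ∧ φ * proj R (cS S e) = φ) := by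
      rintro φ ⟨hφ, -⟩
      apply hRD
      have hQR : Q ≤ R := radical (le_inf hQ.1 hQH) (inf_le_right.trans hHQ) hQ.2.1 hRH hpR hφ
      refine (hD R).2 ⟨hRH.trans inf_le_right, hRH.trans inf_le_left, hpR,
        le_antisymm (sup_le hGΓ (hRH.trans inf_le_left)) ?_⟩
      rw [← hQ.2.2]
      exact sup_le_sup_left hQR G
    simp only [h5, finsum_false, finsum_zero]

end Pool.Agent.Lib.P0c8ca5.Hy
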