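import Mathlib
import Pool.Agent.Lib.P0c8ca5E.Defs
import Pool.Agent.Lib.P0c8ca5N.FB3

/-!
# Module OrbM: the number of the orbits on the invariant irreducible characters as a multiplicity

`G ≤ Γ ≤ X`, `X` normalizes `G` and `Γ`, `Γ / G` a p-group, `e ∈ Z(kG)` idempotent, `X`-invariant; `IX k G Γ` is
the set of the `Γ`-invariant irreducible characters of `G`.  `X` acts on `IX k G Γ`.

PROOF of `mult1_orb`.  For an orbit `O` of `X` on `IX k G Γ` let `w O : A → k` be the sum of the `χ ∈ O`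
(as functions on `A`); it is invariant under conjugation by `X`.  The functions `Y ↦ w O (Y.out)` on
`Cl X (PY p G Γ)` are linearly independent (`IX_linearIndependent` for `(G, Γ)`) and they span: for
`φ : Cl X (PY p G Γ) → k` let `ψ Y = φ (class of Y.out)` on `Cl Γ (PY p G Γ)`; by `IX_span` `ψ = ∑ a χ • χ`, and `a`
is constant on the orbits by linear independence.  Eigenvectors: `EM_mulVec` and `fb3_sum_PY_eq` for every
`χ ∈ O`: `EM (w O) = ∑_{χ ∈ O} conv e χ`, and `e` is `X`-invariant, so the eigenvalue is the same on `O`.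
`mult1_eigen` with the index set of the orbits; the orbits with eigenvalue 1 are the classes of `chSetoid`.
-/

namespace Pool.Agent.Lib.P0c8ca5.Hy

open MonoidAlgebra Cy

variable {p : ℕ} {k : Type*} [Field k] {A : Type*} [Group A] [Fintype A]

/-- `X`-conjugacy of the `Γ`-invariant irreducible characters of `G` in the idempotent `e` -/
def chSetoid (G Γ X : Subgroup A) (e : MonoidAlgebra k A) :
    Setoid {χ : IX k G Γ // conv e (χ : A → k) = (χ : A → k)} where
  r χ ψ := ∃ h ∈ X, ∀ x, (ψ.1 : A → k) (h * x * h⁻¹) = (χ.1 : A → k) x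
  iseqv :=
    { refl := fun χ => ⟨1, X.one_mem, fun x => by rw [one_mul, inv_one, mul_one]⟩
      symm := fun {χ ψ} ⟨h, hh, e⟩ => ⟨h⁻¹, X.inv_mem hh, fun x => by
        have := e (h⁻¹ * x * h⁻¹⁻¹)
        rw [← this]
        congr 1
        group⟩
      trans := fun {χ ψ ξ} ⟨h, hh, e⟩ ⟨h', hh', e'⟩ => ⟨h' * h, X.mul_mem hh' hh, fun x => by
        rw [← e x, ← e' (h * x * h⁻¹)]
        congr 1
        group⟩ }

/-- `X`-conjugacy of the `Γ`-invariant irreducible characters of `G` -/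
def ixSetoid (k : Type*) [Field k] (G Γ X : Subgroup A) : Setoid (IX k G Γ) where
  r χ ψ := ∃ h ∈ X, ∀ x, (ψ : A → k) (h * x * h⁻¹) = (χ : A → k) x
  iseqv :=
    { refl := fun χ => ⟨1, X.one_mem, fun x => by rw [one_mul, inv_one, mul_one]⟩
      symm := fun {χ ψ} ⟨h, hh, e⟩ => ⟨h⁻¹, X.inv_mem hh, fun x => by
        have := e (h⁻¹ * x * h⁻¹⁻¹)
        rw [← this]
        congr 1
        group⟩
      trans := fun {χ ψ ξ} ⟨h, hh, e⟩ ⟨h', hh', e'⟩ => ⟨h' * h, X.mul_mem hh' hh, fun x => by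
        rw [← e x, ← e' (h * x * h⁻¹)]
        congr 1
        group⟩ }

section
variable {G Γ X : Subgroup A}

/-- conjugation of the invariant irreducible characters -/
def tI (hnG : X ≤ Subgroup.normalizer (G : Set A)) (hn : X ≤ Subgroup.normalizer (Γ : Set A))
    {g : A} (hg : g ∈ X) (χ : IX k G Γ) : IX k G Γ :=
  ⟨fun x => (χ : A → k) (g * x * g⁻¹), IrrCh_conj (hnG hg) χ.2.1, fun h hh x => by
    have e1 : g * (h * x * h⁻¹) * g⁻¹ = (g * h * g⁻¹) * (g * x * g⁻¹) * (g * h * g⁻¹)⁻¹ := by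
      group
    change (χ : A → k) (g * (h * x * h⁻¹) * g⁻¹) = (χ : A → k) (g * x * g⁻¹)
    rw [e1]
    exact χ.2.2 _ ((Subgroup.mem_normalizer_iff.1 (hn hg) h).1 hh) _⟩

/-- conjugation of the invariant irreducible characters, as a bijection -/
def tE (hnG : X ≤ Subgroup.normalizer (G : Set A)) (hn : X ≤ Subgroup.normalizer (Γ : Set A))
    {g : A} (hg : g ∈ X) : IX k G Γ ≃ IX k G Γ where
  toFun := tI hnG hn hg
  invFun := tI hnG hn (X.inv_mem hg)
  left_inv χ := Subtype.ext (funext fun x => by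
    change (χ : A → k) (g * (g⁻¹ * x * g⁻¹⁻¹) * g⁻¹) = (χ : A → k) x
    congr 1
    group)
  right_inv χ := Subtype.ext (funext fun x => by
    change (χ : A → k) (g⁻¹ * (g * x * g⁻¹) * g⁻¹⁻¹) = (χ : A → k) x
    congr 1
    group)

theorem tE_rel (hnG : X ≤ Subgroup.normalizer (G : Set A))
    (hn : X ≤ Subgroup.normalizer (Γ : Set A)) {g : A} (hg : g ∈ X) (χ : IX k G Γ) :
    (Quotient.mk (ixSetoid k G Γ X) (tE hnG hn hg χ)) = Quotient.mk _ χ := by
  apply Quotient.sound
  exact ⟨g, hg, fun x => rfl⟩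

theorem PYG_conj (hnG : X ≤ Subgroup.normalizer (G : Set A))
    (hn : X ≤ Subgroup.normalizer (Γ : Set A)) {g x : A} (hg : g ∈ X) (hx : PY p G Γ x) :
    PY p G Γ (g * x * g⁻¹) := by
  obtain ⟨h1, h2, h3⟩ := hx
  refine ⟨(Subgroup.mem_normalizer_iff.1 (hnG hg) _).1 h1, (preg_conj g x).2 h2, fun a ha => ?_⟩
  have ha' : g⁻¹ * a * g ∈ Γ := by
    rw [Subgroup.mem_normalizer_iff.1 (hn hg)]
    have e : g * (g⁻¹ * a * g) * g⁻¹ = a := by group
    rwa [e]
  obtain ⟨h, hh, e1⟩ := h3 _ ha'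
  refine ⟨g * h * g⁻¹, (Subgroup.mem_normalizer_iff.1 (hnG hg) _).1 hh, ?_⟩
  calc a * (g * x * g⁻¹) * a⁻¹ = g * ((g⁻¹ * a * g) * x * (g⁻¹ * a * g)⁻¹) * g⁻¹ := by group
    _ = g * (h * x * h⁻¹) * g⁻¹ := by rw [e1]
    _ = _ := by group

theorem conv_conj {e : MonoidAlgebra k A} (hinv : InvBy X e) {g : A} (hg : g ∈ X) (f : A → k)
    (x : A) : conv e (fun y => f (g * y * g⁻¹)) x = conv e f (g * x * g⁻¹) := by
  unfold conv
  rw [← Equiv.sum_comp (MulAut.conj g).toEquiv (fun h => e.coeff h * f (h * (g * x * g⁻¹)))]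
  refine Finset.sum_congr rfl fun h _ => ?_
  have e1 : (MulAut.conj g).toEquiv h = g * h * g⁻¹ := rfl
  rw [e1, hinv g hg h]
  congr 2
  group

end

section
variable [Fact p.Prime] [CharP k p] [IsAlgClosed k] {G Γ X : Subgroup A}

theorem ix_uniq (hGΓ : G ≤ Γ) (hnΓ : Γ ≤ Subgroup.normalizer (G : Set A))
    (hp : ∀ x ∈ Γ, ∃ n : ℕ, x ^ p ^ n ∈ G) [Fintype (IX k G Γ)] {a b : IX k G Γ → k}
    (h : ∀ x, PY p G Γ x → ∑ χ, a χ * (χ : A → k) x = ∑ χ, b χ * (χ : A → k) x) : a = b := by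
  have hli := IX_linearIndependent (p := p) (k := k) hGΓ hnΓ hp
  rw [Fintype.linearIndependent_iff] at hli
  have h1 := hli (fun χ => a χ - b χ) (by
    funext Y
    rw [Finset.sum_apply]
    simp only [Pi.smul_apply, smul_eq_mul, sub_mul, Finset.sum_sub_distrib, Pi.zero_apply]
    rw [h _ Y.out.2, sub_self])
  funext χ
  exact sub_eq_zero.1 (h1 χ)

theorem ix_exists (hGΓ : G ≤ Γ) (hnΓ : Γ ≤ Subgroup.normalizer (G : Set A))
    (hp : ∀ x ∈ Γ, ∃ n : ℕ, x ^ p ^ n ∈ G) [Fintype (IX k G Γ)] (f : A → k)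
    (hf : ∀ g ∈ Γ, ∀ x, PY p G Γ x → f (g * x * g⁻¹) = f x) :
    ∃ a : IX k G Γ → k, ∀ x, PY p G Γ x → ∑ χ, a χ * (χ : A → k) x = f x := by
  have hsp := IX_span (p := p) (k := k) hGΓ hnΓ hp
  have h1 : (fun Y : Cl Γ (PY p G Γ) => f (Y.out : A)) ∈ Submodule.span k (Set.range
      (fun χ : IX k G Γ => (fun Y : Cl Γ (PY p G Γ) => (χ : A → k) (Y.out : A)))) :=
    hsp Submodule.mem_top
  rw [Submodule.mem_span_range_iff_exists_fun] at h1
  obtain ⟨a, ha⟩ := h1
  refine ⟨a, fun x hx => ?_⟩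
  let Y : Cl Γ (PY p G Γ) := Quotient.mk _ ⟨x, hx⟩
  have hY : InCl Γ (PY p G Γ) Y x := ⟨hx, rfl⟩
  obtain ⟨g, hg, e⟩ := InCl_out_conj hY
  have h2 := congrFun ha Y
  rw [Finset.sum_apply] at h2
  simp only [Pi.smul_apply, smul_eq_mul] at h2
  have h3 : ∀ χ : IX k G Γ, (χ : A → k) (Y.out : A) = (χ : A → k) x := by
    intro χ
    rw [e]
    exact χ.2.2 g hg x
  simp only [h3] at h2
  rw [h2, e]
  exact hf g hg x hx

theorem mult1_orb (hGΓ : G ≤ Γ)
    (hΓX : Γ ≤ X) (hnG : X ≤ Subgroup.normalizer (G : Set A))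
    (hn : X ≤ Subgroup.normalizer (Γ : Set A)) (hp : ∀ x ∈ Γ, ∃ n : ℕ, x ^ p ^ n ∈ G)
    {e : MonoidAlgebra k A} (he : SuppIn G e) (hinv : InvBy X e) (hee : e * e = e) :
    mult1 (EM p X (PY p G Γ) e) = Nat.card (Quotient (chSetoid G Γ X e)) := by
  classical
  let inst : Fintype (IX k G Γ) := Fintype.ofFinite _
  let _ : Fintype (Cl X (PY p G Γ)) := Fintype.ofFinite _
  let inst3 : Finite (Quotient (ixSetoid k G Γ X)) := Quotient.finite _
  let inst4 : Fintype (Quotient (ixSetoid k G Γ X)) := Fintype.ofFinite _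
  have hnΓ : Γ ≤ Subgroup.normalizer (G : Set A) := hΓX.trans hnG
  have hinvΓ : InvBy Γ e := hinv.mono hΓX
  have hinvG : InvBy G e := hinvΓ.mono hGΓ
  have hXH : ∀ χ : IX k G Γ, (χ : A → k) ∈ XH p k G := by
    intro χ
    rw [← span_IrrCh (p := p) G]
    exact Submodule.subset_span χ.2.1
  let q : IX k G Γ → Quotient (ixSetoid k G Γ X) := fun χ => Quotient.mk _ χ
  -- the orbit sums
  let w : Quotient (ixSetoid k G Γ X) → A → k := fun O x =>
    ∑ χ : IX k G Γ, if q χ = O then (χ : A → k) x else 0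
  have hw : ∀ O, ∀ g ∈ X, ∀ x, w O (g * x * g⁻¹) = w O x := by
    intro O g hg x
    change (∑ χ : IX k G Γ, if q χ = O then (χ : A → k) (g * x * g⁻¹) else 0)
      = ∑ χ : IX k G Γ, if q χ = O then (χ : A → k) x else 0
    rw [← Equiv.sum_comp (tE hnG hn hg) (fun χ : IX k G Γ => if q χ = O then (χ : A → k) x else 0)]
    refine Finset.sum_congr rfl fun χ _ => ?_
    have h1 : q (tE hnG hn hg χ) = q χ := tE_rel hnG hn hg χ
    rw [h1]
    rfl
  have hconv : ∀ χ ψ : IX k G Γ, q χ = q ψ → conv e (ψ : A → k) = (ψ : A → k) →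
      conv e (χ : A → k) = (χ : A → k) := by
    intro χ ψ h1 h2
    obtain ⟨h, hh, h3⟩ : ∃ h ∈ X, ∀ x, (ψ : A → k) (h * x * h⁻¹) = (χ : A → k) x :=
      Quotient.exact h1
    have h4 : (χ : A → k) = fun x => (ψ : A → k) (h * x * h⁻¹) := funext fun x => (h3 x).symm
    rw [h4]
    funext x
    rw [conv_conj hinv hh, h2]
  have hlin : ∀ (a : Quotient (ixSetoid k G Γ X) → k) (x : A),
      ∑ O, a O * w O x = ∑ χ : IX k G Γ, a (q χ) * (χ : A → k) x := by
    intro a x
    change ∑ O, a O * (∑ χ : IX k G Γ, if q χ = O then (χ : A → k) x else 0) = _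
    simp only [Finset.mul_sum]
    rw [Finset.sum_comm]
    refine Finset.sum_congr rfl fun χ _ => ?_
    rw [Finset.sum_eq_single (q χ)]
    · rw [if_pos rfl]
    · intro O _ hO
      rw [if_neg (fun h => hO h.symm), mul_zero]
    · intro h
      exact absurd (Finset.mem_univ _) h
  rw [mult1_eigen (EM p X (PY p G Γ) e)
    (fun O : Quotient (ixSetoid k G Γ X) => (fun Y : Cl X (PY p G Γ) => w O (Y.out : A)))
    ?_ ?_ (fun O => if conv e (O.out : A → k) = (O.out : A → k) then 1 else 0) ?_]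
  · apply Nat.card_congr
    let F : {O : Quotient (ixSetoid k G Γ X) //
        (if conv e (O.out : A → k) = (O.out : A → k) then (1 : k) else 0) = 1} →
        Quotient (chSetoid G Γ X e) := fun O => Quotient.mk _ ⟨O.1.out, by
      by_contra hne
      have h := O.2
      rw [if_neg hne] at h
      exact zero_ne_one h⟩
    refine Equiv.ofBijective F ⟨?_, ?_⟩
    · intro O O' h
      obtain ⟨g, hg, h1⟩ := Quotient.exact h
      apply Subtype.ext
      rw [← Quotient.out_eq O.1, ← Quotient.out_eq O'.1]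
      exact Quotient.sound ⟨g, hg, h1⟩
    · intro c
      induction c using Quotient.inductionOn with
      | _ χ =>
      have h1 : q (Quotient.out (q χ.1)) = q χ.1 := Quotient.out_eq _
      have h2 := hconv _ _ h1 χ.2
      refine ⟨⟨q χ.1, if_pos h2⟩, ?_⟩
      obtain ⟨g, hg, h3⟩ := Quotient.exact h1
      exact Quotient.sound ⟨g, hg, h3⟩
  · rw [Fintype.linearIndependent_iff]
    intro a ha O
    have h1 : (fun χ : IX k G Γ => a (q χ)) = fun _ => 0 := by
      apply ix_uniq hGΓ hnΓ hp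
      intro x hx
      let Y : Cl X (PY p G Γ) := Quotient.mk _ ⟨x, hx⟩
      have hY : InCl X (PY p G Γ) Y x := ⟨hx, rfl⟩
      obtain ⟨g, hg, e1⟩ := InCl_out_conj hY
      have h2 := congrFun ha Y
      rw [Finset.sum_apply] at h2
      simp only [Pi.smul_apply, smul_eq_mul, Pi.zero_apply] at h2
      rw [e1] at h2
      simp only [hw _ g hg x] at h2
      rw [hlin] at h2
      rw [h2]
      simp
    have h3 := congrFun h1 O.out
    have h4 : q O.out = O := Quotient.out_eq O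
    rwa [h4] at h3
  · intro φ _
    rw [Submodule.mem_span_range_iff_exists_fun]
    let f : A → k := fun x => if hx : PY p G Γ x then φ (Quotient.mk _ ⟨x, hx⟩) else 0
    have hf0 : ∀ x (hx : PY p G Γ x), f x = φ (Quotient.mk _ ⟨x, hx⟩) := fun x hx => dif_pos hx
    have hf : ∀ g ∈ X, ∀ x, PY p G Γ x → f (g * x * g⁻¹) = f x := by
      intro g hg x hx
      rw [hf0 x hx, hf0 _ (PYG_conj hnG hn hg hx)]
      congr 1
      exact (Quotient.sound (s := clSetoid X (PY p G Γ)) ⟨g, hg, rfl⟩).symm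
    obtain ⟨a, ha⟩ := ix_exists hGΓ hnΓ hp f (fun g hg => hf g (hΓX hg))
    have hainv : ∀ g (hg : g ∈ X) (χ : IX k G Γ), a (tE hnG hn hg χ) = a χ := by
      intro g hg χ
      have h1 : (fun χ => a ((tE hnG hn hg) χ)) = a := by
        apply ix_uniq hGΓ hnΓ hp
        intro x hx
        have hx' := PYG_conj hnG hn (X.inv_mem hg) hx
        have h2 := ha _ hx'
        rw [hf _ (X.inv_mem hg) x hx, ← ha x hx] at h2
        rw [← h2, ← Equiv.sum_comp (tE hnG hn hg)
          (fun χ : IX k G Γ => a χ * (χ : A → k) (g⁻¹ * x * g⁻¹⁻¹))]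
        refine Finset.sum_congr rfl fun χ _ => ?_
        congr 1
        change (χ : A → k) x = (χ : A → k) (g * (g⁻¹ * x * g⁻¹⁻¹) * g⁻¹)
        congr 1
        group
      exact congrFun h1 χ
    have haq : ∀ χ ψ : IX k G Γ, q χ = q ψ → a χ = a ψ := by
      intro χ ψ h1
      obtain ⟨h, hh, h3⟩ : ∃ h ∈ X, ∀ x, (ψ : A → k) (h * x * h⁻¹) = (χ : A → k) x :=
        Quotient.exact h1
      have h4 : χ = tE hnG hn hh ψ := Subtype.ext (funext fun x => (h3 x).symm)
      rw [h4, hainv]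
    refine ⟨fun O => a O.out, ?_⟩
    funext Y
    rw [Finset.sum_apply]
    simp only [Pi.smul_apply, smul_eq_mul]
    rw [hlin (fun O => a O.out)]
    have h5 : ∀ χ : IX k G Γ, a (Quotient.out (q χ)) = a χ := fun χ =>
      haq _ _ (Quotient.out_eq _)
    simp only [h5]
    rw [ha _ Y.out.2, hf0 _ Y.out.2]
    congr 1
    exact Quotient.out_eq Y
  · intro O
    funext Y
    rw [EM_mulVec (hw O) Y]
    have hY : PY p G Γ (Y.out : A) := Y.out.2
    set x : A := (Y.out : A) with hx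
    have h1 : (∑ h : A, if PY p G Γ (pr p (h * x)) then e.coeff h * w O (pr p (h * x)) else 0)
        = ∑ χ : IX k G Γ, if q χ = O then conv e (χ : A → k) x else 0 := by
      have h2 : ∀ h : A, (if PY p G Γ (pr p (h * x)) then e.coeff h * w O (pr p (h * x)) else 0)
          = ∑ χ : IX k G Γ, if q χ = O then (if PY p G Γ (pr p (h * x)) then
              e.coeff h * (χ : A → k) (pr p (h * x)) else 0) else 0 := by
        intro h
        by_cases hP : PY p G Γ (pr p (h * x))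
        · simp only [if_pos hP]
          change e.coeff h * (∑ χ : IX k G Γ, if q χ = O then (χ : A → k) (pr p (h * x)) else 0)
            = _
          rw [Finset.mul_sum]
          refine Finset.sum_congr rfl fun χ _ => ?_
          rw [mul_ite, mul_zero]
        · simp only [if_neg hP, ite_self, Finset.sum_const_zero]
      rw [Finset.sum_congr rfl (fun h _ => h2 h), Finset.sum_comm]
      refine Finset.sum_congr rfl fun χ _ => ?_
      by_cases hq : q χ = O
      · simp only [if_pos hq]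
        rw [fb3_sum_PY_eq hGΓ hnΓ hp he hinvΓ (hXH χ) χ.2.2 hY]
        rfl
      · simp only [if_neg hq, Finset.sum_const_zero]
    rw [h1, Pi.smul_apply, smul_eq_mul]
    change _ = _ * ∑ χ : IX k G Γ, if q χ = O then (χ : A → k) x else 0
    rw [Finset.mul_sum]
    refine Finset.sum_congr rfl fun χ _ => ?_
    by_cases hq : q χ = O
    · rw [if_pos hq, if_pos hq]
      have hqo : q O.out = q χ := (Quotient.out_eq O).trans hq.symm
      by_cases h3 : conv e (O.out : A → k) = (O.out : A → k)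
      · rw [if_pos h3, one_mul, hconv χ O.out hqo.symm h3]
      · rw [if_neg h3, zero_mul]
        have h4 : conv e (χ : A → k) ≠ (χ : A → k) := fun h5 => h3 (hconv O.out χ hqo h5)
        rw [conv_eq_zero_of_ne he hinvG hee ⟨χ.1, χ.2.1⟩ h4]
        rfl
    · rw [if_neg hq, if_neg hq, mul_zero]

end

end Pool.Agent.Lib.P0c8ca5.Hy
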