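import Mathlib
import Pool.Agent.Lib.P0c8ca5E.OrbM
import Pool.Agent.Lib.P0c8ca5.LHS

/-!
# Module OrbI: the orbits on the invariant irreducible representations

PROOF of `irr_top`.  `cX` (the character) is injective on `IrX G e`, with image the `χ ∈ IrrCh k G` with
`conv e χ = χ`; `a ∈ stX hinv x` if and only if `cX x` is invariant under conjugation by `a`.  So the `x` with
`Γ ≤ stX hinv x` correspond to the `χ : {χ : IX k G Γ // conv e χ = χ}`, the fibres of the map to
`Quotient (chSetoid G Γ X e)` are the orbits of `X`, and `sum_orbit`.  Then `mult1_orb`.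
-/

namespace Pool.Agent.Lib.P0c8ca5.Hy

open MonoidAlgebra Cy

variable {p : ℕ} {k : Type*} [Field k] {A : Type*} [Group A] [Fintype A]

section
variable {G : Subgroup A} {e : MonoidAlgebra k A}

/-- the character of an irreducible representation -/
noncomputable def cX : IrX G e → A → k :=
  Quotient.lift (fun a : IrrInv G ⊥ e => chi a.ρ) (fun _ _ h => chi_equiv h)

theorem cX_mk (a : IrrInv G ⊥ e) : cX (Quotient.mk _ a : IrX G e) = chi a.ρ := rfl

theorem cX_mem (x : IrX G e) : cX x ∈ IrrCh k G := by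
  induction x using Quotient.inductionOn with
  | _ a => exact ⟨a.n, a.ρ, a.irr, rfl⟩

theorem cX_conv (he : SuppIn G e) (x : IrX G e) : conv e (cX x) = cX x := by
  induction x using Quotient.inductionOn with
  | _ a => exact conv_chi_of_inBlock he a.blk

theorem cX_inj [IsAlgClosed k] {x y : IrX G e} (h : cX x = cX y) : x = y := by
  induction x using Quotient.inductionOn with
  | _ a =>
  induction y using Quotient.inductionOn with
  | _ b => exact Quotient.sound (chi_inj a.irr b.irr h)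

theorem cX_surj [IsAlgClosed k] (he : SuppIn G e) (hinv : InvBy G e) (hee : e * e = e) {f : A → k}
    (hf : f ∈ IrrCh k G) (hc : conv e f = f) : ∃ x : IrX G e, cX x = f := by
  obtain ⟨n, ρ, hρ, rfl⟩ := hf
  have hb : InBlock e ρ := by
    by_contra hb
    have h3 := conv_chi_of_not hρ he hinv hee hb
    exact ChDAux.chi_ne_zero hρ (hc.symm.trans h3)
  exact ⟨Quotient.mk _ (mkIrr ρ (irr_iff.1 hρ) (act_iff.2 hb)), rfl⟩

variable [hG : G.Normal]

theorem cX_smul [IsAlgClosed k] (hinv : InvBy ⊤ e) (a : A) (x : IrX G e) (y : A) :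
    letI := actX (G := G) hinv
    cX (a • x) (a * y * a⁻¹) = cX x y := by
  let _ := actX (G := G) hinv
  induction x using Quotient.inductionOn with
  | _ σ =>
    exact chi_conj (mem_norm_of_normal G a) (ChDAux.isConj_tw (mem_norm_of_normal G a) σ.ρ) y

theorem cX_smul' [IsAlgClosed k] (hinv : InvBy ⊤ e) (a : A) (x : IrX G e) (y : A) :
    letI := actX (G := G) hinv
    cX (a • x) y = cX x (a⁻¹ * y * a) := by
  let _ := actX (G := G) hinv
  have h := cX_smul hinv a x (a⁻¹ * y * a)
  have e1 : a * (a⁻¹ * y * a) * a⁻¹ = y := by group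
  rwa [e1] at h

theorem mem_stX_iff [IsAlgClosed k] (hinv : InvBy ⊤ e) (a : A) (x : IrX G e) :
    a ∈ stX (G := G) hinv x ↔ ∀ y, cX x (a * y * a⁻¹) = cX x y := by
  let _ := actX (G := G) hinv
  constructor
  · intro h y
    have h1 : a • x = x := h
    have h2 := cX_smul hinv a x y
    rw [h1] at h2
    exact h2
  · intro h
    change a • x = x
    apply cX_inj
    funext y
    rw [cX_smul' hinv a x y, ← h]
    congr 1
    group

end

open Classical in
theorem irr_orb [Fact p.Prime] [CharP k p] [IsAlgClosed k] {G Γ X : Subgroup A} [hG : G.Normal]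
    (hn : X ≤ Subgroup.normalizer (Γ : Set A))
    {e : MonoidAlgebra k A} (he : SuppIn G e)
    (hinv : InvBy ⊤ e) (hee : e * e = e) [Fintype (IrX G e)] :
    (∑ x : IrX G e, if Γ ≤ stX (G := G) hinv x then Nat.card ↥(X ⊓ stX (G := G) hinv x) else 0)
      = Nat.card X * Nat.card (Quotient (chSetoid G Γ X e)) := by
  let _ := actX (G := G) hinv
  let inst : Finite {χ : IX k G Γ // conv e (χ : A → k) = (χ : A → k)} := inferInstance
  let inst3 : Finite (Quotient (chSetoid G Γ X e)) := Quotient.finite _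
  let inst4 : Fintype (Quotient (chSetoid G Γ X e)) := Fintype.ofFinite _
  have hinvG : InvBy G e := hinv.mono le_top
  let c1 : (x : IrX G e) → Γ ≤ stX (G := G) hinv x →
      {χ : IX k G Γ // conv e (χ : A → k) = (χ : A → k)} := fun x hx =>
    ⟨⟨cX x, cX_mem x, fun h hh y => (mem_stX_iff hinv h x).1 (hx hh) y⟩, cX_conv he x⟩
  let q : (x : IrX G e) → Γ ≤ stX (G := G) hinv x → Quotient (chSetoid G Γ X e) := fun x hx =>
    Quotient.mk _ (c1 x hx)
  have h1 : ∀ x : IrX G e, (if Γ ≤ stX (G := G) hinv x then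
      Nat.card ↥(X ⊓ stX (G := G) hinv x) else 0)
      = ∑ c : Quotient (chSetoid G Γ X e), if (∃ hx : Γ ≤ stX (G := G) hinv x, q x hx = c) then
          Nat.card ↥(X ⊓ stX (G := G) hinv x) else 0 := by
    intro x
    by_cases hx : Γ ≤ stX (G := G) hinv x
    · rw [if_pos hx, Finset.sum_eq_single (q x hx)]
      · rw [if_pos ⟨hx, rfl⟩]
      · intro c _ hc
        rw [if_neg]
        rintro ⟨_, h⟩
        exact hc h.symm
      · intro h
        exact absurd (Finset.mem_univ _) h
    · rw [if_neg hx]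
      symm
      refine Finset.sum_eq_zero fun c _ => if_neg ?_
      rintro ⟨h, _⟩
      exact hx h
  rw [Finset.sum_congr rfl (fun x _ => h1 x), Finset.sum_comm]
  have h2 : ∀ c : Quotient (chSetoid G Γ X e), (∑ x : IrX G e,
      if (∃ hx : Γ ≤ stX (G := G) hinv x, q x hx = c) then
          Nat.card ↥(X ⊓ stX (G := G) hinv x) else 0) = Nat.card X := by
    intro c
    rw [← Finset.sum_filter]
    obtain ⟨χ, rfl⟩ := Quotient.exists_rep c
    obtain ⟨x₀, hx₀⟩ := cX_surj he hinvG hee χ.1.2.1 χ.2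
    have hΓ₀ : Γ ≤ stX (G := G) hinv x₀ := by
      intro g hg
      rw [mem_stX_iff, hx₀]
      exact χ.1.2.2 g hg
    have hq₀ : q x₀ hΓ₀ = Quotient.mk _ χ := by
      change Quotient.mk _ (c1 x₀ hΓ₀) = _
      congr 1
      exact Subtype.ext (Subtype.ext hx₀)
    refine sum_orbit X x₀ _ (fun x => ?_)
    rw [Finset.mem_filter]
    constructor
    · rintro ⟨-, hx, hqx⟩
      rw [← hq₀] at hqx
      obtain ⟨h, hh, h3⟩ := Quotient.exact hqx
      refine ⟨h⁻¹, X.inv_mem hh, ?_⟩
      apply cX_inj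
      funext y
      rw [cX_smul' hinv h⁻¹ x₀ y, inv_inv]
      exact (h3 y).symm
    · rintro ⟨h, hh, rfl⟩
      have hΓh : Γ ≤ stX (G := G) hinv (h • x₀) := by
        intro g hg
        rw [mem_stX_iff]
        intro y
        rw [cX_smul' hinv h x₀, cX_smul' hinv h x₀]
        have hg' : h⁻¹ * g * h ∈ Γ := by
          rw [Subgroup.mem_normalizer_iff.1 (hn hh)]
          have e1 : h * (h⁻¹ * g * h) * h⁻¹ = g := by group
          rwa [e1]
        have h4 := (mem_stX_iff hinv _ x₀).1 (hΓ₀ hg') (h⁻¹ * y * h)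
        rw [← h4]
        congr 1
        group
      refine ⟨Finset.mem_univ _, hΓh, ?_⟩
      rw [← hq₀]
      apply Quotient.sound
      refine ⟨h⁻¹, X.inv_mem hh, fun y => ?_⟩
      change cX x₀ (h⁻¹ * y * h⁻¹⁻¹) = cX (h • x₀) y
      rw [cX_smul' hinv h x₀, inv_inv]
  rw [Finset.sum_congr rfl (fun c _ => h2 c), Finset.sum_const, smul_eq_mul, mul_comm,
    Finset.card_univ, Nat.card_eq_fintype_card (α := Quotient (chSetoid G Γ X e))]

open Classical in
theorem irr_top [Fact p.Prime] [CharP k p] [IsAlgClosed k] {G Γ X : Subgroup A} [hG : G.Normal]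
    (hGΓ : G ≤ Γ) (hΓX : Γ ≤ X) (hn : X ≤ Subgroup.normalizer (Γ : Set A))
    (hp : ∀ x ∈ Γ, ∃ n : ℕ, x ^ p ^ n ∈ G) {e : MonoidAlgebra k A} (he : SuppIn G e)
    (hinv : InvBy ⊤ e) (hee : e * e = e) [Fintype (IrX G e)] :
    (∑ x : IrX G e, if Γ ≤ stX (G := G) hinv x then Nat.card ↥(X ⊓ stX (G := G) hinv x) else 0)
      = Nat.card X * mult1 (EM p X (PY p G Γ) e) := by
  rw [mult1_orb hGΓ hΓX (fun x _ => mem_norm_of_normal G x) hn hp he (hinv.mono le_top) hee]
  exact irr_orb (p := p) hn he hinv hee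

end Pool.Agent.Lib.P0c8ca5.Hy
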