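import Mathlib
import Pool.Agent.Lib.P0c8ca5E.Defs
import Pool.Agent.Lib.P0c8ca5C.Avg
import Pool.Agent.Lib.P0c8ca5C.Hyp

/-!
# Module PhiInv: from the sums `Psi` to the sums `Phi`

`N` is normal, `A / N` cyclic, `aS N s L = ∑ |N ⊓ s x|` over the `x` with `L ≤ N ⊔ s x`.

PROOF of `phi_avg`: `avg` (P0c8ca5C.Avg) with `c = 1`.
PROOF of `psi_avg`: `|N| ^ 2 * Psi N Y s = ∑_{y, z ∈ Y} aS N s (N ⊔ closure {y, z})`: for one subgroup `s` let
`Z = Y ⊓ (N ⊔ s) = N ⊔ (Y ⊓ s)`; then `|Z| * |N ⊓ s| = |N| * |Y ⊓ s|` and the right side is `|Z| ^ 2 * |N ⊓ s|`.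
PROOF of `aS_of_psiS`: strong induction on `Nat.card L`; the number of the pairs generating `L` modulo `N` is
positive as `L / N` is cyclic.
-/

namespace Pool.Agent.Lib.P0c8ca5.Hy

open Cy

variable {p : ℕ} {A : Type*} [Group A] [Fintype A]

open Classical in
theorem phi_avg {X : Type*} [Fintype X] (N : Subgroup A) [hN : N.Normal] {Y : Subgroup A}
    (hNY : N ≤ Y) (s : X → Subgroup A) :
    Nat.card N * Phi Y s
      = ∑ y ∈ Finset.univ.filter (fun y => y ∈ Y), aS N s (N ⊔ Subgroup.zpowers y) := by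
  have h := avg N hNY s (fun _ => 1) (fun _ _ _ => rfl)
  have h2 : ((Nat.card N * Phi Y s : ℕ) : ℚ)
      = ((∑ y ∈ Finset.univ.filter (fun y => y ∈ Y), aS N s (N ⊔ Subgroup.zpowers y) : ℕ) : ℚ) := by
    rw [Nat.cast_sum, Nat.cast_mul]
    rw [show (∑ y ∈ Finset.univ.filter (fun y => y ∈ Y), (aS N s (N ⊔ Subgroup.zpowers y) : ℚ))
      = ∑ y ∈ Finset.univ.filter (fun y => y ∈ Y), 1 * (aS N s (N ⊔ Subgroup.zpowers y) : ℚ) from
        Finset.sum_congr rfl fun y _ => (one_mul _).symm, ← h]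
    congr 1
    unfold Phi
    rw [Nat.cast_sum]
    refine Finset.sum_congr rfl fun x _ => ?_
    rw [Finset.sum_const, nsmul_eq_mul, mul_one, AvgAux.card_filter]
  exact_mod_cast h2

open Classical in
theorem psi_one (N : Subgroup A) [hN : N.Normal] {Y : Subgroup A} (hNY : N ≤ Y) (s : Subgroup A) :
    Nat.card N ^ 2 * (Nat.card ↥(Y ⊓ s) * N.relIndex (Y ⊓ s))
      = ∑ y ∈ Finset.univ.filter (fun y => y ∈ Y), ∑ z ∈ Finset.univ.filter (fun z => z ∈ Y),
          if N ⊔ Subgroup.closure {y, z} ≤ N ⊔ s then Nat.card ↥(N ⊓ s) else 0 := by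
  set Z : Subgroup A := Y ⊓ (N ⊔ s) with hZ
  have hcond : ∀ y z : A, N ⊔ Subgroup.closure {y, z} ≤ N ⊔ s ↔ y ∈ N ⊔ s ∧ z ∈ N ⊔ s := by
    intro y z
    rw [sup_le_iff, Subgroup.closure_le, Set.insert_subset_iff, Set.singleton_subset_iff]
    exact ⟨fun h => h.2, fun h => ⟨le_sup_left, h⟩⟩
  have h1 : (∑ y ∈ Finset.univ.filter (fun y => y ∈ Y), ∑ z ∈ Finset.univ.filter (fun z => z ∈ Y),
          if N ⊔ Subgroup.closure {y, z} ≤ N ⊔ s then Nat.card ↥(N ⊓ s) else 0)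
      = Nat.card Z * (Nat.card Z * Nat.card ↥(N ⊓ s)) := by
    have h2 : ∀ y ∈ Finset.univ.filter (fun y => y ∈ Y),
        (∑ z ∈ Finset.univ.filter (fun z => z ∈ Y),
          if N ⊔ Subgroup.closure {y, z} ≤ N ⊔ s then Nat.card ↥(N ⊓ s) else 0)
        = if y ∈ N ⊔ s then Nat.card Z * Nat.card ↥(N ⊓ s) else 0 := by
      intro y _
      by_cases hy : y ∈ N ⊔ s
      · rw [if_pos hy, ← Finset.sum_filter, Finset.sum_const, smul_eq_mul,
          AvgAux.card_filter Z, Finset.filter_filter]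
        congr 2
        ext z
        rw [Finset.mem_filter, Finset.mem_filter, hcond, hZ, Subgroup.mem_inf]
        tauto
      · rw [if_neg hy]
        exact Finset.sum_eq_zero fun z _ => if_neg fun h => hy ((hcond y z).1 h).1
    rw [Finset.sum_congr rfl h2, ← Finset.sum_filter, Finset.sum_const, smul_eq_mul,
      Finset.filter_filter]
    congr 1
    rw [AvgAux.card_filter Z]
    congr 1
    ext y
    rw [Finset.mem_filter, Finset.mem_filter, hZ, Subgroup.mem_inf]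
  have hZ' : Z = N ⊔ (Y ⊓ s) := by
    apply le_antisymm
    · rintro x ⟨hxY, hx⟩
      obtain ⟨n, hn, t, ht, rfl⟩ := Subgroup.mem_sup_of_normal_left.1 hx
      refine Subgroup.mul_mem_sup hn ⟨?_, ht⟩
      have := Y.mul_mem (Y.inv_mem (hNY hn)) hxY
      rwa [inv_mul_cancel_left] at this
    · exact sup_le (le_inf hNY le_sup_left) (inf_le_inf_left Y le_sup_right)
  have h3 := card_sup_mul (L := N) (D := Y ⊓ s)
    (fun x _ => mem_norm_of_normal N x)
  rw [← hZ'] at h3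
  have hI : N ⊓ (Y ⊓ s) = N ⊓ s := by rw [← inf_assoc, inf_of_le_left hNY]
  rw [hI] at h3
  have h4 := card_mul_rel (inf_le_right : N ⊓ (Y ⊓ s) ≤ Y ⊓ s)
  rw [Subgroup.inf_relIndex_right, hI] at h4
  rw [h1]
  have hpos : 0 < Nat.card ↥(N ⊓ s) := Nat.card_pos
  apply Nat.eq_of_mul_eq_mul_left hpos
  calc Nat.card ↥(N ⊓ s) * (Nat.card N ^ 2 * (Nat.card ↥(Y ⊓ s) * N.relIndex (Y ⊓ s)))
      = Nat.card N ^ 2 * Nat.card ↥(Y ⊓ s) * (Nat.card ↥(N ⊓ s) * N.relIndex (Y ⊓ s)) := by ring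
    _ = Nat.card N ^ 2 * Nat.card ↥(Y ⊓ s) * Nat.card ↥(Y ⊓ s) := by rw [h4]
    _ = (Nat.card N * Nat.card ↥(Y ⊓ s)) * (Nat.card N * Nat.card ↥(Y ⊓ s)) := by ring
    _ = (Nat.card Z * Nat.card ↥(N ⊓ s)) * (Nat.card Z * Nat.card ↥(N ⊓ s)) := by rw [h3]
    _ = _ := by ring

open Classical in
theorem psi_avg {X : Type*} [Fintype X] (N : Subgroup A) [hN : N.Normal] {Y : Subgroup A}
    (hNY : N ≤ Y) (s : X → Subgroup A) :
    Nat.card N ^ 2 * Psi N Y s
      = ∑ y ∈ Finset.univ.filter (fun y => y ∈ Y), ∑ z ∈ Finset.univ.filter (fun z => z ∈ Y),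
          aS N s (N ⊔ Subgroup.closure {y, z}) := by
  unfold Psi aS
  rw [Finset.mul_sum, Finset.sum_congr rfl fun x _ => psi_one N hNY (s x), Finset.sum_comm]
  refine Finset.sum_congr rfl fun y _ => ?_
  rw [Finset.sum_comm]

theorem aS_of_psiS {X₁ X₂ : Type*} [Fintype X₁] [Fintype X₂] {N H : Subgroup A} [hN : N.Normal]
    (hh : CycExt p N H) (s₁ : X₁ → Subgroup A) (s₂ : X₂ → Subgroup A)
    (h : ∀ Y : Subgroup A, N ≤ Y → Y ≤ H → Psi N Y s₁ = Psi N Y s₂) :
    ∀ (n : ℕ) (L : Subgroup A), N ≤ L → L ≤ H → Nat.card L = n → aS N s₁ L = aS N s₂ L := by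
  classical
  intro n
  induction n using Nat.strong_induction_on with
  | _ n ih =>
    intro L hNL hLH hcard
    have hL : CycExt p N L := by
      have := hh.sub hLH
      rwa [inf_of_le_left hNL] at this
    have h1 := psi_avg N hNL s₁
    have h2 := psi_avg N hNL s₂
    rw [h L hNL hLH, h2] at h1
    set P : Finset (A × A) := (Finset.univ.filter (fun y => y ∈ L)) ×ˢ
      (Finset.univ.filter (fun z => z ∈ L)) with hP
    have hs : ∀ f : Subgroup A → ℕ, (∑ y ∈ Finset.univ.filter (fun y => y ∈ L),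
        ∑ z ∈ Finset.univ.filter (fun z => z ∈ L), f (N ⊔ Subgroup.closure {y, z}))
        = ∑ x ∈ P, f (N ⊔ Subgroup.closure {x.1, x.2}) := fun f =>
      (Finset.sum_product' _ _ (fun y z => f (N ⊔ Subgroup.closure {y, z}))).symm
    rw [hs (aS N s₁), hs (aS N s₂)] at h1
    have h5 := Finset.sum_filter_add_sum_filter_not P
      (fun y => N ⊔ Subgroup.closure {y.1, y.2} = L)
      (fun y => aS N s₁ (N ⊔ Subgroup.closure {y.1, y.2}))
    have h6 := Finset.sum_filter_add_sum_filter_not P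
      (fun y => N ⊔ Subgroup.closure {y.1, y.2} = L)
      (fun y => aS N s₂ (N ⊔ Subgroup.closure {y.1, y.2}))
    have h7 : ∑ y ∈ P.filter (fun y => ¬ N ⊔ Subgroup.closure {y.1, y.2} = L),
          aS N s₁ (N ⊔ Subgroup.closure {y.1, y.2})
        = ∑ y ∈ P.filter (fun y => ¬ N ⊔ Subgroup.closure {y.1, y.2} = L),
          aS N s₂ (N ⊔ Subgroup.closure {y.1, y.2}) := by
      refine Finset.sum_congr rfl fun y hy => ?_
      rw [Finset.mem_filter, hP, Finset.mem_product, Finset.mem_filter, Finset.mem_filter] at hy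
      have hle : N ⊔ Subgroup.closure {y.1, y.2} ≤ L := by
        refine sup_le hNL ?_
        rw [Subgroup.closure_le, Set.insert_subset_iff, Set.singleton_subset_iff]
        exact ⟨hy.1.1.2, hy.1.2.2⟩
      have hlt : Nat.card ↥(N ⊔ Subgroup.closure {y.1, y.2}) < n := by
        rw [← hcard]
        refine lt_of_le_of_ne (Subgroup.card_le_of_le hle) fun he => hy.2 ?_
        exact Subgroup.eq_of_le_of_card_ge hle he.ge
      exact ih _ hlt _ le_sup_left (hle.trans hLH) rfl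
    have h8 : ∀ f : Subgroup A → ℕ, ∑ y ∈ P.filter
          (fun y => N ⊔ Subgroup.closure {y.1, y.2} = L), f (N ⊔ Subgroup.closure {y.1, y.2})
        = (P.filter (fun y => N ⊔ Subgroup.closure {y.1, y.2} = L)).card * f L := by
      intro f
      rw [Finset.sum_congr rfl (g := fun _ => f L) (fun y hy => by
        rw [(Finset.mem_filter.1 hy).2]), Finset.sum_const, smul_eq_mul]
    rw [h8 (aS N s₁)] at h5
    rw [h8 (aS N s₂)] at h6
    have h9 : (P.filter (fun y => N ⊔ Subgroup.closure {y.1, y.2} = L)).card * aS N s₁ L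
        = (P.filter (fun y => N ⊔ Subgroup.closure {y.1, y.2} = L)).card * aS N s₂ L := by
      omega
    obtain ⟨t, ht, htL⟩ := hL.cyc
    refine Nat.eq_of_mul_eq_mul_left (Finset.card_pos.2 ⟨(t, t), ?_⟩) h9
    rw [Finset.mem_filter, hP, Finset.mem_product, Finset.mem_filter]
    refine ⟨⟨⟨Finset.mem_univ _, ht⟩, ⟨Finset.mem_univ _, ht⟩⟩, ?_⟩
    rw [Set.pair_eq_singleton, ← Subgroup.zpowers_eq_closure, htL]

/-- the version for a subgroup -/
theorem phi_of_psiS {X₁ X₂ : Type*} [Fintype X₁] [Fintype X₂] {N H : Subgroup A} [hN : N.Normal]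
    (hh : CycExt p N H) (s₁ : X₁ → Subgroup A) (s₂ : X₂ → Subgroup A)
    (h : ∀ Y : Subgroup A, N ≤ Y → Y ≤ H → Psi N Y s₁ = Psi N Y s₂) : Phi H s₁ = Phi H s₂ := by
  classical
  have h1 := phi_avg N hh.NH s₁
  have h2 := phi_avg N hh.NH s₂
  have h3 : Nat.card N * Phi H s₁ = Nat.card N * Phi H s₂ := by
    rw [h1, h2]
    refine Finset.sum_congr rfl fun y hy => ?_
    rw [Finset.mem_filter] at hy
    exact aS_of_psiS hh s₁ s₂ h _ _ le_sup_left
      (sup_le hh.NH (by rw [Subgroup.zpowers_le]; exact hy.2)) rfl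
  exact Nat.eq_of_mul_eq_mul_left Nat.card_pos h3

end Pool.Agent.Lib.P0c8ca5.Hy
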