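import Mathlib
import Pool.Agent.Lib.P0c8ca5E.Defs

/-!
# Module OrbDz: stabilizers of the regular blocks of defect zero and of their orbit sums

`C ≤ L ≤ K`, `K` normalizes `C` and `L`, `L / C` a p-group.  A block of defect zero `g` of `C` is regular if its
stabilizer in `L` is `C`.

PROOF of `sum_reg`.  As in `card_reg` (P0c8ca5.Reg), applied to `(C, L)`, the map `g ↦ orbSum L g` sends the
regular `g` with `g * ε = g` to the blocks `f` of defect zero of `L` with `f * ε = f` (`isDZ_orbSum`), it is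
surjective (`exists_isDZ_orbSum`) and the fibre of `f = orbSum L g` is `orb L g`.  `|K ⊓ cst (cj y g)| = |K ⊓ cst g|`
for `y ∈ L`, and `|orb L g| * |K ⊓ cst g| = |K ⊓ cst f|` as `K ⊓ cst f = L (K ⊓ cst g)`.
-/

namespace Pool.Agent.Lib.P0c8ca5.Hy

open MonoidAlgebra Cy

variable {p : ℕ} {k : Type*} [Field k] {A : Type*} [Group A] [Fintype A]

theorem cj_orbSum {L : Subgroup A} {x : A} (hx : x ∈ Subgroup.normalizer (L : Set A))
    (g : MonoidAlgebra k A) : cj x (orbSum L g) = orbSum L (cj x g) := by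
  rw [orbSum, orbSum, cj_sum]
  have hn := Subgroup.mem_normalizer_iff.1 hx
  refine Finset.sum_bij' (fun z _ => cj x z) (fun z _ => cj x⁻¹ z) ?_ ?_ ?_ ?_ ?_
  · intro z hz
    obtain ⟨y, hy, rfl⟩ := mem_orb.1 hz
    refine mem_orb.2 ⟨x * y * x⁻¹, (hn y).1 hy, ?_⟩
    rw [cj_cj, cj_cj, inv_mul_cancel_right]
  · intro z hz
    obtain ⟨y, hy, rfl⟩ := mem_orb.1 hz
    refine mem_orb.2 ⟨x⁻¹ * y * x, (hn _).2 ?_, ?_⟩
    · have e : x * (x⁻¹ * y * x) * x⁻¹ = y := by group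
      rw [e]; exact hy
    · rw [cj_cj, cj_cj, mul_assoc]
  · intro z _; exact cj_inv_cj x z
  · intro z _; exact cj_cj_inv x z
  · intro z _; rfl

theorem card_cst_cj {K : Subgroup A} {y : A} (hy : y ∈ K) (g : MonoidAlgebra k A) :
    Nat.card ↥(K ⊓ cst (cj y g)) = Nat.card ↥(K ⊓ cst g) := by
  have h : K ⊓ cst (cj y g) = cg y (K ⊓ cst g) := by
    rw [cg_inf, cg_of_mem hy]
    congr 1
    ext x
    rw [mem_cst]
    have h2 : x ∈ cg y (cst g) ↔ y⁻¹ * x * y ∈ cst g := mem_cg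
    rw [h2, mem_cst]
    constructor
    · intro h
      rw [← cj_cj, ← cj_cj, h, cj_inv_cj]
    · intro h
      conv_rhs => rw [← h]
      rw [cj_cj, cj_cj]
      congr 1
      group
  rw [h, card_cg]

variable [Fact p.Prime] [CharP k p] [IsAlgClosed k]

theorem orb_unique {C L : Subgroup A} (hn : L ≤ Subgroup.normalizer (C : Set A))
    {f' g : MonoidAlgebra k A} (hf' : IsDZ p C f') (hg : IsDZ p C g)
    (h : orbSum L g = orbSum L f') : g ∈ orb L f' := by
  by_contra hcon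
  have h1 : orbSum L f' * g = 0 := by
    rw [orbSum, Finset.sum_mul]
    apply Finset.sum_eq_zero
    intro z hz
    rcases (orb_isBlock hn hf'.blk z hz).eq_or_mul_eq_zero hg.blk with h | h
    · rw [h] at hz; exact absurd hz hcon
    · exact h
  rw [← h, orbSum_mul hn hg.blk g (self_mem_orb L g)] at h1
  exact hg.blk.ne_zero h1

theorem orb_card {C L K : Subgroup A} (hCL : C ≤ L)
    (hLK : L ≤ K) (hKC : K ≤ Subgroup.normalizer (C : Set A))
    (hKL : K ≤ Subgroup.normalizer (L : Set A)) {g : MonoidAlgebra k A} (hg : IsDZ p C g)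
    (hst : ∀ x ∈ L, cj x g = g → x ∈ C) :
    ∑ g' ∈ orb L g, Nat.card ↥(K ⊓ cst g') = Nat.card ↥(K ⊓ cst (orbSum L g)) := by
  have hn : L ≤ Subgroup.normalizer (C : Set A) := hLK.trans hKC
  have h1 : ∀ g' ∈ orb L g, Nat.card ↥(K ⊓ cst g') = Nat.card ↥(K ⊓ cst g) := by
    intro g' hg'
    obtain ⟨y, hy, rfl⟩ := mem_orb.1 hg'
    exact card_cst_cj (hLK hy) g
  rw [Finset.sum_const_nat h1, card_orb (C := C) (fun x hx =>
    ⟨hst x hx, fun h => invBy_iff_cj.1 hg.blk.invBy x h⟩)]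
  have hM : K ⊓ cst (orbSum L g) = L ⊔ (K ⊓ cst g) := by
    apply le_antisymm
    · rintro x ⟨hxK, hx⟩
      have h2 : cj x (orbSum L g) = orbSum L g := hx
      rw [cj_orbSum (hKL hxK)] at h2
      have hdz : IsDZ p C (cj x g) := by
        have := isDZ_cg hg x
        rwa [cg_of_mem_normalizer (hKC hxK)] at this
      obtain ⟨y, hy, hyx⟩ := mem_orb.1 (orb_unique hn hg hdz h2)
      have h3 : y⁻¹ * x ∈ K ⊓ cst g := by
        refine Subgroup.mem_inf.2 ⟨K.mul_mem (K.inv_mem (hLK hy)) hxK, ?_⟩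
        rw [mem_cst, ← cj_cj, ← hyx, cj_inv_cj]
      have h4 := Subgroup.mul_mem_sup hy h3
      rwa [mul_inv_cancel_left] at h4
    · refine sup_le (le_inf hLK fun x hx => ?_) (le_inf inf_le_left ?_)
      · exact invBy_iff_cj.1 (orbSum_invBy L g) x hx
      · rintro x ⟨hxK, hx⟩
        rw [mem_cst, cj_orbSum (hKL hxK)]
        rw [show cj x g = g from hx]
  have hI : L ⊓ (K ⊓ cst g) = C := by
    apply le_antisymm
    · rintro x ⟨hxL, -, hx⟩
      exact hst x hxL hx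
    · intro x hx
      exact ⟨hCL hx, hLK (hCL hx), invBy_iff_cj.1 hg.blk.invBy x hx⟩
  have h5 := card_sup_mul (L := L) (D := K ⊓ cst g) (inf_le_left.trans hKL)
  rw [hI, ← hM] at h5
  have h6 := card_mul_rel hCL
  have h7 : Nat.card C * (C.relIndex L * Nat.card ↥(K ⊓ cst g))
      = Nat.card C * Nat.card ↥(K ⊓ cst (orbSum L g)) := by
    rw [← mul_assoc, mul_comm _ (Nat.card ↥(K ⊓ cst (orbSum L g))), h5]
    rw [← h6]
  exact Nat.eq_of_mul_eq_mul_left Nat.card_pos h7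

theorem sum_reg {C L K : Subgroup A} (hCL : C ≤ L)
    (hLK : L ≤ K) (hKC : K ≤ Subgroup.normalizer (C : Set A))
    (hKL : K ≤ Subgroup.normalizer (L : Set A)) (hp : ∀ x ∈ L, ∃ n : ℕ, x ^ p ^ n ∈ C)
    {ε : MonoidAlgebra k A} (hε : InvBy K ε) (S' S : Finset (MonoidAlgebra k A))
    (hS' : ∀ g, g ∈ S' ↔ IsDZ p C g ∧ g * ε = g ∧ ∀ x ∈ L, cj x g = g → x ∈ C)
    (hS : ∀ f, f ∈ S ↔ IsDZ p L f ∧ f * ε = f) :
    ∑ g ∈ S', Nat.card ↥(K ⊓ cst g) = ∑ f ∈ S, Nat.card ↥(K ⊓ cst f) := by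
  classical
  have hn : L ≤ Subgroup.normalizer (C : Set A) := hLK.trans hKC
  have hεL : InvBy L ε := hε.mono hLK
  have hmaps : ∀ f' ∈ S', orbSum L f' ∈ S := by
    intro f' hf'
    obtain ⟨h1, h2, h3⟩ := (hS' f').1 hf'
    refine (hS _).2 ⟨isDZ_orbSum hCL hn hp h1 h3, ?_⟩
    rw [orbSum, Finset.sum_mul]
    refine Finset.sum_congr rfl (fun z hz => ?_)
    obtain ⟨x, hx, rfl⟩ := mem_orb.1 hz
    calc cj x f' * ε = cj x f' * cj x ε := by rw [invBy_iff_cj.1 hεL x hx]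
      _ = cj x f' := by rw [← cj_mul, h2]
  rw [← Finset.sum_fiberwise_of_maps_to hmaps]
  refine Finset.sum_congr rfl fun f hf => ?_
  obtain ⟨hf1, hf2⟩ := (hS f).1 hf
  obtain ⟨f', hf', hst, hE⟩ := exists_isDZ_orbSum hCL hn hp hf1
  have hf'f : f' * f = f' := by
    have h1 := orbSum_mul hn hf'.blk f' (self_mem_orb L f')
    have hmemf : f ∈ fixAlg k C C := by rw [← hE]; exact orbSum_mem hn hf'.blk
    rw [hE] at h1
    rw [commute_of (mem_fixAlg.1 hf'.blk.mem).1 (mem_fixAlg.1 hmemf).2, h1]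
  have hfib : S'.filter (fun g => orbSum L g = f) = orb L f' := by
    ext g
    rw [Finset.mem_filter, hS']
    constructor
    · rintro ⟨⟨hg1, hg2, hg3⟩, hgE⟩
      exact orb_unique hn hf' hg1 (hgE.trans hE.symm)
    · intro hg
      obtain ⟨x, hx, rfl⟩ := mem_orb.1 hg
      refine ⟨⟨orb_isDZ hn hf' _ hg, ?_, ?_⟩, ?_⟩
      · have h1 : f' * ε = f' := by
          calc f' * ε = f' * f * ε := by rw [hf'f]
            _ = f' := by rw [mul_assoc, hf2, hf'f]
        calc cj x f' * ε = cj x f' * cj x ε := by rw [invBy_iff_cj.1 hεL x hx]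
          _ = cj x f' := by rw [← cj_mul, h1]
      · intro y hy hyf
        have h4 : cj (x⁻¹ * y * x) f' = f' := by
          rw [← cj_cj, ← cj_cj, hyf, cj_inv_cj]
        have h5 := hst _ (L.mul_mem (L.mul_mem (L.inv_mem hx) hy) hx) h4
        have h6 := (Subgroup.mem_normalizer_iff.1 (hn hx) _).1 h5
        have e1 : x * (x⁻¹ * y * x) * x⁻¹ = y := by group
        rwa [e1] at h6
      · rw [← hE, ← cj_orbSum (Subgroup.le_normalizer hx)]
        exact invBy_iff_cj.1 (orbSum_invBy L f') x hx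
  rw [hfib, orb_card hCL hLK hKC hKL hf' hst, hE]

end Pool.Agent.Lib.P0c8ca5.Hy
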