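import Mathlib
import Pool.Agent.Lib.P0c8ca5E.OrbDz
import Pool.Agent.Lib.P0c8ca5E.PTsum
import Pool.Agent.Lib.P0c8ca5C.RelCard
import Pool.Agent.Lib.P0c8ca5N.WInv

/-!
# Module TopW: the weight sum of the whole group

PROOF of `wDG_eq` (fixed `T ∈ Supp p G Γ`, `R = T ⊓ G`).  `exists_F` gives `F` with the properties `hF1` - `hF4`
for `Q = T`.  As in the proof of `card_rel'` (P0c8ca5C.RelCard; `N := Γ`, `H := X`) `F` is a bijection from
`{φ | (IsDZ p (sec G R) φ ∧ φ * proj R e = φ) ∧ Rel p G Γ R φ T}` onto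
`{g | IsDZ p (sec G T) g ∧ g * proj T e = g ∧ ∀ x ∈ sec Γ T, cj x g = g → x ∈ sec G T}`, and
`sec X T ⊓ cst (F φ) = sec (X ⊓ st R φ) T`.  `sum_reg` for `sec G T ≤ sec Γ T ≤ sec X T` in `NQ T` and
`ε = proj T e`.

PROOF of `top_w`.  For `x = (R, φ)` with `Γ ≤ G ⊔ st R φ`: `sum_relM hh` writes `|X ⊓ st R φ|` as the sum of
`|(X ⊓ st R φ) ⊓ N(T)|` over the `T` with `Rel p G Γ R φ T`; these `T` are in `Supp p G Γ`.  Conversely if
`Rel p G Γ R φ T` and `T ∈ Supp p G Γ` then `Γ = G ⊔ T ≤ G ⊔ st R φ`.  Exchange the sums and use `wDG_eq`.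
-/

namespace Pool.Agent.Lib.P0c8ca5.Hy

open MonoidAlgebra Cy

variable {p : ℕ} {k : Type*} [Field k] {A : Type*} [Group A] [Fintype A]

omit [Fintype A] in
theorem sec_st (X T : Subgroup A) (f : MonoidAlgebra k (NQ T)) :
    sec X T ⊓ cst f = sec (X ⊓ st T f) T := by
  apply le_antisymm
  · intro w hw
    obtain ⟨hw1, hw2⟩ := Subgroup.mem_inf.1 hw
    obtain ⟨h, hh', hhQ, rfl⟩ := mem_sec.1 hw1
    exact qm_mem_sec hhQ ⟨hh', hhQ, mem_cst.1 hw2⟩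
  · intro w hw
    obtain ⟨h, hh', hhQ, rfl⟩ := mem_sec.1 hw
    obtain ⟨hhH, hhR, hhφ⟩ := hh'
    exact Subgroup.mem_inf.2 ⟨qm_mem_sec hhQ hhH, mem_cst.2 hhφ⟩

theorem card_st {X T : Subgroup A} (hTX : T ≤ X) (f : MonoidAlgebra k (NQ T)) :
    Nat.card ↥(X ⊓ st T f) = Nat.card ↥(sec X T ⊓ cst f) * Nat.card T := by
  rw [sec_st, card_sec (le_inf hTX R_le_st)]
  rw [inf_of_le_left (inf_le_right.trans st_le :
    X ⊓ st T f ≤ Subgroup.normalizer (T : Set A))]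

theorem wDG_eq [Fact p.Prime] [CharP k p] [IsAlgClosed k] {G Γ X R T : Subgroup A}
    [hG : G.Normal] (hh : HypExt p G Γ X) (hT : T ∈ Supp p G Γ) (hTR : T ⊓ G = R)
    {e : MonoidAlgebra k A} (he : SuppIn G e) (hinv : InvBy ⊤ e) (hee : e * e = e)
    (S : Finset (MonoidAlgebra k (NQ R)))
    (hS : ∀ φ, φ ∈ S ↔ (IsDZ p (sec G R) φ ∧ φ * proj R e = φ) ∧ Rel p G Γ R φ T) :
    wDG p Γ (X ⊓ Subgroup.normalizer (T : Set A)) T T e
      = ∑ φ ∈ S, Nat.card ↥((X ⊓ st R φ) ⊓ Subgroup.normalizer (T : Set A)) := by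
  classical
  have : Fintype (NQ R) := Fintype.ofFinite _
  have : Fintype (NQ T) := Fintype.ofFinite _
  have hQ : IsPGroup p T := hT.2.1
  have hQN : T ≤ Γ := hT.1
  obtain ⟨F, hF1, hF2, hF3, hF4⟩ := exists_F (k := k) hTR hQ he hinv hee
  have hR : IsPGroup p R := hQ.to_le (R_le_Q hTR)
  have hRC : R ≤ G := R_le_G hTR
  have hQnR := le_normalizer_of_inf hTR
  have hQH : T ≤ X := hQN.trans hh.ext.NH
  have hinj : Set.InjOn F (S : Set (MonoidAlgebra k (NQ R))) := by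
    intro φ hφ φ' hφ' h
    obtain ⟨⟨h1, _⟩, h3⟩ := (hS φ).1 hφ
    obtain ⟨⟨h1', _⟩, h3'⟩ := (hS φ').1 hφ'
    exact hF2 φ φ' h1 (invBy_st (h3.le.trans inf_le_right)) h3.br h1'
        (invBy_st (h3'.le.trans inf_le_right)) h
  have key : ∀ φ, IsDZ p (sec G R) φ → Rel p G Γ R φ T → ∀ h (_ : h ∈ Subgroup.normalizer (R : Set A))
      (hhQ : h ∈ Subgroup.normalizer (T : Set A)), cj (qm T h hhQ) (F φ) = F φ → h ∈ st R φ := by
    intro φ h1 h3 h hhR hhQ hwf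
    have hinv : InvBy (sec T R) φ := invBy_st (h3.le.trans inf_le_right)
    rw [← hF4 h hhR hhQ] at hwf
    have h6 : IsDZ p (sec G R) (cj (qm R h hhR) φ) := by
      have := isDZ_cg h1 (qm R h hhR)
      rwa [cg_of_mem_normalizer (sec_normal G R _)] at this
    have h7 : InvBy (sec T R) (cj (qm R h hhR) φ) :=
      hinv.cj (mem_normalizer_sec_of hhQ hhR)
    have h8 := hF2 φ _ h1 hinv h3.br h6 h7 hwf.symm
    exact ⟨hhR, h8.symm⟩
  have hS' : ∀ g, g ∈ S.image F ↔ IsDZ p (sec G T) g ∧ g * proj T e = g ∧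
      ∀ x ∈ sec Γ T, cj x g = g → x ∈ sec G T := by
    intro g
    rw [Finset.mem_image]
    constructor
    · rintro ⟨φ, hφ, rfl⟩
      obtain ⟨⟨h1, h2⟩, h3⟩ := (hS φ).1 hφ
      have hinv : InvBy (sec T R) φ := invBy_st (h3.le.trans inf_le_right)
      obtain ⟨h4, h5⟩ := hF1 φ h1 hinv h3.br
      refine ⟨h4, h5.1 h2, ?_⟩
      intro w hw hwf
      obtain ⟨h, hh', hhQ, rfl⟩ := mem_sec.1 hw
      have hhR := normalizer_le_of_inf hTR hhQ
      have h9 : h ∈ (Γ ⊓ st R φ) ⊓ Subgroup.normalizer (T : Set A) :=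
        ⟨⟨hh', key φ h1 h3 h hhR hhQ hwf⟩, hhQ⟩
      rw [h3.norm, mem_GNQ_sup] at h9
      obtain ⟨l, hl, q, hq, rfl⟩ := h9
      have h10 : qm T (l * q) hhQ = qm T l hl.2 := by
        rw [qm_eq_iff]
        have e1 : (l * q)⁻¹ * l = q⁻¹ := by group
        rw [e1]; exact T.inv_mem hq
      rw [h10]
      exact qm_mem_sec _ hl.1
    · rintro ⟨h1, h2, h3⟩
      obtain ⟨φ, h4, h5, h6, rfl⟩ := hF3 g h1
      obtain ⟨P, g1, g2, g3, g4, g5, g6⟩ := exists_P' hh.CN hh.pgrp hR hRC h4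
      have hP : Rel p G Γ R φ P := ⟨g2, g3, g1, g4, g5⟩
      have hQst : T ≤ Γ ⊓ st R φ := le_inf hQN ((le_st_iff hQnR).2 h5)
      refine ⟨φ, (hS φ).2 ⟨⟨h4, ((hF1 φ h4 h5 h6).2).2 h2⟩, ?_⟩, rfl⟩
      apply rel_of_norm hP g6 hQ hTR hQst h6
      rintro x hx
      obtain ⟨hx1, hxQ⟩ := Subgroup.mem_inf.1 hx
      obtain ⟨hxH, hxR, hxφ⟩ := hx1
      have h7 := h3 (qm T x hxQ) (qm_mem_sec _ hxH) (by rw [← hF4 x hxR hxQ, hxφ])
      obtain ⟨y, hy, hy', h8⟩ := mem_sec.1 h7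
      rw [qm_eq_iff] at h8
      rw [mem_GNQ_sup]
      refine ⟨y, ⟨hy, hy'⟩, (x⁻¹ * y)⁻¹, T.inv_mem h8, ?_⟩
      group
  have hi : ∀ φ ∈ S, sec X T ⊓ cst (F φ) = sec (X ⊓ st R φ) T := by
    intro φ hφ
    obtain ⟨⟨h1, _⟩, h3⟩ := (hS φ).1 hφ
    apply le_antisymm
    · intro w hw
      obtain ⟨hw1, hw2⟩ := Subgroup.mem_inf.1 hw
      obtain ⟨h, hh', hhQ, rfl⟩ := mem_sec.1 hw1
      have hhR := normalizer_le_of_inf hTR hhQ
      exact qm_mem_sec hhQ ⟨hh', key φ h1 h3 h hhR hhQ (mem_cst.1 hw2)⟩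
    · intro w hw
      obtain ⟨h, hh', hhQ, rfl⟩ := mem_sec.1 hw
      obtain ⟨hhH, hhR, hhφ⟩ := hh'
      refine Subgroup.mem_inf.2 ⟨qm_mem_sec hhQ hhH, ?_⟩
      rw [mem_cst, ← hF4 h hhR hhQ, hhφ]
  -- the right side
  have hR1 : ∀ φ ∈ S, Nat.card ↥((X ⊓ st R φ) ⊓ Subgroup.normalizer (T : Set A))
      = Nat.card ↥(sec X T ⊓ cst (F φ)) * Nat.card T := by
    intro φ hφ
    obtain ⟨_, h3⟩ := (hS φ).1 hφ
    rw [hi φ hφ, card_sec (le_inf hQH (h3.le.trans inf_le_right))]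
  rw [Finset.sum_congr rfl hR1, ← Finset.sum_mul,
    ← Finset.sum_image (f := fun g => Nat.card ↥(sec X T ⊓ cst g)) hinj]
  -- the left side
  have hfin : {f : MonoidAlgebra k (NQ T) | IsDZ p (sec Γ T) f ∧ f * proj T e = f}.Finite :=
    finite_dz Γ T e
  have hsec : sec (Γ ⊓ (X ⊓ Subgroup.normalizer (T : Set A))) T = sec Γ T := by
    rw [← inf_assoc, inf_of_le_left hh.ext.NH, sec_inf_normalizer]
  have hL : wDG p Γ (X ⊓ Subgroup.normalizer (T : Set A)) T T e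
      = ∑ f ∈ hfin.toFinset, Nat.card ↥(sec X T ⊓ cst f) * Nat.card T := by
    rw [← fsum_eq (fun f : MonoidAlgebra k (NQ T) => IsDZ p (sec Γ T) f ∧ f * proj T e = f)
      hfin.toFinset (fun φ => by rw [Set.Finite.mem_toFinset]; rfl)]
    unfold wDG
    refine fsum_congr (fun φ => ?_) (fun φ _ => ?_)
    · rw [hsec, proj_cS hQ (hinv.mono le_top)]
    · rw [← card_st hQH, inf_assoc,
        inf_of_le_right (st_le : st T φ ≤ Subgroup.normalizer (T : Set A))]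
  rw [hL, ← Finset.sum_mul]
  congr 1
  symm
  exact sum_reg (sec_mono hh.CN) (sec_mono hh.ext.NH) (sec_le_normalizer G T X)
    (HypAux.sec_norm hh.ext.hN T) (hh.sec T).pgrp ((proj_invBy hinv T).mono le_top) _ _ hS'
    (fun f => by rw [Set.Finite.mem_toFinset]; rfl)

open Classical in
theorem top_w [Fact p.Prime] [CharP k p] [IsAlgClosed k] {G Γ X : Subgroup A}
    [hG : G.Normal] (hh : HypExt p G Γ X) {e : MonoidAlgebra k A} (he : SuppIn G e)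
    (hinv : InvBy ⊤ e) (hee : e * e = e) [Fintype (PT p G e)] (D : Finset (Subgroup A))
    (hD : ∀ T, T ∈ D ↔ T ∈ Supp p G Γ) :
    ∑ T ∈ D, wDG p Γ (X ⊓ Subgroup.normalizer (T : Set A)) T T e
      = ∑ x : PT p G e, if Γ ≤ G ⊔ stP p G e x then Nat.card ↥(X ⊓ stP p G e x) else 0 := by
  have : Fintype (Subgroup A) := Fintype.ofFinite _
  let D' : Finset (Subgroup A) := Finset.univ.filter (fun R => R ≤ G ∧ IsPGroup p R)
  have hD' : ∀ R, R ∈ D' ↔ R ≤ G ∧ IsPGroup p R := by intro R; simp [D']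
  have h1 : (∑ x : PT p G e, if Γ ≤ G ⊔ stP p G e x then Nat.card ↥(X ⊓ stP p G e x) else 0)
      = ∑ R ∈ D', ∑ᶠ (φ : MonoidAlgebra k (NQ R)) (_ : IsDZ p (sec G R) φ ∧ φ * proj R e = φ),
          if Γ ≤ G ⊔ st R φ then Nat.card ↥(X ⊓ st R φ) else 0 :=
    sum_PT (fun R φ => if Γ ≤ G ⊔ st R φ then Nat.card ↥(X ⊓ st R φ) else 0) D' hD'
  rw [h1]
  have h2 : ∀ R ∈ D', (∑ᶠ (φ : MonoidAlgebra k (NQ R))
        (_ : IsDZ p (sec G R) φ ∧ φ * proj R e = φ),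
          if Γ ≤ G ⊔ st R φ then Nat.card ↥(X ⊓ st R φ) else 0)
      = ∑ T ∈ D, ∑ φ ∈ (finite_dz G R e).toFinset, if Rel p G Γ R φ T then
          Nat.card ↥((X ⊓ st R φ) ⊓ Subgroup.normalizer (T : Set A)) else 0 := by
    intro R hR
    obtain ⟨hRG, hpR⟩ := (hD' R).1 hR
    rw [fsum_eq _ (finite_dz G R e).toFinset (fun φ => by rw [Set.Finite.mem_toFinset]; rfl),
      Finset.sum_comm]
    refine Finset.sum_congr rfl fun φ hφ => ?_
    rw [Set.Finite.mem_toFinset] at hφ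
    obtain ⟨hφ1, hφ2⟩ := hφ
    by_cases hΓ : Γ ≤ G ⊔ st R φ
    · rw [if_pos hΓ, ← Finset.sum_filter]
      symm
      refine sum_relM hh hpR hRG hφ1 _ (fun T => ?_)
      rw [Finset.mem_filter, hD]
      constructor
      · exact fun h => h.2
      · intro h
        refine ⟨⟨h.le.trans inf_le_left, h.pgrp, ?_⟩, h⟩
        apply le_antisymm (sup_le hh.CN (h.le.trans inf_le_left))
        intro x hx
        obtain ⟨g, hg, s, hs, rfl⟩ := Subgroup.mem_sup_of_normal_left.1 (hΓ hx)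
        have hsΓ : s ∈ Γ := by
          have := Γ.mul_mem (Γ.inv_mem (hh.CN hg)) hx
          rwa [inv_mul_cancel_left] at this
        have h3 : s ∈ Γ ⊓ st R φ := ⟨hsΓ, hs⟩
        rw [← h.sup] at h3
        exact Subgroup.mul_mem _ (Subgroup.mem_sup_left hg)
          ((sup_le_sup_right inf_le_left T : (G ⊓ Subgroup.normalizer (R : Set A)) ⊔ T ≤ G ⊔ T) h3)
    · rw [if_neg hΓ]
      symm
      refine Finset.sum_eq_zero fun T hT => if_neg fun h => hΓ ?_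
      rw [← ((hD T).1 hT).2.2]
      exact sup_le_sup_left (h.le.trans inf_le_right) G
  rw [Finset.sum_congr rfl h2, Finset.sum_comm]
  refine Finset.sum_congr rfl fun T hT => ?_
  have hTS := (hD T).1 hT
  have hTG : T ⊓ G ∈ D' := (hD' _).2 ⟨inf_le_right, hTS.2.1.to_le inf_le_left⟩
  rw [Finset.sum_eq_single_of_mem (T ⊓ G) hTG]
  · rw [← Finset.sum_filter]
    refine wDG_eq hh hTS rfl he hinv hee _ (fun φ => ?_)
    rw [Finset.mem_filter, Set.Finite.mem_toFinset]; rfl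
  · intro R _ hR
    refine Finset.sum_eq_zero fun φ _ => if_neg fun h => hR h.inf.symm

end Pool.Agent.Lib.P0c8ca5.Hy
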