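import Mathlib
import Pool.Agent.Lib.P0c8ca5E.PhiInv
import Pool.Agent.Lib.P0c8ca5E.OrbI
import Pool.Agent.Lib.P0c8ca5E.TopW
import Pool.Agent.Lib.P0c8ca5E.LocW
import Pool.Agent.Lib.P0c8ca5N.Gap
import Pool.Agent.Lib.P0c8ca5C.HOne
import Pool.Agent.Lib.P0c8ca5C.HTwo

/-!
# Module LocA: the local sums for `K`, `N = K Q`, and a complement modulo `N`

`K`, `N`, `Q` are normal in `A`, `Q` is a p-group, `K Q = N` and `A / N` is cyclic of order prime to `p`.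
PROOF of `exists_H0`: `t` a generator modulo `N`, `H₀ = K ⊔ zpowers (pr p t)`.
PROOF of `le_st_norm`: `K ⊓ Q ≤ R` by `radical`, and `[Q, K] ≤ K ⊓ Q`.
PROOF of `card_st_H0`: `A = H₀ Q` and `Q ≤ S`, `card_sup_mul` twice.
-/

namespace Pool.Agent.Lib.P0c8ca5.Hy

open MonoidAlgebra Cy

variable {p : ℕ} {k : Type*} [Field k] {A : Type*} [Group A] [Fintype A]

theorem exists_H0 [Fact p.Prime] {K N : Subgroup A} [hK : K.Normal] [hN : N.Normal]
    (hh : HypExt p K N ⊤) :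
    ∃ H₀ : Subgroup A, K ≤ H₀ ∧ N ⊓ H₀ = K ∧ N ⊔ H₀ = ⊤ := by
  obtain ⟨t, -, ht⟩ := hh.ext.cyc
  refine ⟨K ⊔ Subgroup.zpowers (pr p t), le_sup_left, ?_, ?_⟩
  · apply le_antisymm
    · rintro x ⟨hxN, hx⟩
      obtain ⟨l, hl, s, hs, rfl⟩ := Subgroup.mem_sup_of_normal_left.1 hx
      refine K.mul_mem hl ?_
      have hsN : s ∈ N := by
        have := N.mul_mem (N.inv_mem (hh.CN hl)) hxN
        rwa [inv_mul_cancel_left] at this
      have hsp : Preg p s := by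
        intro h
        exact preg_pr t (h.trans (orderOf_dvd_of_mem_zpowers hs))
      obtain ⟨n, hn⟩ := hh.pgrp s hsN
      exact mem_of_preg hsp hn
    · exact le_inf hh.CN le_sup_left
  · rw [eq_top_iff, ← ht]
    refine sup_le le_sup_left ?_
    rw [Subgroup.zpowers_le]
    have h1 : t * (pr p t)⁻¹ ∈ N := by
      obtain ⟨n, hn⟩ := exists_pow_mul_inv_pr (p := p) t
      have hP : IsPGroup p (Subgroup.zpowers (t * (pr p t)⁻¹)) := by
        rintro ⟨y, hy⟩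
        refine ⟨n, ?_⟩
        obtain ⟨i, rfl⟩ := Subgroup.mem_zpowers_iff.1 hy
        apply Subtype.ext
        change ((t * (pr p t)⁻¹) ^ i) ^ p ^ n = 1
        rw [← zpow_natCast, ← zpow_mul, mul_comm, zpow_mul, zpow_natCast, hn, one_zpow]
      exact hh.ext.le_of_pGroup le_top hP (Subgroup.mem_zpowers _)
    have h2 : (t * (pr p t)⁻¹) * pr p t = t := by group
    have h3 : (t * (pr p t)⁻¹) * pr p t ∈ N ⊔ (K ⊔ Subgroup.zpowers (pr p t)) :=
      Subgroup.mul_mem _ (Subgroup.mem_sup_left h1) (Subgroup.mem_sup_right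
        (Subgroup.mem_sup_right (Subgroup.mem_zpowers _)))
    rwa [h2] at h3

theorem le_st_norm [Fact p.Prime] [CharP k p] {K Q R : Subgroup A} [hK : K.Normal] [hQn : Q.Normal]
    (hQ : IsPGroup p Q) (hR : R ≤ K) (hpR : IsPGroup p R) {φ : MonoidAlgebra k (NQ R)}
    (hφ : IsDZ p (sec K R) φ) : Q ≤ st R φ := by
  have h1 : K ⊓ Q ≤ R := radical inf_le_left
    (CopB46.normalizer_inf Subgroup.le_normalizer (fun x _ => mem_norm_of_normal Q x))
    (hQ.to_le inf_le_right) hR hpR hφ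
  have h2 : ∀ q ∈ Q, ∀ y ∈ K, y⁻¹ * (q * y * q⁻¹) ∈ R := by
    intro q hq y hy
    refine h1 ⟨K.mul_mem (K.inv_mem hy) (hK.conj_mem y hy q), ?_⟩
    have e : y⁻¹ * (q * y * q⁻¹) = (y⁻¹ * q * y⁻¹⁻¹) * q⁻¹ := by group
    rw [e]
    exact Q.mul_mem (hQn.conj_mem q hq y⁻¹) (Q.inv_mem hq)
  have h3 : ∀ q ∈ Q, ∀ r ∈ R, q * r * q⁻¹ ∈ R := by
    intro q hq r hr
    have := R.mul_mem hr (h2 q hq r (hR hr))
    rwa [mul_inv_cancel_left] at this
  intro q hq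
  have hqR : q ∈ Subgroup.normalizer (R : Set A) := by
    rw [Subgroup.mem_normalizer_iff]
    intro r
    refine ⟨h3 q hq r, fun h => ?_⟩
    have := h3 q⁻¹ (Q.inv_mem hq) _ h
    have e : q⁻¹ * (q * r * q⁻¹) * q⁻¹⁻¹ = r := by group
    rwa [e] at this
  refine ⟨hqR, ?_⟩
  ext w
  rw [coeff_cj]
  by_cases hw : w ∈ sec K R
  · obtain ⟨y, hy, hyR, rfl⟩ := mem_sec.1 hw
    congr 1
    have e1 : (qm R q hqR)⁻¹ * qm R y hyR * qm R q hqR
        = qm R (q⁻¹ * y * q) ((Subgroup.normalizer (R : Set A)).mul_mem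
          ((Subgroup.normalizer (R : Set A)).mul_mem
            ((Subgroup.normalizer (R : Set A)).inv_mem hqR) hyR) hqR) := rfl
    rw [e1, qm_eq_iff]
    have h4 := h2 q⁻¹ (Q.inv_mem hq) y hy
    have h5 := R.inv_mem h4
    have e2 : (q⁻¹ * y * q)⁻¹ * y = (y⁻¹ * (q⁻¹ * y * q⁻¹⁻¹))⁻¹ := by group
    rw [e2]
    exact h5
  · have h6 : ∀ v, v ∉ sec K R → φ.coeff v = 0 := by
      intro v hv
      by_contra h
      exact hv (hφ.blk.suppIn v h)
    rw [h6 w hw, h6]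
    intro h
    apply hw
    have hn : qm R q hqR ∈ Subgroup.normalizer ((sec K R : Subgroup (NQ R)) : Set (NQ R)) :=
      sec_normal K R _
    rw [Subgroup.mem_normalizer_iff] at hn
    have := (hn _).1 h
    have e : qm R q hqR * ((qm R q hqR)⁻¹ * w * qm R q hqR) * (qm R q hqR)⁻¹ = w := by group
    rwa [e] at this

theorem card_st_H0 {K N H₀ Q S : Subgroup A} [hQn : Q.Normal] [hK : K.Normal] (hKQ : K ⊔ Q = N)
    (hKH : K ≤ H₀) (htop : N ⊔ H₀ = ⊤) (hQS : Q ≤ S) :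
    Nat.card H₀ * Nat.card S = Nat.card A * Nat.card ↥(H₀ ⊓ S) := by
  have h0 : Q ⊔ H₀ = ⊤ := by
    rw [eq_top_iff, ← htop, ← hKQ]
    exact sup_le (sup_le (hKH.trans le_sup_right) le_sup_left) le_sup_right
  have h1 := card_sup_mul (L := Q) (D := H₀) (fun x _ => mem_norm_of_normal Q x)
  rw [h0, Subgroup.card_top] at h1
  have h2 := card_sup_mul (L := Q) (D := H₀ ⊓ S) (fun x _ => mem_norm_of_normal Q x)
  have h3 : Q ⊔ (H₀ ⊓ S) = S := by
    apply le_antisymm (sup_le hQS inf_le_right)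
    intro x hx
    have hx' : x ∈ Q ⊔ H₀ := by rw [h0]; exact Subgroup.mem_top x
    obtain ⟨q, hq, h, hh, rfl⟩ := Subgroup.mem_sup_of_normal_left.1 hx'
    refine Subgroup.mul_mem_sup hq ⟨hh, ?_⟩
    have := S.mul_mem (S.inv_mem (hQS hq)) hx
    rwa [inv_mul_cancel_left] at this
  have h4 : Q ⊓ (H₀ ⊓ S) = Q ⊓ H₀ := by
    rw [inf_comm H₀ S, ← inf_assoc, inf_of_le_left hQS]
  rw [h3, h4] at h2
  have hpos : 0 < Nat.card ↥(Q ⊓ H₀) := Nat.card_pos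
  apply Nat.eq_of_mul_eq_mul_left hpos
  calc Nat.card ↥(Q ⊓ H₀) * (Nat.card H₀ * Nat.card S)
      = (Nat.card S * Nat.card ↥(Q ⊓ H₀)) * Nat.card H₀ := by ring
    _ = (Nat.card Q * Nat.card ↥(H₀ ⊓ S)) * Nat.card H₀ := by rw [h2]
    _ = (Nat.card Q * Nat.card H₀) * Nat.card ↥(H₀ ⊓ S) := by ring
    _ = (Nat.card A * Nat.card ↥(Q ⊓ H₀)) * Nat.card ↥(H₀ ⊓ S) := by rw [h1]
    _ = _ := by ring

end Pool.Agent.Lib.P0c8ca5.Hy
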