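import Mathlib
import Pool.Agent.Lib.P0c8ca5E.PTsum
import Pool.Agent.Lib.P0c8ca5C.TrW

/-!
# Module TrS: subgroups of `↥H`, passing between `↥H` and `A`

`K' ≤ ↥H`, `K = K'.map H.subtype`.  As P0c8ca5N.TrB for `K'` in place of `⊤`.
-/

namespace Pool.Agent.Lib.P0c8ca5.Hy

open MonoidAlgebra Cy TrBAux TrAAux

variable {p : ℕ} {k : Type*} [Field k] {A : Type*} [Group A]

theorem exists_iso_secK {H : Subgroup A} (K' Q' : Subgroup ↥H) :
    ∃ ψ : ↥(sec K' Q') ≃* ↥(sec (K'.map H.subtype) (Q'.map H.subtype)),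
      ∀ (n : ↥H) (_ : n ∈ K') (hn : n ∈ Subgroup.normalizer (Q' : Set ↥H)) (c : ↥(sec K' Q')),
        (c : NQ Q') = qm Q' n hn →
          ((ψ c : ↥(sec (K'.map H.subtype) (Q'.map H.subtype))) : NQ (Q'.map H.subtype))
            = qm (Q'.map H.subtype) n (mem_norm.2 hn) := by
  let φ : ↥(K' ⊓ Subgroup.normalizer (Q' : Set ↥H)) →*
      ↥(Subgroup.normalizer ((Q'.map H.subtype : Subgroup A) : Set A)) :=
    { toFun := fun x => ⟨((x : ↥H) : A), mem_norm.2 (Subgroup.mem_inf.1 x.2).2⟩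
      map_one' := rfl
      map_mul' := fun _ _ => rfl }
  let α : ↥(K' ⊓ Subgroup.normalizer (Q' : Set ↥H)) →* NQ Q' :=
    (QuotientGroup.mk' _).comp (Subgroup.inclusion inf_le_right)
  let β : ↥(K' ⊓ Subgroup.normalizer (Q' : Set ↥H)) →* NQ (Q'.map H.subtype) :=
    (QuotientGroup.mk' _).comp φ
  have hα : ∀ x, α x = qm Q' x (Subgroup.mem_inf.1 x.2).2 := fun x => rfl
  have hβ : ∀ x, β x = qm (Q'.map H.subtype) ((x : ↥H) : A)
    (mem_norm.2 (Subgroup.mem_inf.1 x.2).2) := fun x => rfl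
  obtain ⟨ψ, hψ⟩ := exists_iso_of_ker (C₁ := sec K' Q')
    (C₂ := sec (K'.map H.subtype) (Q'.map H.subtype)) α β
    (fun x => by
      rw [hα, hβ, qm_eq_one_iff, qm_eq_one_iff, mem_up])
    (by
      ext w
      rw [MonoidHom.mem_range, mem_sec]
      constructor
      · rintro ⟨x, rfl⟩
        exact ⟨x, (Subgroup.mem_inf.1 x.2).1, (Subgroup.mem_inf.1 x.2).2, rfl⟩
      · rintro ⟨g, hg, hg', rfl⟩
        exact ⟨⟨g, Subgroup.mem_inf.2 ⟨hg, hg'⟩⟩, rfl⟩)
    (by
      ext w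
      rw [MonoidHom.mem_range, mem_sec]
      constructor
      · rintro ⟨x, rfl⟩
        exact ⟨((x : ↥H) : A), mem_up.2 (Subgroup.mem_inf.1 x.2).1,
          mem_norm.2 (Subgroup.mem_inf.1 x.2).2, rfl⟩
      · rintro ⟨g, hg, hg', rfl⟩
        obtain ⟨x, hx, rfl⟩ := hg
        exact ⟨⟨x, Subgroup.mem_inf.2 ⟨hx, mem_norm.1 hg'⟩⟩, rfl⟩)
  exact ⟨ψ, fun n hnK hn c hc => hψ ⟨n, Subgroup.mem_inf.2 ⟨hnK, hn⟩⟩ c hc⟩

theorem tr_projK [Fintype A] {H : Subgroup A} {K' : Subgroup ↥H} {b : MonoidAlgebra k A}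
    (hb : SuppIn (K'.map H.subtype) b) (Q' : Subgroup ↥H)
    {ψ : ↥(sec K' Q') ≃* ↥(sec (K'.map H.subtype) (Q'.map H.subtype))}
    (hψ : ∀ (n : ↥H) (_ : n ∈ K') (hn : n ∈ Subgroup.normalizer (Q' : Set ↥H))
        (c : ↥(sec K' Q')),
        (c : NQ Q') = qm Q' n hn →
          ((ψ c : ↥(sec (K'.map H.subtype) (Q'.map H.subtype))) : NQ (Q'.map H.subtype))
            = qm (Q'.map H.subtype) n (mem_norm.2 hn)) :
    tr ψ (proj Q' (dn H b)) = proj (Q'.map H.subtype) b := by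
  classical
  have : Fintype ↥H := Fintype.ofFinite _
  ext y
  by_cases hy : y ∈ sec (K'.map H.subtype) (Q'.map H.subtype)
  · obtain ⟨g, hg, hg', rfl⟩ := mem_sec.1 hy
    obtain ⟨g, hgK, rfl⟩ := hg
    have hx : g ∈ Subgroup.normalizer (Q' : Set ↥H) := mem_norm.1 hg'
    have h2 := hψ g hgK hx ⟨qm Q' g hx, qm_mem_sec _ hgK⟩ rfl
    have h3 : qm (Q'.map H.subtype) (H.subtype g) hg' = qm (Q'.map H.subtype) (g : A)
      (mem_norm.2 hx) := rfl
    rw [h3, ← h2, coeff_tr, h2, coeff_proj, coeff_proj]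
    refine Fintype.sum_of_injective (fun z : ↥H => (z : A)) Subtype.val_injective _ _ ?_ ?_
    · intro z hz
      have hzH : z ∉ H := fun h => hz ⟨⟨z, h⟩, rfl⟩
      have : b.coeff z = 0 := by
        by_contra h; exact hzH (up_le (hb z h))
      rw [this]; simp
    · intro z
      have e1 : (g : A)⁻¹ * (z : A) = ((g⁻¹ * z : ↥H) : A) := rfl
      rw [e1]
      simp only [mem_up, coeff_dn]
  · rw [coeff_tr_of_notMem _ _ hy]
    by_contra h
    exact hy (proj_suppIn hb _ y (Ne.symm h))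

theorem dn_suppK {H : Subgroup A} {K' : Subgroup ↥H} {b : MonoidAlgebra k A}
    (hb : SuppIn (K'.map H.subtype) b) : SuppIn K' (dn H b) := by
  intro x hx
  rw [coeff_dn] at hx
  exact mem_up.1 (hb _ hx)

theorem cj_suppIn {C : Subgroup A} {g : A} (hg : g ∈ Subgroup.normalizer (C : Set A))
    {a : MonoidAlgebra k A} (ha : SuppIn C a) : SuppIn C (cj g a) := by
  intro x hx
  rw [coeff_cj] at hx
  have h1 := ha _ hx
  rw [Subgroup.mem_normalizer_iff.1 hg] at h1
  have e1 : g * (g⁻¹ * x * g) * g⁻¹ = x := by group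
  rwa [e1] at h1

/-- the two sets of blocks of defect zero, and the stabilizers -/
theorem exists_dzK [Fintype A] {H : Subgroup A} {K' : Subgroup ↥H} {b : MonoidAlgebra k A}
    (hb : SuppIn (K'.map H.subtype) b) (Q' : Subgroup ↥H) :
    ∃ E : {f : MonoidAlgebra k (NQ Q') // IsDZ p (sec K' Q') f ∧ f * proj Q' (dn H b) = f} ≃
        {f : MonoidAlgebra k (NQ (Q'.map H.subtype)) //
          IsDZ p (sec (K'.map H.subtype) (Q'.map H.subtype)) f ∧
            f * proj (Q'.map H.subtype) b = f},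
      ∀ f, ∀ n : ↥H, n ∈ Subgroup.normalizer (K' : Set ↥H) →
        (n ∈ st Q' f.1 ↔ (n : A) ∈ st (Q'.map H.subtype) (E f).1) := by
  have : Fintype ↥H := Fintype.ofFinite _
  obtain ⟨ψ, hψ⟩ := exists_iso_secK K' Q'
  have htr := tr_projK hb Q' hψ
  have hs1 : SuppIn (sec K' Q') (proj Q' (dn H b)) := proj_suppIn (dn_suppK hb) _
  have hs2 : SuppIn (sec (K'.map H.subtype) (Q'.map H.subtype)) (proj (Q'.map H.subtype) b) :=
    proj_suppIn hb _
  have htr' : tr ψ.symm (proj (Q'.map H.subtype) b) = proj Q' (dn H b) := by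
    rw [← htr, tr_symm_tr ψ hs1]
  refine ⟨
    { toFun := fun f => ⟨tr ψ f.1, tr_isDZ ψ f.2.1, ?_⟩
      invFun := fun f => ⟨tr ψ.symm f.1, tr_isDZ ψ.symm f.2.1, ?_⟩
      left_inv := ?_
      right_inv := ?_ }, ?_⟩
  · rw [← htr, ← tr_mul ψ f.2.1.blk.suppIn hs1, f.2.2]
  · rw [← htr', ← tr_mul ψ.symm f.2.1.blk.suppIn hs2, f.2.2]
  · intro f
    exact Subtype.ext (tr_symm_tr ψ f.2.1.blk.suppIn)
  · intro f
    exact Subtype.ext (tr_tr_symm ψ f.2.1.blk.suppIn)
  · intro f n hnK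
    change n ∈ st Q' f.1 ↔ (n : A) ∈ st (Q'.map H.subtype) (tr ψ f.1)
    have key : ∀ hn : n ∈ Subgroup.normalizer (Q' : Set ↥H),
        tr ψ (cj (qm Q' n hn) f.1) = cj (qm (Q'.map H.subtype) n (mem_norm.2 hn)) (tr ψ f.1) := by
      intro hn
      apply tr_cj ψ (mem_normalizer_sec_of hnK hn)
        (mem_normalizer_sec_of (mem_norm.2 hnK) (mem_norm.2 hn))
      intro c c' hc'
      obtain ⟨m, hm, hm', hc⟩ := mem_sec.1 c.2
      have h1 := hψ m hm hm' c hc
      have h2 := hψ (n * m * n⁻¹) ((Subgroup.mem_normalizer_iff.1 hnK m).1 hm)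
        (Subgroup.mul_mem _ (Subgroup.mul_mem _ hn hm') (Subgroup.inv_mem _ hn)) c'
        (by rw [hc', hc]; rfl)
      rw [h1, h2]
      rfl
    constructor
    · rintro ⟨hn, h⟩
      refine ⟨mem_norm.2 hn, ?_⟩
      rw [← key hn, h]
    · rintro ⟨hn', h⟩
      have hn := mem_norm.1 hn'
      refine ⟨hn, ?_⟩
      apply tr_injOn ψ (cj_suppIn (mem_normalizer_sec_of hnK hn) f.2.1.blk.suppIn)
        f.2.1.blk.suppIn
      rw [key hn]
      exact h

theorem card_dzK [Fintype A] {H : Subgroup A} {K' : Subgroup ↥H} {b : MonoidAlgebra k A}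
    (hb : SuppIn (K'.map H.subtype) b) (Q' : Subgroup ↥H) :
    Nat.card {f : MonoidAlgebra k (NQ Q') | IsDZ p (sec K' Q') f ∧ f * proj Q' (dn H b) = f}
      = Nat.card {f : MonoidAlgebra k (NQ (Q'.map H.subtype)) |
          IsDZ p (sec (K'.map H.subtype) (Q'.map H.subtype)) f ∧
            f * proj (Q'.map H.subtype) b = f} := by
  obtain ⟨E, _⟩ := exists_dzK (p := p) hb Q'
  exact Nat.card_congr E

theorem card_normK {H : Subgroup A} (K' Q' : Subgroup ↥H) :
    Nat.card ↥(K' ⊓ Subgroup.normalizer (Q' : Set ↥H))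
      = Nat.card ↥(K'.map H.subtype ⊓
        Subgroup.normalizer ((Q'.map H.subtype : Subgroup A) : Set A)) := by
  let g : ↥(K' ⊓ Subgroup.normalizer (Q' : Set ↥H)) → ↥(K'.map H.subtype ⊓
        Subgroup.normalizer ((Q'.map H.subtype : Subgroup A) : Set A)) :=
    fun x => ⟨((x : ↥H) : A), Subgroup.mem_inf.2
        ⟨mem_up.2 (Subgroup.mem_inf.1 x.2).1, mem_norm.2 (Subgroup.mem_inf.1 x.2).2⟩⟩
  refine Nat.card_congr (Equiv.ofBijective g ⟨?_, ?_⟩)
  · intro x y h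
    have h1 : ((x : ↥H) : A) = ((y : ↥H) : A) := congrArg (fun z => (z.1 : A)) h
    exact Subtype.ext (Subtype.ext h1)
  · rintro ⟨y, hy⟩
    obtain ⟨⟨x, hx, rfl⟩, h2⟩ := Subgroup.mem_inf.1 hy
    exact ⟨⟨x, Subgroup.mem_inf.2 ⟨hx, mem_norm.1 h2⟩⟩, rfl⟩

/-- irreducible representations and isomorphisms -/
theorem card_irr_iso {A₁ A₂ : Type*} [Group A₁] [Group A₂] [Finite A₁] [Finite A₂]
    {C₁ : Subgroup A₁} {C₂ : Subgroup A₂} (ψ : C₁ ≃* C₂) {a₁ : MonoidAlgebra k A₁}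
    {a₂ : MonoidAlgebra k A₂} (h : ∀ x : C₁, a₂.coeff ((ψ x : C₂) : A₂) = a₁.coeff (x : A₁)) :
    Nat.card (IrX C₁ a₁) = Nat.card (IrX C₂ a₂) := by
  have hup : ∀ {V : Type _} [AddCommGroup V] [Module k V] (ρ : Representation k C₂ V),
      act (ρ.comp ψ.toMonoidHom : Representation k C₁ V) a₁ = act ρ a₂ := by
    intro V _ _ ρ
    have : Fintype C₁ := Fintype.ofFinite _
    have : Fintype C₂ := Fintype.ofFinite _
    apply LinearMap.ext
    intro v
    rw [act_apply, act_apply]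
    exact Fintype.sum_equiv ψ.toEquiv _ _ (fun x => by
      change a₁.coeff (x : A₁) • ρ (ψ x) v = a₂.coeff ((ψ x : C₂) : A₂) • ρ (ψ x) v
      rw [h])
  have hdown : ∀ {V : Type _} [AddCommGroup V] [Module k V] (ρ : Representation k C₁ V),
      act (ρ.comp ψ.symm.toMonoidHom : Representation k C₂ V) a₂ = act ρ a₁ := by
    intro V _ _ ρ
    have : Fintype C₁ := Fintype.ofFinite _
    have : Fintype C₂ := Fintype.ofFinite _
    apply LinearMap.ext
    intro v
    rw [act_apply, act_apply]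
    exact Fintype.sum_equiv ψ.symm.toEquiv _ _ (fun x => by
      change a₂.coeff (x : A₂) • ρ (ψ.symm x) v
        = a₁.coeff ((ψ.symm x : C₁) : A₁) • ρ (ψ.symm x) v
      rw [← h, MulEquiv.apply_symm_apply])
  apply Nat.card_congr
  refine
    { toFun := Quotient.map (fun σ => mkIrr (σ.ρ.comp ψ.symm.toMonoidHom :
          Representation k C₂ _) (irr_comp ψ.symm (irr_iff.1 σ.irr))
            (by rw [hdown]; exact act_iff.2 σ.blk)) ?_
      invFun := Quotient.map (fun σ => mkIrr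
          (σ.ρ.comp ψ.toMonoidHom : Representation k C₁ _)
          (irr_comp ψ (irr_iff.1 σ.irr)) (by rw [hup]; exact act_iff.2 σ.blk)) ?_
      left_inv := ?_
      right_inv := ?_ }
  · rintro σ σ' h
    obtain ⟨P, hP⟩ := iso_iff.2 h
    exact iso_iff.1 ⟨P, fun x v => hP (ψ.symm x) v⟩
  · rintro σ σ' h
    obtain ⟨P, hP⟩ := iso_iff.2 h
    exact iso_iff.1 ⟨P, fun x v => hP (ψ x) v⟩
  · intro x
    induction x using Quotient.inductionOn with
    | _ σ =>
      apply mk_eq_mk.2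
      refine ⟨LinearEquiv.refl k _, fun x v => ?_⟩
      change σ.ρ (ψ.symm (ψ x)) v = σ.ρ x v
      rw [MulEquiv.symm_apply_apply]
  · intro x
    induction x using Quotient.inductionOn with
    | _ σ =>
      apply mk_eq_mk.2
      refine ⟨LinearEquiv.refl k _, fun x v => ?_⟩
      change σ.ρ (ψ (ψ.symm x)) v = σ.ρ x v
      rw [MulEquiv.apply_symm_apply]

theorem weq_dnK [Fintype A] {H : Subgroup A} [Fintype ↥H] {K' : Subgroup ↥H}
    {c : MonoidAlgebra k A} (hc : SuppIn (K'.map H.subtype) c) :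
    WEq p K' (dn H c) ↔ WEq p (K'.map H.subtype) c := by
  classical
  let ψ : ↥K' ≃* ↥(K'.map H.subtype) := K'.equivMapOfInjective H.subtype H.subtype_injective
  have h1 : Nat.card (IrX K' (dn H c)) = Nat.card (IrX (K'.map H.subtype) c) :=
    card_irr_iso ψ (fun x => rfl)
  have h0 : Nat.card K' = Nat.card ↥(K'.map H.subtype) := Nat.card_congr ψ.toEquiv
  have h2 : Fr.Ws p K' (dn H c) = Fr.Ws p (K'.map H.subtype) c := by
    unfold Fr.Ws
    refine Finset.sum_bij (fun Q _ => Q.map H.subtype) ?_ ?_ ?_ ?_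
    · intro Q hQ
      rw [Finset.mem_filter] at hQ ⊢
      exact ⟨Finset.mem_univ _, Subgroup.map_mono hQ.2.1, hQ.2.2.map _⟩
    · intro Q _ Q' _ h
      exact Subgroup.map_injective H.subtype_injective h
    · intro Q hQ
      rw [Finset.mem_filter] at hQ
      have hQH : Q ≤ H := hQ.2.1.trans up_le
      refine ⟨Q.subgroupOf H, ?_, ?_⟩
      · rw [Finset.mem_filter]
        refine ⟨Finset.mem_univ _, ?_, hQ.2.2.comap_of_injective _ H.subtype_injective⟩
        intro x hx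
        exact mem_up.1 (hQ.2.1 (Subgroup.mem_subgroupOf.1 hx))
      · rw [Subgroup.subgroupOf_map_subtype]
        exact inf_eq_left.2 hQH
    · intro Q _
      rw [card_normK, card_dzK (p := p) hc Q]
  unfold WEq
  rw [h1, h2, h0]

/-- `Phi` and the passage to `↥H` -/
theorem phi_dnK [Fact p.Prime] [CharP k p] [IsAlgClosed k] [Fintype A] {H : Subgroup A}
    [Fintype ↥H] {K' : Subgroup ↥H} [hK : K'.Normal]
    {c : MonoidAlgebra k A} (hc : SuppIn (K'.map H.subtype) c)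
    [Fintype (PT p (K'.map H.subtype) c)] [Fintype (PT p K' (dn H c))] :
    Phi (⊤ : Subgroup ↥H) (stP p K' (dn H c)) = Phi H (stP p (K'.map H.subtype) c) := by
  classical
  have : Fintype (Subgroup A) := Fintype.ofFinite _
  have : Fintype (Subgroup ↥H) := Fintype.ofFinite _
  have h1 : Phi (⊤ : Subgroup ↥H) (stP p K' (dn H c)) = ∑ R ∈ Finset.univ.filter
      (fun R : Subgroup ↥H => R ≤ K' ∧ IsPGroup p R), ∑ᶠ (φ : MonoidAlgebra k (NQ R))
        (_ : IsDZ p (sec K' R) φ ∧ φ * proj R (dn H c) = φ), Nat.card ↥((⊤ : Subgroup ↥H) ⊓ st R φ) :=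
    sum_PT (fun R φ => Nat.card ↥((⊤ : Subgroup ↥H) ⊓ st R φ)) _ (fun R => by simp)
  have h2 : Phi H (stP p (K'.map H.subtype) c) = ∑ R ∈ Finset.univ.filter
      (fun R : Subgroup A => R ≤ K'.map H.subtype ∧ IsPGroup p R),
        ∑ᶠ (φ : MonoidAlgebra k (NQ R))
        (_ : IsDZ p (sec (K'.map H.subtype) R) φ ∧ φ * proj R c = φ),
          Nat.card ↥(H ⊓ st R φ) :=
    sum_PT (fun R φ => Nat.card ↥(H ⊓ st R φ)) _ (fun R => by simp)
  rw [h1, h2]
  refine Finset.sum_bij (fun Q _ => Q.map H.subtype) ?_ ?_ ?_ ?_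
  · intro Q hQ
    rw [Finset.mem_filter] at hQ ⊢
    exact ⟨Finset.mem_univ _, Subgroup.map_mono hQ.2.1, hQ.2.2.map _⟩
  · intro Q _ Q' _ h
    exact Subgroup.map_injective H.subtype_injective h
  · intro Q hQ
    rw [Finset.mem_filter] at hQ
    have hQH : Q ≤ H := hQ.2.1.trans up_le
    refine ⟨Q.subgroupOf H, ?_, ?_⟩
    · rw [Finset.mem_filter]
      refine ⟨Finset.mem_univ _, ?_, hQ.2.2.comap_of_injective _ H.subtype_injective⟩
      intro x hx
      exact mem_up.1 (hQ.2.1 (Subgroup.mem_subgroupOf.1 hx))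
    · rw [Subgroup.subgroupOf_map_subtype]
      exact inf_eq_left.2 hQH
  · intro Q _
    obtain ⟨E, hE⟩ := exists_dzK (p := p) hc Q
    have f1 := (finite_dz (p := p) K' Q (dn H c)).to_subtype
    have f2 := (finite_dz (p := p) (K'.map H.subtype) (Q.map H.subtype) c).to_subtype
    let i1 : Fintype {f : MonoidAlgebra k (NQ Q) // IsDZ p (sec K' Q) f ∧
      f * proj Q (dn H c) = f} := @Fintype.ofFinite _ f1
    let i2 : Fintype {f : MonoidAlgebra k (NQ (Q.map H.subtype)) //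
          IsDZ p (sec (K'.map H.subtype) (Q.map H.subtype)) f ∧
            f * proj (Q.map H.subtype) c = f} := @Fintype.ofFinite _ f2
    rw [fsum_eq _ (finite_dz (p := p) K' Q (dn H c)).toFinset
        (fun φ => by rw [Set.Finite.mem_toFinset]; rfl),
      fsum_eq _ (finite_dz (p := p) (K'.map H.subtype) (Q.map H.subtype) c).toFinset
        (fun φ => by rw [Set.Finite.mem_toFinset]; rfl),
      Finset.sum_subtype (p := fun f => IsDZ p (sec K' Q) f ∧ f * proj Q (dn H c) = f) _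
        (fun φ => by rw [Set.Finite.mem_toFinset]; rfl),
      Finset.sum_subtype (p := fun f => IsDZ p (sec (K'.map H.subtype) (Q.map H.subtype)) f ∧
            f * proj (Q.map H.subtype) c = f) _
        (fun φ => by rw [Set.Finite.mem_toFinset]; rfl)]
    refine Fintype.sum_equiv E _ _ (fun f => ?_)
    have hst := hE f
    let g : ↥((⊤ : Subgroup ↥H) ⊓ st Q f.1) → ↥(H ⊓ st (Q.map H.subtype) (E f).1) :=
      fun x => ⟨((x : ↥H) : A), Subgroup.mem_inf.2
        ⟨(x : ↥H).2, (hst x (mem_norm_of_normal K' _)).1 (Subgroup.mem_inf.1 x.2).2⟩⟩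
    refine Nat.card_congr (Equiv.ofBijective g ⟨?_, ?_⟩)
    · intro x y h
      have h1 : ((x : ↥H) : A) = ((y : ↥H) : A) := congrArg (fun z => (z.1 : A)) h
      exact Subtype.ext (Subtype.ext h1)
    · rintro ⟨y, hy⟩
      obtain ⟨hyH, h2⟩ := Subgroup.mem_inf.1 hy
      exact ⟨⟨⟨y, hyH⟩, Subgroup.mem_inf.2 ⟨Subgroup.mem_top _,
        (hst ⟨y, hyH⟩ (mem_norm_of_normal K' _)).2 h2⟩⟩, rfl⟩

end Pool.Agent.Lib.P0c8ca5.Hy
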