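import Mathlib
import Pool.Agent.Lib.P0c8ca5E.TrS
import Pool.Agent.Lib.P0c8ca5N.Mv
import Pool.Agent.Lib.P0c8ca5N.Lin

/-!
# Module TrEM: the multiplicity and the passage to the group `↥H`

`mult1_reindex` for the bijection of classes induced by the inclusion `↥H → A`; the p-regular part of an
element of `↥H` is the p-regular part in `A` (`pr_coe`).
-/

namespace Pool.Agent.Lib.P0c8ca5.Hy

open MonoidAlgebra Cy TrBAux

variable {p : ℕ} {k : Type*} [Field k] {A : Type*} [Group A] [Fintype A]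

omit [Fintype A] in
theorem preg_coe {H : Subgroup A} (x : ↥H) : Preg p (x : A) ↔ Preg p x := by
  unfold Preg
  rw [Subgroup.orderOf_coe]

theorem pr_coe [Fact p.Prime] {H : Subgroup A} (x : ↥H) : pr p (x : A) = ((pr p x : ↥H) : A) := by
  set y : ↥H := pr p x with hy
  obtain ⟨n, hn⟩ := exists_pow_mul_inv_pr (p := p) x
  rw [← hy] at hn
  have hyp : Preg p (y : A) := (preg_coe y).2 (preg_pr x)
  have hcomm : Commute x y := commute_pr (Commute.refl x)
  set z : ↥H := x * y⁻¹ with hz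
  have hzc : Commute (z : A) (y : A) := by
    have h1 : Commute z y := hcomm.mul_left (Commute.refl y).inv_left
    exact congrArg Subtype.val h1
  have hzp : (z : A) ^ p ^ n = 1 := congrArg Subtype.val hn
  have hx : (x : A) = (z : A) * (y : A) := by
    rw [hz]
    change (x : A) = (x : A) * (y : A)⁻¹ * (y : A)
    group
  rw [hx, pr_mul hzc, pr_of_pow hzp, pr_eq_self hyp, one_mul]

theorem mult1_dnK [Fact p.Prime] {H : Subgroup A} [Fintype ↥H] {K' : Subgroup ↥H}
    [hK : K'.Normal] {c : MonoidAlgebra k A} (hc : SuppIn (K'.map H.subtype) c)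
    (hinv : InvBy H c) :
    mult1 (EM p (⊤ : Subgroup ↥H) (fun x => x ∈ K' ∧ Preg p x) (dn H c))
      = mult1 (EM p H (fun x => x ∈ K'.map H.subtype ∧ Preg p x) c) := by
  classical
  have hP : ∀ x : ↥H, ((x : A) ∈ K'.map H.subtype ∧ Preg p (x : A)) ↔ (x ∈ K' ∧ Preg p x) :=
    fun x => by rw [mem_up, preg_coe]
  have hPc : ∀ g ∈ H, ∀ x, (x ∈ K'.map H.subtype ∧ Preg p x) →
      (g * x * g⁻¹ ∈ K'.map H.subtype ∧ Preg p (g * x * g⁻¹)) := by
    rintro g hg x ⟨⟨y, hy, rfl⟩, h2⟩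
    refine ⟨?_, (preg_conj _ _).2 h2⟩
    exact ⟨⟨g, hg⟩ * y * ⟨g, hg⟩⁻¹, hK.conj_mem y hy ⟨g, hg⟩, rfl⟩
  -- the map on classes
  let F : Cl (⊤ : Subgroup ↥H) (fun x => x ∈ K' ∧ Preg p x) →
      Cl H (fun x => x ∈ K'.map H.subtype ∧ Preg p x) :=
    Quotient.map (fun x => ⟨((x : ↥H) : A), (hP x).2 x.2⟩) (by
      rintro x y ⟨g, _, e⟩
      exact ⟨(g : A), g.2, congrArg Subtype.val e⟩)
  have hF : ∀ (Y : Cl (⊤ : Subgroup ↥H) (fun x => x ∈ K' ∧ Preg p x)) (x : ↥H),
      InCl _ _ (F Y) (x : A) ↔ InCl _ _ Y x := by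
    intro Y x
    induction Y using Quotient.inductionOn with
    | _ y =>
    constructor
    · rintro ⟨hx, h⟩
      have h' : (Quotient.mk (clSetoid H (fun x => x ∈ K'.map H.subtype ∧ Preg p x)) ⟨(x : A), hx⟩)
        = Quotient.mk _ ⟨((y : ↥H) : A), (hP y).2 y.2⟩ := h
      obtain ⟨g, hg, e⟩ := Quotient.exact h'
      have hx' : x ∈ K' ∧ Preg p x := (hP x).1 hx
      refine ⟨hx', ?_⟩
      apply Quotient.sound
      exact ⟨⟨g, hg⟩, Subgroup.mem_top _, Subtype.ext e⟩
    · rintro ⟨hx, h⟩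
      obtain ⟨g, _, e⟩ := Quotient.exact h
      refine ⟨(hP x).2 hx, ?_⟩
      apply Quotient.sound
      exact ⟨(g : A), g.2, congrArg Subtype.val e⟩
  have hbij : Function.Bijective F := by
    constructor
    · intro Y Y' h
      have h1 := (hF Y _).2 (InCl_out Y)
      rw [h] at h1
      exact InCl_unique (InCl_out Y) ((hF Y' _).1 h1)
    · intro Z
      induction Z using Quotient.inductionOn with
      | _ z =>
      obtain ⟨z, ⟨w, hw, rfl⟩, h2⟩ := z
      exact ⟨Quotient.mk _ ⟨w, hw, (preg_coe w).1 h2⟩, rfl⟩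
  apply mult1_reindex (Equiv.ofBijective F hbij)
  intro i j
  change EM p _ _ _ i j = EM p H _ c (F i) (F j)
  rw [EM_apply_of_mem hPc hinv ((hF i _).2 (InCl_out i))]
  unfold EM
  refine Fintype.sum_of_injective (fun z : ↥H => (z : A)) Subtype.val_injective _ _ ?_ ?_
  · intro z hz
    have hzH : z ∉ H := fun h => hz ⟨⟨z, h⟩, rfl⟩
    have h0 : c.coeff z = 0 := by
      by_contra h; exact hzH (up_le (hc z h))
    rw [h0]
    simp only [ite_self]
  · intro z
    have e1 : (z : A) * ((i.out : ↥H) : A) = ((z * (i.out : ↥H) : ↥H) : A) := rfl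
    rw [e1, pr_coe, coeff_dn]
    exact if_congr (hF j _).symm rfl rfl

end Pool.Agent.Lib.P0c8ca5.Hy
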