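import Mathlib
import Pool.Agent.Lib.P0c8ca5E.LocA
import Pool.Agent.Lib.P0c8ca5E.TrEM
import Pool.Agent.Lib.P0c8ca5.WtEquiv

/-!
# Module Loc: the two local sums agree if the weight equality holds for the `Y ≤ H` with `N ⊓ Y = K`

PROOF of `loc_top` (ambient group `H`).  `H₀` from `exists_H0`.  The p-regular elements of `N` are in `K`, and
the classes of `⊤` and of `H₀` on them agree (`conj_in`).  `irr_top` with `G = Γ = K`, `X = H₀`: `|H₀|` times the
multiplicity is `Phi H₀ (stX hinv)`.  For `K ≤ Y ≤ H₀`: `card_irX_psi`, `ws_psi` and `hw Y`; `phi_of_psiS`: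
`Phi H₀ (stX hinv) = Phi H₀ (stP p K c)`.  `loc_w` and `top_w` for `K ≤ N`: `Phi ⊤ (stP p N c)` is the sum over
`x : PT p K c` with `N ≤ K ⊔ stP p K c x` of `|stP p K c x|`; `Q ≤ stP p K c x` for all `x` (`le_st_norm`).
`card_st_H0`.
PROOF of `loc_eq`.  `mult1_dnK`, `phi_dnK`, `weq_dnK` and `loc_top` for the group `↥H`.
-/

namespace Pool.Agent.Lib.P0c8ca5.Hy

open MonoidAlgebra Cy TrBAux

variable {p : ℕ} {k : Type*} [Field k]

theorem stP_cast {A : Type*} [Group A] {Y N N' : Subgroup A} {c c' : MonoidAlgebra k A}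
    (h : N = N') (h' : c = c') (i : Fintype (PT p N c)) (j : Fintype (PT p N' c')) :
    @Phi A _ (PT p N c) i Y (stP p N c) = @Phi A _ (PT p N' c') j Y (stP p N' c') := by
  subst h
  subst h'
  have e : i = j := Subsingleton.elim i j
  subst e
  rfl

theorem loc_top {A : Type*} [Group A] [Fintype A] [Fact p.Prime] [CharP k p] [IsAlgClosed k]
    {K N Q : Subgroup A} [hK : K.Normal] [hN : N.Normal] [hQn : Q.Normal]
    (hh : HypExt p K N ⊤) (hQ : IsPGroup p Q) (hKQ : K ⊔ Q = N) {c : MonoidAlgebra k A}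
    (hc : SuppIn K c) (hinv : InvBy ⊤ c) (hcc : c * c = c)
    (hw : ∀ Y : Subgroup A, N ⊓ Y = K → WEq p Y c) [Fintype (PT p N c)] :
    Nat.card A * mult1 (EM p (⊤ : Subgroup A) (fun x => x ∈ N ∧ Preg p x) c)
      = Phi ⊤ (stP p N c) := by
  classical
  have : Fintype (IrX K c) := Fintype.ofFinite _
  have : Fintype (PT p K c) := Fintype.ofFinite _
  have : Fintype (Subgroup A) := Fintype.ofFinite _
  obtain ⟨H₀, hKH, hNH, htop⟩ := exists_H0 hh
  have hext : CycExt p K H₀ := by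
    have := hh.ext.sub (le_top : H₀ ≤ ⊤)
    rwa [hNH] at this
  have hQN : Q ≤ N := by rw [← hKQ]; exact le_sup_right
  have hQS : Q ∈ Supp p K N := ⟨hQN, hQ, hKQ⟩
  have hnK : ∀ M : Subgroup A, M ≤ Subgroup.normalizer (K : Set A) := fun M x _ =>
    mem_norm_of_normal K x
  have hnQ : ∀ M : Subgroup A, M ≤ Subgroup.normalizer (Q : Set A) := fun M x _ =>
    mem_norm_of_normal Q x
  have hP : (fun x => x ∈ N ∧ Preg p x) = fun x => x ∈ K ∧ Preg p x := by
    funext x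
    apply propext
    constructor
    · rintro ⟨h1, h2⟩
      obtain ⟨n, hn⟩ := hh.pgrp x h1
      exact ⟨mem_of_preg h2 hn, h2⟩
    · rintro ⟨h1, h2⟩
      exact ⟨hh.CN h1, h2⟩
  have hPY : PY p K K = fun x => x ∈ K ∧ Preg p x := by
    funext x
    apply propext
    constructor
    · rintro ⟨h1, h2, -⟩; exact ⟨h1, h2⟩
    · rintro ⟨h1, h2⟩; exact ⟨h1, h2, fun g hg => ⟨g, hg, rfl⟩⟩
  -- the left side
  have h1 : mult1 (EM p (⊤ : Subgroup A) (fun x => x ∈ K ∧ Preg p x) c)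
      = mult1 (EM p H₀ (fun x => x ∈ K ∧ Preg p x) c) := by
    apply mult1_EM_eq
    rintro x y ⟨hx, hx'⟩ ⟨hy, hy'⟩
    constructor
    · rintro ⟨g, -, rfl⟩
      have hg : g ∈ H₀ ⊔ N := by rw [sup_comm, htop]; exact Subgroup.mem_top g
      obtain ⟨h, hh', n, hn, rfl⟩ := Subgroup.mem_sup_of_normal_right.1 hg
      obtain ⟨d, hd, hd'⟩ := conj_in hh.CN (hnK N) hh.pgrp hQS hQN le_rfl (hnQ N)
        (hh.CN hx) hx' hn
      refine ⟨h * d, H₀.mul_mem hh' (hKH (Subgroup.mem_inf.1 hd).1), ?_⟩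
      calc h * n * x * (h * n)⁻¹ = h * (n * x * n⁻¹) * h⁻¹ := by group
        _ = h * (d * x * d⁻¹) * h⁻¹ := by rw [hd']
        _ = h * d * x * (h * d)⁻¹ := by group
    · rintro ⟨g, hg, rfl⟩
      exact ⟨g, Subgroup.mem_top g, rfl⟩
  have h2 := irr_top (le_refl K) hKH (hnK H₀) (fun x hx => ⟨0, by simpa using hx⟩) hc hinv hcc
  have h3 : (∑ x : IrX K c, if K ≤ stX (G := K) hinv x then
      Nat.card ↥(H₀ ⊓ stX (G := K) hinv x) else 0) = Phi H₀ (stX (G := K) hinv) := by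
    unfold Phi
    refine Finset.sum_congr rfl fun x _ => ?_
    rw [if_pos (G_le_stX hinv x)]
  rw [h3, hPY, ← h1, ← hP] at h2
  have h4 : Phi H₀ (stX (G := K) hinv) = Phi H₀ (stP p K c) := by
    refine phi_of_psiS hext _ _ (fun Y hKY hYH => ?_)
    have hYK : N ⊓ Y = K := by
      apply le_antisymm
      · rw [← hNH]
        exact inf_le_inf_left N hYH
      · exact le_inf hh.CN hKY
    have hY : CycExt p K Y := by
      have h := hh.ext.sub (le_top : Y ≤ ⊤)
      rwa [hYK] at h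
    have hhY : HypExt p K K Y := ⟨le_rfl, hY.hN, hY, fun x hx => ⟨0, by simpa using hx⟩⟩
    have h3 := card_irX_psi hhY hc hinv hcc
    have h4 := ws_psi hhY hc hinv hcc
    have h5 := hw Y hYK
    unfold WEq at h5
    rw [← h3, ← h4, h5]
  -- the right side
  have hst : ∀ x : PT p K c, Q ≤ stP p K c x := fun x =>
    le_st_norm hQ x.1.2.1 x.1.2.2 x.2.2.1
  have h5 : Phi ⊤ (stP p N c) = Phi ⊤ (stP p K c) := by
    let D : Finset (Subgroup A) := Finset.univ.filter (fun T => T ∈ Supp p K N)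
    have hD : ∀ T, T ∈ D ↔ T ∈ Supp p K N := by intro T; simp [D]
    have hctx : Ctx p ⊤ ⊤ ⊥ c :=
      { hHX := le_rfl
        hS := IsPGroup.of_bot
        hHS := by
          intro x _
          rw [Subgroup.mem_normalizer_iff]
          intro y
          simp
        hCS := le_top
        supp := hc.mono le_top
        inv := hinv }
    have : Fintype (PT p (N ⊓ ⊤) (cS ⊥ c)) := Fintype.ofFinite _
    have h6 := loc_w hh.CN hctx hQS le_top (hnQ ⊤) D (fun T => by
      rw [hD]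
      exact ⟨fun h => ⟨le_top, h⟩, fun h => h.2⟩)
    have h7 := top_w hh hc hinv hcc D hD
    have h8 : Phi ⊤ (stP p (N ⊓ ⊤) (cS ⊥ c)) = Phi ⊤ (stP p N c) :=
      stP_cast (inf_top_eq N) (cS_bot c) _ _
    simp only [bot_sup_eq] at h6
    rw [← h8, ← h6, h7]
    unfold Phi
    refine Finset.sum_congr rfl fun x _ => ?_
    rw [if_pos]
    rw [← hKQ]
    exact sup_le_sup_left (hst x) K
  have h6 : Nat.card H₀ * Phi ⊤ (stP p K c) = Nat.card A * Phi H₀ (stP p K c) := by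
    unfold Phi
    rw [Finset.mul_sum, Finset.mul_sum]
    refine Finset.sum_congr rfl fun x _ => ?_
    rw [top_inf_eq]
    exact card_st_H0 hKQ hKH htop (hst x)
  have hpos : 0 < Nat.card H₀ := Nat.card_pos
  apply Nat.eq_of_mul_eq_mul_left hpos
  rw [h5, h6, ← h4, h2]
  ring

theorem loc_eq {A : Type*} [Group A] [Fintype A] [Fact p.Prime] [CharP k p] [IsAlgClosed k]
    {K N H Q : Subgroup A} (hh : HypExt p K N H) (hQH : Q ≤ H)
    (hHQ : H ≤ Subgroup.normalizer (Q : Set A)) (hQ : IsPGroup p Q) (hKQ : K ⊔ Q = N)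
    {c : MonoidAlgebra k A}
    (hc : SuppIn K c) (hinv : InvBy H c) (hcc : c * c = c)
    (hw : ∀ Y : Subgroup A, Y ≤ H → N ⊓ Y = K → WEq p Y c) [Fintype (PT p N c)] :
    Nat.card H * mult1 (EM p H (fun x => x ∈ N ∧ Preg p x) c) = Phi H (stP p N c) := by
  classical
  have : Fintype ↥H := Fintype.ofFinite _
  obtain ⟨h1, h2, h3⟩ := hh.dn
  obtain ⟨K', hK'⟩ : ∃ K' : Subgroup ↥H, K' = K.subgroupOf H := ⟨_, rfl⟩
  obtain ⟨N', hN'⟩ : ∃ N' : Subgroup ↥H, N' = N.subgroupOf H := ⟨_, rfl⟩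
  obtain ⟨Q', hQ'⟩ : ∃ Q' : Subgroup ↥H, Q' = Q.subgroupOf H := ⟨_, rfl⟩
  have hKH : K ≤ H := hh.CN.trans hh.ext.NH
  have hK : K = K'.map H.subtype := by
    rw [hK', Subgroup.subgroupOf_map_subtype]
    exact (inf_of_le_left hKH).symm
  have hN : N = N'.map H.subtype := by
    rw [hN', Subgroup.subgroupOf_map_subtype]
    exact (inf_of_le_left hh.ext.NH).symm
  have hQe : Q = Q'.map H.subtype := by
    rw [hQ', Subgroup.subgroupOf_map_subtype]
    exact (inf_of_le_left hQH).symm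
  have hQn : Q'.Normal := by
    rw [hQ']
    exact HypAux.normal_sub hHQ
  rw [← hK'] at h1 h2
  rw [← hN'] at h1 h3
  have hQp : IsPGroup p Q' := by
    rw [hQ']
    exact hQ.comap_subtype
  have hKQ' : K' ⊔ Q' = N' := by
    apply Subgroup.map_injective H.subtype_injective
    rw [Subgroup.map_sup, ← hK, ← hQe, ← hN, hKQ]
  subst hN
  have hcN : SuppIn (N'.map H.subtype) c := hc.mono hh.CN
  have : Fintype (PT p N' (dn H c)) := Fintype.ofFinite _
  rw [← mult1_dnK hcN hinv, ← phi_dnK hcN]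
  have hcK : SuppIn (K'.map H.subtype) c := by rw [← hK]; exact hc
  refine loc_top h1 hQp hKQ' (dn_suppK hcK) (dn_invBy hinv) (dn_idem (hcK.mono up_le) hcc) ?_
  intro Y' hY'
  have hKY : K' ≤ Y' := by rw [← hY']; exact inf_le_right
  rw [weq_dnK (hcK.mono (Subgroup.map_mono hKY))]
  refine hw _ up_le ?_
  rw [← Subgroup.map_inf _ _ _ H.subtype_injective, hY', hK]

end Pool.Agent.Lib.P0c8ca5.Hy
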