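import Mathlib
import Pool.Agent.Lib.P0c8ca5E.OrbI
import Pool.Agent.Lib.P0c8ca5E.Cls
import Pool.Agent.Lib.P0c8ca5E.BlkB
import Pool.Agent.Lib.P0c8ca5E.TopW
import Pool.Agent.Lib.P0c8ca5E.LocW
import Pool.Agent.Lib.P0c8ca5E.Loc

/-!
# Module Chain: the chain formula

PROOF of `top_eq`.  As `formula` in P0c8ca5N.Gap, `D` the finset of the members of `Supp p G Γ` (they are
p-subgroups of `X`, `supp_up`), `involution X D`.  For `σ ∈ Ch D` let `a σ`, `b σ` be the two local sums; both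
alternating sums over `Ch D` vanish.  For `σ` nonempty `a σ = b σ` (`defect_sumG`, `pdG_chain`, `loc_w`, `loc_eq`).
So `a ∅ = b ∅`; `a ∅` is the left side by `defect_sumG`, `pdG_top`, `irr_top`, and `b ∅` is the right side by
`top_w`.
-/

namespace Pool.Agent.Lib.P0c8ca5.Hy

open MonoidAlgebra Cy

variable {p : ℕ} {k : Type*} [Field k] {A : Type*} [Group A] [Fintype A]

omit [Fintype A] in
theorem supp_stab {G Γ X : Subgroup A} {e : MonoidAlgebra k A} (he : SuppIn G e)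
    {σ : Finset (Subgroup A)} (hd : ChData p G Γ X e σ) :
    SuppIn (G ⊓ stab X σ) (cS (σ.sup id) e) := by
  intro x hx
  refine ⟨he x ?_, (hd.supp x hx).2⟩
  intro h0
  apply hx
  by_cases hxS : x ∈ (Subgroup.centralizer ((σ.sup id : Subgroup A) : Set A) : Set A)
  · rw [cS, coeff_resS_of_mem _ hxS, h0]
  · rw [cS, coeff_resS_of_notMem _ hxS]

theorem chain_eq [Fact p.Prime] [CharP k p] [IsAlgClosed k] {G Γ X : Subgroup A}
    [hG : G.Normal] (hh : HypExt p G Γ X) {e : MonoidAlgebra k A} (he : SuppIn G e)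
    (hinv : InvBy ⊤ e) (hee : e * e = e) {σ : Finset (Subgroup A)} (hne : σ.Nonempty)
    (hσ : IsChain (· ≤ ·) (σ : Set (Subgroup A))) (hσS : ∀ Q ∈ σ, Q ∈ Supp p G Γ)
    (hloc : ∀ Y : Subgroup A, Y ≤ stab X σ → Γ ⊓ Y = G ⊓ stab X σ → WEq p Y (cS (σ.sup id) e))
    (D : Finset (Subgroup A)) (hD : ∀ Q, Q ∈ D ↔ Q ≤ stab X σ ∧ Q ∈ Supp p G Γ) :
    ∑ T ∈ D, Nat.card ↥(stab X σ ⊓ Subgroup.normalizer (T : Set A))
          * mDG p G (stab X σ ⊓ Subgroup.normalizer (T : Set A)) T (σ.sup id ⊔ T) e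
      = ∑ T ∈ D, wDG p Γ (stab X σ ⊓ Subgroup.normalizer (T : Set A)) T (σ.sup id ⊔ T) e := by
  have hd := chData hh he (hinv.mono le_top) hne hσ hσS
  obtain ⟨Q, hQS, hQH, hHQ⟩ := hd.least
  have hHX : stab X σ ≤ X := inf_le_left
  have : Fintype (PT p (Γ ⊓ stab X σ) (cS (σ.sup id) e)) := Fintype.ofFinite _
  rw [loc_w hh.CN hd.ctx hQS hQH hHQ D hD,
    ← defect_sumG hd.ctx (hHX.trans hh.hC) (F := Supp p G Γ)
      (fun T hT h hh' => supp_cg hh hT (hHX hh')) D (fun T => by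
        rw [hD]
        exact ⟨fun h => ⟨h.1, h.2.2.1, h.2⟩, fun h => ⟨h.1, h.2.2⟩⟩)]
  have hP : PdG p G (stab X σ) (Supp p G Γ) = fun x => x ∈ Γ ⊓ stab X σ ∧ Preg p x := by
    funext x
    exact propext (pdG_chain hh hQS hQH hHX hHQ x)
  rw [hP]
  have hKQ : (G ⊓ stab X σ) ⊔ Q = Γ ⊓ stab X σ := by
    apply le_antisymm (sup_le (inf_le_inf_right _ hh.CN) (le_inf hQS.1 hQH))
    rintro x ⟨hxΓ, hxH⟩
    rw [← hQS.2.2] at hxΓ
    obtain ⟨g, hg, q, hq, rfl⟩ := Subgroup.mem_sup_of_normal_left.1 hxΓ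
    refine Subgroup.mul_mem_sup ⟨hg, ?_⟩ hq
    have := (stab X σ).mul_mem hxH ((stab X σ).inv_mem (hQH hq))
    rwa [mul_inv_cancel_right] at this
  have hsG : SuppIn (G ⊓ stab X σ) (cS (σ.sup id) e) := supp_stab he hd
  refine loc_eq (hh.sub hHX) hQH hHQ hQS.2.1 hKQ hsG hd.inv (hd.idem hh hne hσ hσS hee) ?_
  intro Y hYH hY
  refine hloc Y hYH ?_
  rw [← hY, inf_assoc, inf_of_le_right hYH]

open Classical in
theorem top_eq [Fact p.Prime] [CharP k p] [IsAlgClosed k] {G Γ X : Subgroup A}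
    [hG : G.Normal] (hh : HypExt p G Γ X) {e : MonoidAlgebra k A} (he : SuppIn G e)
    (hinv : InvBy ⊤ e) (hee : e * e = e) [Fintype (IrX G e)] [Fintype (PT p G e)]
    (hloc : ∀ σ : Finset (Subgroup A), σ.Nonempty → IsChain (· ≤ ·) (σ : Set (Subgroup A)) →
      (∀ Q ∈ σ, Q ∈ Supp p G Γ) → ∀ Y : Subgroup A, Y ≤ stab X σ → Γ ⊓ Y = G ⊓ stab X σ →
        WEq p Y (cS (σ.sup id) e)) :
    (∑ x : IrX G e, if Γ ≤ stX (G := G) hinv x then Nat.card ↥(X ⊓ stX (G := G) hinv x) else 0)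
      = ∑ x : PT p G e, if Γ ≤ G ⊔ stP p G e x then Nat.card ↥(X ⊓ stP p G e x) else 0 := by
  have : Fintype (Subgroup A) := Fintype.ofFinite _
  let D : Finset (Subgroup A) := Finset.univ.filter (fun Q => Q ∈ Supp p G Γ)
  have hD : ∀ Q, Q ∈ D ↔ Q ∈ Supp p G Γ := by intro Q; simp [D]
  have hup : ∀ Q ∈ D, ∀ R : Subgroup A, R ≤ X → IsPGroup p R → Q ≤ R → R ∈ D := by
    intro Q hQ R h1 h2 h3
    rw [hD] at hQ ⊢
    exact supp_up hh hQ h1 h2 h3
  have inv := fun W => involution X D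
    (fun Q hQ => ⟨((hD Q).1 hQ).1.trans hh.ext.NH, ((hD Q).1 hQ).2.1⟩) hup W
  let a : Finset (Subgroup A) → ℕ := fun σ => ∑ T ∈ D.filter (fun T => T ≤ stab X σ),
    (Nat.card ↥(stab X σ ⊓ Subgroup.normalizer (T : Set A))
      * mDG p G (stab X σ ⊓ Subgroup.normalizer (T : Set A)) T (σ.sup id ⊔ T) e)
  let b : Finset (Subgroup A) → ℕ := fun σ => ∑ T ∈ D.filter (fun T => T ≤ stab X σ),
    wDG p Γ (stab X σ ⊓ Subgroup.normalizer (T : Set A)) T (σ.sup id ⊔ T) e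
  have ha : ∑ σ ∈ Ch D, (-1 : ℤ) ^ σ.card * (a σ : ℤ) = 0 := by
    have := inv (fun M T S => ((Nat.card M * mDG p G M T S e : ℕ) : ℤ))
    simpa only [a, Nat.cast_sum] using this
  have hb : ∑ σ ∈ Ch D, (-1 : ℤ) ^ σ.card * (b σ : ℤ) = 0 := by
    have := inv (fun M T S => ((wDG p Γ M T S e : ℕ) : ℤ))
    simpa only [b, Nat.cast_sum] using this
  have hab : ∀ σ ∈ Ch D, σ.Nonempty → a σ = b σ := by
    intro σ hσ hne
    rw [Ch, Finset.mem_filter, Finset.mem_powerset] at hσ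
    have hσS : ∀ Q ∈ σ, Q ∈ Supp p G Γ := fun Q hQ => (hD Q).1 (hσ.1 hQ)
    exact chain_eq hh he hinv hee hne hσ.2 hσS (hloc σ hne hσ.2 hσS)
      (D.filter (fun T => T ≤ stab X σ)) (by
        intro Q
        rw [Finset.mem_filter, hD]
        exact and_comm)
  have hmem : (∅ : Finset (Subgroup A)) ∈ Ch D := by
    rw [Ch, Finset.mem_filter]
    exact ⟨Finset.empty_mem_powerset _, by simp⟩
  have h0 : a ∅ = b ∅ := by
    rw [← Finset.add_sum_erase _ _ hmem] at ha hb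
    simp only [Finset.card_empty, pow_zero, one_mul] at ha hb
    have h1 : ∑ σ ∈ (Ch D).erase ∅, (-1 : ℤ) ^ σ.card * (a σ : ℤ)
        = ∑ σ ∈ (Ch D).erase ∅, (-1 : ℤ) ^ σ.card * (b σ : ℤ) := by
      refine Finset.sum_congr rfl fun σ hσ => ?_
      rw [Finset.mem_erase] at hσ
      rw [hab σ hσ.2 (Finset.nonempty_iff_ne_empty.2 hσ.1)]
    have h2 : (a ∅ : ℤ) = (b ∅ : ℤ) := by linarith
    exact_mod_cast h2
  have hctx : Ctx p X X ⊥ e :=
    { hHX := le_refl X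
      hS := IsPGroup.of_bot
      hHS := by
        intro x _
        rw [Subgroup.mem_normalizer_iff]
        intro y
        simp
      hCS := inf_le_left
      supp := he.mono (hh.CN.trans hh.ext.NH)
      inv := hinv.mono le_top }
  have hfil : D.filter (fun T => T ≤ stab X ∅) = D := by
    apply Finset.filter_true_of_mem
    intro Q hQ
    rw [stab_empty]
    exact ((hD Q).1 hQ).1.trans hh.ext.NH
  have h1 : a ∅ = ∑ x : IrX G e,
      if Γ ≤ stX (G := G) hinv x then Nat.card ↥(X ⊓ stX (G := G) hinv x) else 0 := by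
    simp only [a]
    rw [hfil]
    simp only [stab_empty, Finset.sup_empty]
    have h2 := defect_sumG hctx hh.hC (F := Supp p G Γ)
      (fun T hT h hh' => supp_cg hh hT hh') D (by
        intro Q
        rw [hD]
        exact ⟨fun h => ⟨h.1.trans hh.ext.NH, h.2.1, h⟩, fun h => h.2.2⟩)
    rw [← h2, cS_bot]
    have hP : PdG p G X (Supp p G Γ) = PY p G Γ := by
      funext x
      exact propext (pdG_top hh x)
    rw [hP]
    exact (irr_top hh.CN hh.ext.NH hh.ext.hN hh.pgrp he hinv hee).symm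
  have h2 : b ∅ = ∑ x : PT p G e,
      if Γ ≤ G ⊔ stP p G e x then Nat.card ↥(X ⊓ stP p G e x) else 0 := by
    simp only [b]
    rw [hfil]
    simp only [stab_empty, Finset.sup_empty, bot_sup_eq]
    exact top_w hh he hinv hee D hD
  rw [← h1, h0, h2]

end Pool.Agent.Lib.P0c8ca5.Hy
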