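import Mathlib
import Pool.Agent.Lib.P0c8ca5E.Chain
import Pool.Agent.Lib.P0c8ca5C.Avg
import Pool.Agent.Lib.P0c8ca5C.Hyp
import Pool.Agent.Lib.P0c8ca5.WtEquiv

/-!
# Module Fix: from the numbers of orbits to the numbers of fixed points

PROOF of `avg_sub`.  `avg_one` (P0c8ca5C.Avg) for every member of the family.
PROOF of `cnt_hyp`.  Strong induction on `Nat.card Y`, `Γ ≤ Y ≤ X`: claim
`aS G (stX hinv) Y = aS G (stP p G e) Y`.  `HypExt p G Γ Y` holds and `top_eq` applies to `Y`.  By `avg_sub`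
the sums over `y ∈ Y` of `aS G _ (Γ ⊔ zpowers y)` agree for the two families.  The terms with
`Γ ⊔ zpowers y < Y` agree by induction; the number of the `y ∈ Y` with `Γ ⊔ zpowers y = Y` is positive as
`Y / Γ` is cyclic.  Then `cnt_aS` (P0c8ca5C.Avg) for `Y = X`.
-/

namespace Pool.Agent.Lib.P0c8ca5.Hy

open MonoidAlgebra Cy

variable {p : ℕ} {k : Type*} [Field k] {A : Type*} [Group A] [Fintype A]

open Classical in
theorem avg_sub {X : Type*} [Fintype X] {G P Y : Subgroup A} [hG : G.Normal] (hGP : G ≤ P)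
    (hPY : P ≤ Y) (s : X → Subgroup A) :
    Nat.card G * (∑ x, if P ≤ G ⊔ s x then Nat.card ↥(Y ⊓ s x) else 0)
      = ∑ y ∈ Finset.univ.filter (fun y => y ∈ Y), aS G s (P ⊔ Subgroup.zpowers y) := by
  have h1 : ∀ x : X, Nat.card G * Nat.card ↥(Y ⊓ s x)
      = ∑ y ∈ Finset.univ.filter (fun y => y ∈ Y),
          if G ⊔ Subgroup.zpowers y ≤ G ⊔ s x then Nat.card ↥(G ⊓ s x) else 0 := by
    intro x
    have h := AvgAux.avg_one G (hGP.trans hPY) (s x) (fun _ => 1) (fun _ _ _ => rfl)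
    have h2 : ((Nat.card G * Nat.card ↥(Y ⊓ s x) : ℕ) : ℚ)
        = ((∑ y ∈ Finset.univ.filter (fun y => y ∈ Y),
          if G ⊔ Subgroup.zpowers y ≤ G ⊔ s x then Nat.card ↥(G ⊓ s x) else 0 : ℕ) : ℚ) := by
      rw [Nat.cast_mul, AvgAux.card_filter (Y ⊓ s x)]
      rw [Finset.sum_const, nsmul_eq_mul, mul_one] at h
      rw [h, Nat.cast_sum]
      exact Finset.sum_congr rfl fun y _ => one_mul _
    exact_mod_cast h2
  unfold aS
  rw [Finset.mul_sum, Finset.sum_comm]
  refine Finset.sum_congr rfl fun x _ => ?_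
  by_cases hx : P ≤ G ⊔ s x
  · rw [if_pos hx, h1 x]
    refine Finset.sum_congr rfl fun y _ => ?_
    refine if_congr ?_ rfl rfl
    rw [sup_le_iff, sup_le_iff]
    exact ⟨fun h => ⟨hx, h.2⟩, fun h => ⟨le_sup_left, h.2⟩⟩
  · rw [if_neg hx, mul_zero]
    symm
    refine Finset.sum_eq_zero fun y _ => if_neg fun h => hx (le_sup_left.trans h)

theorem hypExt_of_le {G Γ X Y : Subgroup A} (hh : HypExt p G Γ X) (hΓY : Γ ≤ Y) (hYX : Y ≤ X) :
    HypExt p G Γ Y := by
  have h := hh.sub hYX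
  rwa [inf_of_le_left (hh.CN.trans hΓY), inf_of_le_left hΓY] at h

omit [Fintype A] in
theorem stab_of_le {Γ X Y : Subgroup A} (hΓY : Γ ≤ Y) (hYX : Y ≤ X) (σ : Finset (Subgroup A)) :
    Γ ⊓ stab X σ = Γ ⊓ stab Y σ := by
  unfold stab
  rw [← inf_assoc, ← inf_assoc, inf_of_le_left (hΓY.trans hYX), inf_of_le_left hΓY]

theorem cnt_hyp [Fact p.Prime] [CharP k p] [IsAlgClosed k] {G Γ X : Subgroup A}
    [hG : G.Normal] (hh : HypExt p G Γ X) {e : MonoidAlgebra k A} (he : SuppIn G e)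
    (hinv : InvBy ⊤ e) (hee : e * e = e) [Fintype (IrX G e)] [Fintype (PT p G e)]
    (hloc : ∀ σ : Finset (Subgroup A), σ.Nonempty → IsChain (· ≤ ·) (σ : Set (Subgroup A)) →
      (∀ Q ∈ σ, Q ∈ Supp p G Γ) → ∀ Y : Subgroup A, Y ≤ stab X σ → Γ ⊓ Y = G ⊓ stab X σ →
        WEq p Y (cS (σ.sup id) e)) :
    cnt (stX (G := G) hinv) G X = cnt (stP p G e) G X := by
  classical
  have key : ∀ n : ℕ, ∀ Y : Subgroup A, Γ ≤ Y → Y ≤ X → Nat.card Y = n →
      aS G (stX (G := G) hinv) Y = aS G (stP p G e) Y := by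
    intro n
    induction n using Nat.strong_induction_on with
    | _ n ih =>
      intro Y hΓY hYX hcard
      have hY := hypExt_of_le hh hΓY hYX
      have h1 := top_eq hY he hinv hee (fun σ h1 h2 h3 Y' h4 h5 => by
        refine hloc σ h1 h2 h3 Y' (h4.trans (inf_le_inf_right _ hYX)) ?_
        rw [h5, stab_of_le (hh.CN.trans hΓY) hYX])
      have h2 := avg_sub hh.CN hΓY (stX (G := G) hinv)
      have h3 := avg_sub hh.CN hΓY (stP p G e)
      have h4 : (∑ x : IrX G e, if Γ ≤ G ⊔ stX (G := G) hinv x then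
          Nat.card ↥(Y ⊓ stX (G := G) hinv x) else 0)
          = ∑ x : IrX G e, if Γ ≤ stX (G := G) hinv x then
          Nat.card ↥(Y ⊓ stX (G := G) hinv x) else 0 := by
        refine Finset.sum_congr rfl fun x _ => ?_
        rw [sup_of_le_right (G_le_stX hinv x)]
      rw [h4, h1, h3] at h2
      have h5 := Finset.sum_filter_add_sum_filter_not
        (Finset.univ.filter (fun y => y ∈ Y)) (fun y => Γ ⊔ Subgroup.zpowers y = Y)
        (fun y => aS G (stX (G := G) hinv) (Γ ⊔ Subgroup.zpowers y))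
      have h6 := Finset.sum_filter_add_sum_filter_not
        (Finset.univ.filter (fun y => y ∈ Y)) (fun y => Γ ⊔ Subgroup.zpowers y = Y)
        (fun y => aS G (stP p G e) (Γ ⊔ Subgroup.zpowers y))
      have h7 : ∑ y ∈ (Finset.univ.filter (fun y => y ∈ Y)).filter
            (fun y => ¬ Γ ⊔ Subgroup.zpowers y = Y),
            aS G (stX (G := G) hinv) (Γ ⊔ Subgroup.zpowers y)
          = ∑ y ∈ (Finset.univ.filter (fun y => y ∈ Y)).filter
            (fun y => ¬ Γ ⊔ Subgroup.zpowers y = Y),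
            aS G (stP p G e) (Γ ⊔ Subgroup.zpowers y) := by
        refine Finset.sum_congr rfl fun y hy => ?_
        rw [Finset.mem_filter, Finset.mem_filter] at hy
        have hle : Γ ⊔ Subgroup.zpowers y ≤ Y :=
          sup_le hΓY (by rw [Subgroup.zpowers_le]; exact hy.1.2)
        have hlt : Nat.card ↥(Γ ⊔ Subgroup.zpowers y) < n := by
          rw [← hcard]
          refine lt_of_le_of_ne (Subgroup.card_le_of_le hle) fun he => hy.2 ?_
          exact Subgroup.eq_of_le_of_card_ge hle he.ge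
        exact ih _ hlt _ le_sup_left (hle.trans hYX) rfl
      have h8 : ∀ f : Subgroup A → ℕ, ∑ y ∈ (Finset.univ.filter (fun y => y ∈ Y)).filter
            (fun y => Γ ⊔ Subgroup.zpowers y = Y), f (Γ ⊔ Subgroup.zpowers y)
          = ((Finset.univ.filter (fun y => y ∈ Y)).filter
            (fun y => Γ ⊔ Subgroup.zpowers y = Y)).card * f Y := by
        intro f
        rw [Finset.sum_congr rfl (g := fun _ => f Y) (fun y hy => by
          rw [(Finset.mem_filter.1 hy).2]), Finset.sum_const, smul_eq_mul]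
      rw [h8 (aS G (stX (G := G) hinv))] at h5
      rw [h8 (aS G (stP p G e))] at h6
      have h9 : ((Finset.univ.filter (fun y => y ∈ Y)).filter
            (fun y => Γ ⊔ Subgroup.zpowers y = Y)).card * aS G (stX (G := G) hinv) Y
          = ((Finset.univ.filter (fun y => y ∈ Y)).filter
            (fun y => Γ ⊔ Subgroup.zpowers y = Y)).card * aS G (stP p G e) Y := by
        omega
      obtain ⟨t, ht, htY⟩ := hY.ext.cyc
      refine Nat.eq_of_mul_eq_mul_left (Finset.card_pos.2 ⟨t, ?_⟩) h9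
      rw [Finset.mem_filter, Finset.mem_filter]
      exact ⟨⟨Finset.mem_univ _, ht⟩, htY⟩
  have h1 := cnt_aS G (hh.CN.trans hh.ext.NH) (stX (G := G) hinv)
  have h2 := cnt_aS G (hh.CN.trans hh.ext.NH) (stP p G e)
  rw [key _ X hh.ext.NH le_rfl rfl, ← h2] at h1
  exact Nat.eq_of_mul_eq_mul_right Nat.card_pos h1

end Pool.Agent.Lib.P0c8ca5.Hy
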