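import Mathlib
import Pool.Agent.Lib.P0c8ca5E.Fix
import Pool.Agent.Lib.P0c8ca5.WtEquiv
import Pool.Agent.Lib.P0c8ca5C.SecCyc

/-!
# Module Blk: the blocks of the local subgroups, and the equivariant bijection

PROOF of `weq_loc`.  `weq_of_blocks` (P0c8ca5C.SecCyc): `WEq p Y c` from Navarro's equality for the blocks `b` of
`Y` with `b * c ≠ 0`.  For such `b` and a p-subgroup `R ≤ Y` with `HasBr R b`: `b * c = b`, so `HasBr R c`
(`hasBr_of_mul`), and a coefficient of `c = cS S e` is a coefficient of `e` or zero, so `HasBr R e`.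
PROOF of `fixed_hyp`.  `cnt_hyp` with `weq_loc`; `cnt_fixed` and `G_le_stX`, `cnt_weights`.
PROOF of `equiv_hyp`.  As the end of the proof of `equivariant_iff` (P0c8ca5.WtEquiv): `marks`, for `H ≤ A` use
`fixed_hyp` for `H ⊔ G`.
-/

namespace Pool.Agent.Lib.P0c8ca5.Hy

open MonoidAlgebra Cy

universe u v

variable {p : ℕ} {k : Type v} [Field k] {A : Type u} [Group A] [Fintype A]

/-- the blockwise weight conjecture for the blocks `b` of the subgroups `Y ≤ X` with `Y / (G ⊓ Y)` cyclic of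
order prime to `p` whose p-subgroups `R` with `Br_R(b) ≠ 0` satisfy `Br_R(e) ≠ 0` -/
def BelowC (p : ℕ) (G X : Subgroup A) (e : MonoidAlgebra k A) : Prop :=
  ∀ Y : Subgroup A, Y ≤ X → CycExt p (G ⊓ Y) Y → ∀ b : MonoidAlgebra k A, IsBlock Y b →
    (∀ R : Subgroup A, R ≤ Y → IsPGroup p R → HasBr R b → HasBr R e) → NavarroEq p Y Y b

theorem BelowC.mono {G X X' : Subgroup A} {e : MonoidAlgebra k A} (h : BelowC p G X e)
    (hX : X' ≤ X) : BelowC p G X' e := fun Y hY hc b hb hR => h Y (hY.trans hX) hc b hb hR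

omit [Fintype A] in
theorem hasBr_of_cS {S P : Subgroup A} {f : MonoidAlgebra k A} (h : HasBr P (cS S f)) :
    HasBr P f := by
  obtain ⟨x, hx, hfx⟩ := h
  refine ⟨x, hx, ?_⟩
  intro h0
  apply hfx
  by_cases hxS : x ∈ (Subgroup.centralizer (S : Set A) : Set A)
  · rw [cS, coeff_resS_of_mem _ hxS, h0]
  · rw [cS, coeff_resS_of_notMem _ hxS]

theorem weq_loc [Fact p.Prime] [CharP k p] [IsAlgClosed k] {G X Y S : Subgroup A}
    {e : MonoidAlgebra k A} (hB : BelowC p G X e) (hYX : Y ≤ X) (hY : CycExt p (G ⊓ Y) Y)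
    (hc : SuppIn Y (cS S e)) (hinv : InvBy Y (cS S e)) (hcc : cS S e * cS S e = cS S e) :
    WEq p Y (cS S e) := by
  refine weq_of_blocks hc hinv hcc (fun b hb hbc => hB Y hYX hY b hb ?_)
  intro R hR hpR hbr
  have hcomm : cS S e * b = b * cS S e := commute_of hc hb.invBy
  have hmul : b * cS S e = b := by
    rcases hb.mul_eq (mem_fixAlg.2 ⟨hc, hinv⟩) hcc with h | h
    · rw [hcomm] at h; exact absurd h hbc
    · rw [← hcomm]; exact h
  exact hasBr_of_cS (hasBr_of_mul hpR (hb.invBy.mono hR) (hinv.mono hR) hmul hbr)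

theorem card_inv_fix {G X : Subgroup A} [hG : G.Normal] {e : MonoidAlgebra k A}
    (hinv : InvBy ⊤ e) :
    Nat.card (Quotient (irrInvSetoid G X e))
      = Nat.card {x : IrX G e // X ≤ stX (G := G) hinv x} := by
  have hn : X ≤ Subgroup.normalizer (G : Set A) := fun x _ => mem_norm_of_normal G x
  have hmem : ∀ (σ : IrrInv G ⊥ e) (a : A),
      a ∈ stX (G := G) hinv (Quotient.mk _ σ) ↔ Iso (tw (mem_norm_of_normal G a) σ.ρ) σ.ρ := by
    intro σ a
    exact ⟨fun h => mk_eq_mk.1 h, fun h => mk_eq_mk.2 h⟩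
  let g : IrrInv G X e → IrrInv G ⊥ e := fun ρ =>
    ⟨ρ.n, ρ.ρ, ρ.irr, ρ.blk, fun h hh => ρ.inv h (bot_le (a := X) hh)⟩
  refine Nat.card_congr (Equiv.ofBijective (fun c => Quotient.liftOn c
    (fun ρ => (⟨Quotient.mk _ (g ρ), ?_⟩ : {x : IrX G e // X ≤ stX (G := G) hinv x})) ?_)
    ⟨?_, ?_⟩)
  · intro h hh
    rw [hmem]
    exact (inv_iff hn ρ.ρ).1 ρ.inv h hh
  · intro ρ ρ' h
    apply Subtype.ext
    exact mk_eq_mk.2 (iso_iff.2 h)
  · intro c c' h
    induction c using Quotient.inductionOn with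
    | _ ρ =>
    induction c' using Quotient.inductionOn with
    | _ ρ' =>
    have h1 : (Quotient.mk _ (g ρ) : IrX G e) = Quotient.mk _ (g ρ') := congrArg Subtype.val h
    have h2 : Iso (g ρ).ρ (g ρ').ρ := mk_eq_mk.1 h1
    exact mk_eq_mk.2 h2
  · rintro ⟨x, hx⟩
    induction x using Quotient.inductionOn with
    | _ σ =>
    have hI : ∀ (h : A) (hh : h ∈ X), Iso (tw (hn hh) σ.ρ) σ.ρ := fun h hh =>
      (hmem σ h).1 (hx hh)
    refine ⟨Quotient.mk _ ⟨σ.n, σ.ρ, σ.irr, σ.blk, (inv_iff hn σ.ρ).2 hI⟩, ?_⟩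
    rfl

theorem fixed_hyp [Fact p.Prime] [CharP k p] [IsAlgClosed k] {G Γ X : Subgroup A}
    [hG : G.Normal] (hh : HypExt p G Γ X) {e : MonoidAlgebra k A} (he : IsBlock G e)
    (hinv : InvBy ⊤ e) (hB : BelowC p G X e) :
    Nat.card (Quotient (irrInvSetoid G X e)) = Nat.card (invClasses p G e G X) := by
  classical
  have : Fintype (IrX G e) := Fintype.ofFinite _
  have : Fintype (PT p G e) := Fintype.ofFinite _
  have hGX : G ≤ X := hh.CN.trans hh.ext.NH
  have hn : X ≤ Subgroup.normalizer (G : Set A) := fun x _ => mem_norm_of_normal G x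
  have h1 := cnt_hyp hh he.suppIn hinv he.idem (fun σ hσ hc hS Y h4 h5 => by
    have hd := chData hh he.suppIn (hinv.mono le_top) hσ hc hS
    have h6 : Γ ⊓ Y = G ⊓ Y := by
      apply le_antisymm
      · refine le_inf ?_ inf_le_right
        rw [h5]
        exact inf_le_left
      · exact inf_le_inf_right Y hh.CN
    have hY : CycExt p (G ⊓ Y) Y := by
      have := hh.ext.sub (h4.trans inf_le_left : Y ≤ X)
      rwa [h6] at this
    refine weq_loc hB (h4.trans inf_le_left) hY ((supp_stab he.suppIn hd).mono ?_) (hd.inv.mono h4)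
      (hd.idem hh hσ hc hS he.idem)
    rw [← h5]
    exact inf_le_right)
  rw [cnt_fixed hGX (fun x => G_le_stX hinv x), cnt_weights hGX hn he hinv] at h1
  rw [card_inv_fix hinv]
  exact Nat.eq_of_mul_eq_mul_left Nat.card_pos h1

theorem equiv_hyp [Fact p.Prime] [CharP k p] [IsAlgClosed k] {G Γ : Subgroup A}
    [hG : G.Normal] (hh : HypExt p G Γ ⊤) {e : MonoidAlgebra k A} (he : IsBlock G e)
    (hinv : InvBy ⊤ e) (hB : BelowC p G ⊤ e) :
    ∃ β : IrX G e ≃ WtC p G e, ∀ (a : A) (ρ σ : IrrInv G ⊥ e) (w w' : Wt p G e),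
      RConj a ρ σ → WConj a w w' → β (Quotient.mk _ ρ) = Quotient.mk _ w →
        β (Quotient.mk _ σ) = Quotient.mk _ w' := by
  classical
  have hfinW : Finite (Wt p G e) := finite_Wt he hinv
  have : Finite (IrX G e) := inferInstance
  have : Fintype (IrX G e) := Fintype.ofFinite _
  have : Fintype (WtC p G e) := Fintype.ofFinite _
  let _ := actX (G := G) hinv
  let _ := actZ (p := p) he hinv
  have hsm : ∀ (a : A) (w w' : Wt p G e), WConj a w w' →
      (a • (Quotient.mk _ w : WtC p G e) = Quotient.mk _ w') := by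
    intro a w w' h
    apply mkW_eq.2
    rw [cjW_eq he hinv h]
    exact WSame.refl _ _
  have hfix : ∀ X : Subgroup A, G ≤ X → Nat.card {x : IrX G e // X ≤ stX (G := G) hinv x}
      = Nat.card {x : WtC p G e // X ≤ stZ (p := p) he hinv x} := by
    intro X hGX
    have hhX : HypExt p (G ⊓ X) (Γ ⊓ X) X := hh.sub le_top
    rw [inf_of_le_left hGX] at hhX
    have hn : X ≤ Subgroup.normalizer (G : Set A) := fun x _ => mem_norm_of_normal G x
    have h1 := fixed_hyp hhX he hinv (hB.mono le_top)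
    rw [card_inv_fix hinv] at h1
    rw [h1]
    have h2 := cnt_stZ (p := p) (le_refl G) hGX hn he hinv
    rw [cnt_fixed hGX (fun x => G_le_stZ he hinv x)] at h2
    exact (Nat.eq_of_mul_eq_mul_left Nat.card_pos h2).symm
  obtain ⟨β, hβ⟩ := marks (A := A) (X := IrX G e) (Y := WtC p G e) (by
    intro H
    have hGX : ∀ x : IrX G e, G ≤ MulAction.stabilizer A x := fun x => G_le_stX hinv x
    have hGZ : ∀ x : WtC p G e, G ≤ MulAction.stabilizer A x := fun x => G_le_stZ he hinv x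
    have e1 : Nat.card {x : IrX G e // H ≤ MulAction.stabilizer A x}
        = Nat.card {x : IrX G e // H ⊔ G ≤ MulAction.stabilizer A x} :=
      Nat.card_congr (Equiv.subtypeEquivRight (fun x =>
        ⟨fun h => sup_le h (hGX x), fun h => le_sup_left.trans h⟩))
    have e2 : Nat.card {x : WtC p G e // H ≤ MulAction.stabilizer A x}
        = Nat.card {x : WtC p G e // H ⊔ G ≤ MulAction.stabilizer A x} :=
      Nat.card_congr (Equiv.subtypeEquivRight (fun x =>
        ⟨fun h => sup_le h (hGZ x), fun h => le_sup_left.trans h⟩))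
    rw [e1, e2]
    exact hfix (H ⊔ G) le_sup_right)
  refine ⟨β, ?_⟩
  intro a ρ σ w w' h1 h2 h3
  rw [← (rConj_iff hinv a ρ σ).1 h1, hβ, h3, hsm a w w' h2]

end Pool.Agent.Lib.P0c8ca5.Hy
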