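import Mathlib
import Pool.Agent.Lib.P0c8ca5E.Blk
import Pool.Agent.Lib.P0c8ca5.WtEquiv

/-!
# Module Bij: equivariant bijections for a subgroup, and numbers of orbits

PROOF of `exists_hypExt`: `H / P` cyclic, `t` a generator modulo `P`; `Γ = P ⊔ zpowers (t * (pr p t)⁻¹)`.
PROOF of `equiv_hypX`: `marks` for the group `↥X`.
PROOF of `orb_hyp`: the Cauchy-Frobenius lemma, with `fix_hyp` for `G ⊔ zpowers a`.
-/

namespace Pool.Agent.Lib.P0c8ca5.Hy

open MonoidAlgebra Cy

universe u v

section grp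

variable {p : ℕ} {A : Type*} [Group A] [Finite A]

/-- an extension of a p-group by a cyclic group is an extension of a p-group by a cyclic p'-group -/
theorem exists_hypExt [Fact p.Prime] {G P H : Subgroup A} [hG : G.Normal] (hGP : G ≤ P) (hPH : P ≤ H)
    (hn : H ≤ Subgroup.normalizer (P : Set A)) (hp : ∀ x ∈ P, ∃ n : ℕ, x ^ p ^ n ∈ G)
    {t : A} (ht : t ∈ H) (htH : P ⊔ Subgroup.zpowers t = H) :
    ∃ Γ : Subgroup A, HypExt p G Γ H := by
  have : Fintype A := Fintype.ofFinite A
  obtain ⟨n, hn'⟩ := exists_pow_mul_inv_pr (p := p) t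
  obtain ⟨u, hu⟩ : ∃ u : A, u = t * (pr p t)⁻¹ := ⟨_, rfl⟩
  obtain ⟨s, hs⟩ : ∃ s : A, s = pr p t := ⟨_, rfl⟩
  rw [← hu] at hn'
  have hsH : s ∈ H := by rw [hs]; exact pr_mem ht
  have huH : u ∈ H := by rw [hu]; exact H.mul_mem ht (H.inv_mem (by rw [← hs]; exact hsH))
  have hcomm : Commute t u := by
    have h1 : Commute t (pr p t) := Commute.pow_right (Commute.refl t) _
    rw [hu]
    exact (Commute.refl t).mul_right h1.inv_right
  have hut : u * s = t := by rw [hu, hs]; group
  -- elements of `P ⊔ zpowers u`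
  have hdec : ∀ x ∈ P ⊔ Subgroup.zpowers u, ∃ y ∈ P, ∃ i : ℤ, x = y * u ^ i := by
    intro x hx
    have hnu : Subgroup.zpowers u ≤ Subgroup.normalizer (P : Set A) := by
      rw [Subgroup.zpowers_le]; exact hn huH
    rw [mem_sup_norm hnu] at hx
    obtain ⟨y, hy, w, hw, rfl⟩ := hx
    obtain ⟨i, rfl⟩ := Subgroup.mem_zpowers_iff.1 hw
    exact ⟨y, hy, i, rfl⟩
  have hle : P ⊔ Subgroup.zpowers u ≤ H :=
    sup_le hPH (by rw [Subgroup.zpowers_le]; exact huH)
  have htn : t ∈ Subgroup.normalizer ((P ⊔ Subgroup.zpowers u : Subgroup A) : Set A) := by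
    have h1 : ∀ i : ℤ, t * u ^ i * t⁻¹ = u ^ i := by
      intro i
      have := (hcomm.zpow_right i).eq
      rw [this]; group
    rw [← cg_eq_self_iff]
    apply le_antisymm
    · intro x hx
      obtain ⟨y, hy, i, h⟩ := hdec _ (mem_cg.1 hx)
      have h2 : x = (t * y * t⁻¹) * u ^ i := by
        have : x = t * (t⁻¹ * x * t) * t⁻¹ := by group
        rw [this, h]
        calc t * (y * u ^ i) * t⁻¹ = t * y * t⁻¹ * (t * u ^ i * t⁻¹) := by group
          _ = _ := by rw [h1]
      rw [h2]
      refine Subgroup.mul_mem_sup ?_ (Subgroup.zpow_mem_zpowers u i)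
      exact (Subgroup.mem_normalizer_iff.1 (hn ht) y).1 hy
    · intro x hx
      obtain ⟨y, hy, i, rfl⟩ := hdec x hx
      rw [mem_cg]
      have h2 : t⁻¹ * (y * u ^ i) * t = (t⁻¹ * y * t) * (t⁻¹ * u ^ i * t) := by group
      have h3 : t⁻¹ * u ^ i * t = u ^ i := by
        have := (hcomm.zpow_right i).eq
        calc t⁻¹ * u ^ i * t = t⁻¹ * (u ^ i * t) := by group
          _ = t⁻¹ * (t * u ^ i) := by rw [this]
          _ = _ := by group
      rw [h2, h3]
      refine Subgroup.mul_mem_sup ?_ (Subgroup.zpow_mem_zpowers u i)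
      have h4 := (Subgroup.mem_normalizer_iff.1 (hn (H.inv_mem ht)) y).1 hy
      rwa [inv_inv] at h4
  have hPn : P ≤ Subgroup.normalizer ((P ⊔ Subgroup.zpowers u : Subgroup A) : Set A) :=
    le_sup_left.trans Subgroup.le_normalizer
  have hHn : H ≤ Subgroup.normalizer ((P ⊔ Subgroup.zpowers u : Subgroup A) : Set A) := by
    rw [← htH]
    exact sup_le hPn (by rw [Subgroup.zpowers_le]; exact htn)
  have hsup : (P ⊔ Subgroup.zpowers u) ⊔ Subgroup.zpowers s = H := by
    apply le_antisymm (sup_le hle (by rw [Subgroup.zpowers_le]; exact hsH))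
    rw [← htH]
    refine sup_le (le_sup_left.trans le_sup_left) ?_
    rw [Subgroup.zpowers_le]
    have h1 : u * s ∈ (P ⊔ Subgroup.zpowers u) ⊔ Subgroup.zpowers s :=
      Subgroup.mul_mem _ (Subgroup.mem_sup_left (Subgroup.mem_sup_right (Subgroup.mem_zpowers u)))
        (Subgroup.mem_sup_right (Subgroup.mem_zpowers s))
    rwa [hut] at h1
  refine ⟨P ⊔ Subgroup.zpowers u, hGP.trans le_sup_left, fun x _ => mem_norm_of_normal G x,
    ⟨hle, hHn, ⟨s, hsH, hsup⟩, ?_⟩, ?_⟩
  · -- the index
    intro hdvd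
    have h1 := card_sup_mul (L := P ⊔ Subgroup.zpowers u) (D := Subgroup.zpowers s)
      (by rw [Subgroup.zpowers_le]; exact hHn hsH)
    rw [hsup] at h1
    have h2 := card_mul_rel hle
    rw [← h2] at h1
    have h3 : (P ⊔ Subgroup.zpowers u).relIndex H
        * Nat.card ↥((P ⊔ Subgroup.zpowers u) ⊓ Subgroup.zpowers s)
        = Nat.card (Subgroup.zpowers s) := by
      apply Nat.eq_of_mul_eq_mul_left (Nat.card_pos (α := ↥(P ⊔ Subgroup.zpowers u)))
      rw [← h1]; ring
    have h4 : p ∣ Nat.card (Subgroup.zpowers s) := by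
      rw [← h3]; exact Dvd.dvd.mul_right hdvd _
    rw [Nat.card_zpowers, hs] at h4
    exact preg_pr t h4
  · -- the p-group
    intro x hx
    have key : ∀ m : ℕ, ∀ x ∈ P ⊔ Subgroup.zpowers u, ∀ y ∈ P, ∀ i : ℤ, x = y * u ^ i →
        ∃ z ∈ P, x ^ m = z * (u ^ i) ^ m := by
      intro m
      induction m with
      | zero => intro x _ y _ i _; exact ⟨1, P.one_mem, by simp⟩
      | succ m ih =>
        intro x hx y hy i hxy
        obtain ⟨z, hz, h⟩ := ih x hx y hy i hxy
        have hui : (u ^ i) ^ m ∈ Subgroup.normalizer (P : Set A) :=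
          Subgroup.pow_mem _ (Subgroup.zpow_mem _ (hn huH) i) m
        refine ⟨z * ((u ^ i) ^ m * y * ((u ^ i) ^ m)⁻¹), P.mul_mem hz
          ((Subgroup.mem_normalizer_iff.1 hui y).1 hy), ?_⟩
        rw [pow_succ x m, pow_succ (u ^ i) m, h, hxy]
        generalize (u ^ i) ^ m = v
        generalize u ^ i = w
        group
    obtain ⟨y, hy, i, hxy⟩ := hdec x hx
    obtain ⟨z, hz, h⟩ := key (p ^ n) x hx y hy i hxy
    have h1 : (u ^ i) ^ p ^ n = 1 := by
      rw [← zpow_natCast, ← zpow_mul, mul_comm, zpow_mul, zpow_natCast, hn', one_zpow]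
    rw [h1, mul_one] at h
    obtain ⟨m, hm⟩ := hp z hz
    refine ⟨n + m, ?_⟩
    rw [pow_add, pow_mul, h]
    exact hm

theorem cycExt_zpowers [Fact p.Prime] {G : Subgroup A} [hG : G.Normal] {t : A}
    (ht : ¬ p ∣ orderOf t) : CycExt p G (G ⊔ Subgroup.zpowers t) := by
  refine ⟨le_sup_left, fun x _ => mem_norm_of_normal G x,
    ⟨t, Subgroup.mem_sup_right (Subgroup.mem_zpowers t), rfl⟩, ?_⟩
  intro hdvd
  have h1 := card_sup_mul (L := G) (D := Subgroup.zpowers t) (fun x _ => mem_norm_of_normal G x)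
  have h2 := card_mul_rel (le_sup_left : G ≤ G ⊔ Subgroup.zpowers t)
  rw [← h2] at h1
  have h3 : G.relIndex (G ⊔ Subgroup.zpowers t) * Nat.card ↥(G ⊓ Subgroup.zpowers t)
      = Nat.card (Subgroup.zpowers t) := by
    apply Nat.eq_of_mul_eq_mul_left (Nat.card_pos (α := ↥G))
    rw [← h1]; ring
  apply ht
  rw [← Nat.card_zpowers, ← h3]
  exact Dvd.dvd.mul_right hdvd _

end grp

section act

variable {p : ℕ} {k : Type v} [Field k] {A : Type u} [Group A] [Fintype A]

theorem orb_eq_of_fix {X Y : Type*} [MulAction A X] [MulAction A Y] [Finite X] [Finite Y]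
    (H : Subgroup A) (h : ∀ a ∈ H, Nat.card {x : X // a • x = x} = Nat.card {y : Y // a • y = y}) :
    Nat.card (MulAction.orbitRel.Quotient ↥H X) = Nat.card (MulAction.orbitRel.Quotient ↥H Y) := by
  classical
  have : Fintype X := Fintype.ofFinite X
  have : Fintype Y := Fintype.ofFinite Y
  have : Fintype ↥H := Fintype.ofFinite _
  let _ : Fintype (Quotient (MulAction.orbitRel ↥H X)) := Fintype.ofFinite _
  let _ : Fintype (Quotient (MulAction.orbitRel ↥H Y)) := Fintype.ofFinite _
  have h1 := MulAction.sum_card_fixedBy_eq_card_orbits_mul_card_group ↥H X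
  have h2 := MulAction.sum_card_fixedBy_eq_card_orbits_mul_card_group ↥H Y
  have h3 : ∑ a : ↥H, Fintype.card (MulAction.fixedBy X a)
      = ∑ a : ↥H, Fintype.card (MulAction.fixedBy Y a) := by
    refine Finset.sum_congr rfl fun a _ => ?_
    have := h a a.2
    rw [← Nat.card_eq_fintype_card, ← Nat.card_eq_fintype_card]
    exact this
  rw [h1, h2] at h3
  have hpos : 0 < Fintype.card ↥H := Fintype.card_pos
  have h4 := Nat.eq_of_mul_eq_mul_right hpos h3
  rw [← Nat.card_eq_fintype_card, ← Nat.card_eq_fintype_card] at h4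
  exact h4

variable [Fact p.Prime] [CharP k p] [IsAlgClosed k] {G Γ X : Subgroup A} [hG : G.Normal]
  {e : MonoidAlgebra k A}

theorem fix_hyp (hh : HypExt p G Γ X) (he : IsBlock G e)
    (hinv : InvBy ⊤ e) (hB : BelowC p G X e) :
    Nat.card {x : IrX G e // X ≤ stX (G := G) hinv x}
      = Nat.card {x : WtC p G e // X ≤ stZ (p := p) he hinv x} := by
  have hfinW : Finite (Wt p G e) := finite_Wt he hinv
  have : Finite (IrX G e) := inferInstance
  have : Fintype (IrX G e) := Fintype.ofFinite _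
  have : Fintype (WtC p G e) := Fintype.ofFinite _
  have hGX : G ≤ X := hh.CN.trans hh.ext.NH
  have hn : X ≤ Subgroup.normalizer (G : Set A) := fun x _ => mem_norm_of_normal G x
  have h1 := fixed_hyp hh he hinv hB
  rw [card_inv_fix hinv] at h1
  rw [h1]
  have h2 := cnt_stZ (p := p) (le_refl G) hGX hn he hinv
  rw [cnt_fixed hGX (fun x => G_le_stZ he hinv x)] at h2
  exact (Nat.eq_of_mul_eq_mul_left Nat.card_pos h2).symm

theorem equiv_hypX (hh : HypExt p G Γ X) (he : IsBlock G e)
    (hinv : InvBy ⊤ e) (hB : BelowC p G X e) :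
    ∃ β : IrX G e ≃ WtC p G e, ∀ a ∈ X, ∀ (ρ σ : IrrInv G ⊥ e) (w w' : Wt p G e),
      RConj a ρ σ → WConj a w w' → β (Quotient.mk _ ρ) = Quotient.mk _ w →
        β (Quotient.mk _ σ) = Quotient.mk _ w' := by
  classical
  have hfinW : Finite (Wt p G e) := finite_Wt he hinv
  have : Finite (IrX G e) := inferInstance
  have : Fintype (IrX G e) := Fintype.ofFinite _
  have : Fintype (WtC p G e) := Fintype.ofFinite _
  let _ := actX (G := G) hinv
  let _ := actZ (p := p) he hinv
  have hGX : G ≤ X := hh.CN.trans hh.ext.NH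
  have hsm : ∀ (a : A) (w w' : Wt p G e), WConj a w w' →
      (a • (Quotient.mk _ w : WtC p G e) = Quotient.mk _ w') := by
    intro a w w' h
    apply mkW_eq.2
    rw [cjW_eq he hinv h]
    exact WSame.refl _ _
  obtain ⟨β, hβ⟩ := marks (A := ↥X) (X := IrX G e) (Y := WtC p G e) (by
    intro H
    have hle : H.map X.subtype ⊔ G ≤ X := sup_le (by
      rintro _ ⟨y, _, rfl⟩
      exact y.2) hGX
    have hhX : HypExt p (G ⊓ (H.map X.subtype ⊔ G)) (Γ ⊓ (H.map X.subtype ⊔ G))
      (H.map X.subtype ⊔ G) := hh.sub hle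
    rw [inf_of_le_left (le_sup_right : G ≤ H.map X.subtype ⊔ G)] at hhX
    have h0 := fix_hyp hhX he hinv (hB.mono hle)
    have e1 : Nat.card {x : IrX G e // H ≤ MulAction.stabilizer ↥X x}
        = Nat.card {x : IrX G e // H.map X.subtype ⊔ G ≤ stX (G := G) hinv x} :=
      Nat.card_congr (Equiv.subtypeEquivRight (fun x => by
        constructor
        · intro h
          refine sup_le ?_ (G_le_stX hinv x)
          rintro _ ⟨y, hy, rfl⟩
          exact h hy
        · intro h y hy
          exact (le_sup_left.trans h) ⟨y, hy, rfl⟩))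
    have e2 : Nat.card {x : WtC p G e // H ≤ MulAction.stabilizer ↥X x}
        = Nat.card {x : WtC p G e // H.map X.subtype ⊔ G ≤ stZ (p := p) he hinv x} :=
      Nat.card_congr (Equiv.subtypeEquivRight (fun x => by
        constructor
        · intro h
          refine sup_le ?_ (G_le_stZ he hinv x)
          rintro _ ⟨y, hy, rfl⟩
          exact h hy
        · intro h y hy
          exact (le_sup_left.trans h) ⟨y, hy, rfl⟩))
    rw [e1, e2]
    exact h0)
  refine ⟨β, ?_⟩
  intro a ha ρ σ w w' h1 h2 h3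
  have h4 := hβ ⟨a, ha⟩ (Quotient.mk _ ρ)
  change β (a • (Quotient.mk _ ρ : IrX G e)) = a • β (Quotient.mk _ ρ) at h4
  rw [← (rConj_iff hinv a ρ σ).1 h1, h4, h3, hsm a w w' h2]

/-- the number of orbits of `H` on the irreducible representations -/
theorem card_orbX (hinv : InvBy ⊤ e) (H : Subgroup A) :
    letI := actX (G := G) hinv
    Nat.card (Quot fun ρ σ : IrrInv G ⊥ e => ∃ a ∈ H, RConj a ρ σ)
      = Nat.card (MulAction.orbitRel.Quotient ↥H (IrX G e)) := by
  let _ := actX (G := G) hinv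
  refine Nat.card_congr (Equiv.ofBijective (Quot.lift (fun ρ =>
    (Quotient.mk _ (Quotient.mk _ ρ : IrX G e) : MulAction.orbitRel.Quotient ↥H (IrX G e))) ?_)
    ⟨?_, ?_⟩)
  · rintro ρ σ ⟨a, ha, h⟩
    rw [rConj_iff hinv] at h
    apply Quotient.sound
    change (Quotient.mk _ ρ : IrX G e) ∈ MulAction.orbit ↥H (Quotient.mk _ σ : IrX G e)
    refine ⟨⟨a⁻¹, H.inv_mem ha⟩, ?_⟩
    change a⁻¹ • (Quotient.mk _ σ : IrX G e) = Quotient.mk _ ρ
    rw [← h, inv_smul_smul]
  · intro x y
    induction x using Quot.inductionOn with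
    | _ ρ =>
    induction y using Quot.inductionOn with
    | _ σ =>
    intro h
    obtain ⟨a, ha⟩ := Quotient.exact h
    symm
    apply Quot.sound
    refine ⟨a, a.2, ?_⟩
    rw [rConj_iff hinv]
    exact ha
  · intro y
    induction y using Quotient.inductionOn with
    | _ x =>
    induction x using Quotient.inductionOn with
    | _ ρ => exact ⟨Quot.mk _ ρ, rfl⟩

/-- the number of orbits of `H` on the classes of weights -/
theorem card_orbZ (he : IsBlock G e) (hinv : InvBy ⊤ e) {H : Subgroup A} (hGH : G ≤ H) :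
    letI := actZ (p := p) he hinv
    Nat.card (Quotient (wtSetoid p G e H))
      = Nat.card (MulAction.orbitRel.Quotient ↥H (WtC p G e)) := by
  let _ := actZ (p := p) he hinv
  have hsm : ∀ (a : A) (w w' : Wt p G e), WConj a w w' →
      (a • (Quotient.mk _ w : WtC p G e) = Quotient.mk _ w') := by
    intro a w w' h
    apply mkW_eq.2
    rw [cjW_eq he hinv h]
    exact WSame.refl _ _
  refine Nat.card_congr (Equiv.ofBijective (Quotient.lift (fun w =>
    (Quotient.mk _ (Quotient.mk _ w : WtC p G e) : MulAction.orbitRel.Quotient ↥H (WtC p G e))) ?_)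
    ⟨?_, ?_⟩)
  · rintro w w' ⟨a, ha, h⟩
    apply Quotient.sound
    change (Quotient.mk _ w : WtC p G e) ∈ MulAction.orbit ↥H (Quotient.mk _ w' : WtC p G e)
    refine ⟨⟨a⁻¹, H.inv_mem ha⟩, ?_⟩
    exact hsm _ _ _ h.symm
  · intro x y
    induction x using Quotient.inductionOn with
    | _ w =>
    induction y using Quotient.inductionOn with
    | _ w' =>
    intro h
    obtain ⟨a, ha⟩ := Quotient.exact h
    have h1 : (a : A) • (Quotient.mk _ w' : WtC p G e) = Quotient.mk _ w := ha
    obtain ⟨w₁, hw₁⟩ := exists_wConj he hinv a w'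
    rw [hsm _ _ _ hw₁] at h1
    obtain ⟨g, hg, h2⟩ := mkW_eq.1 h1
    symm
    apply Quotient.sound
    exact WSame.trans ⟨a, a.2, hw₁⟩ ⟨g, hGH hg, h2⟩
  · intro y
    induction y using Quotient.inductionOn with
    | _ x =>
    induction x using Quotient.inductionOn with
    | _ w => exact ⟨Quotient.mk _ w, rfl⟩

theorem orb_hyp (he : IsBlock G e) (hinv : InvBy ⊤ e) (hGX : G ≤ X) (hB : BelowC p G X e) :
    Nat.card (Quot fun ρ σ : IrrInv G ⊥ e => ∃ a ∈ X, RConj a ρ σ)
      = Nat.card (Quotient (wtSetoid p G e X)) := by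
  have hfinW : Finite (Wt p G e) := finite_Wt he hinv
  have : Finite (IrX G e) := inferInstance
  rw [card_orbX hinv, card_orbZ he hinv hGX]
  let _ := actX (G := G) hinv
  let _ := actZ (p := p) he hinv
  refine orb_eq_of_fix X (fun a ha => ?_)
  have hle : G ⊔ Subgroup.zpowers a ≤ X := sup_le hGX (by rw [Subgroup.zpowers_le]; exact ha)
  obtain ⟨Γ', hΓ'⟩ := exists_hypExt (p := p) (le_refl G) (le_sup_left : G ≤ G ⊔ Subgroup.zpowers a)
    (fun x _ => mem_norm_of_normal G x) (fun x hx => ⟨0, by simpa using hx⟩)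
    (Subgroup.mem_sup_right (Subgroup.mem_zpowers a)) rfl
  have h0 := fix_hyp hΓ' he hinv (hB.mono hle)
  have e1 : Nat.card {x : IrX G e // a • x = x}
      = Nat.card {x : IrX G e // G ⊔ Subgroup.zpowers a ≤ stX (G := G) hinv x} :=
    Nat.card_congr (Equiv.subtypeEquivRight (fun x => by
      constructor
      · intro h
        refine sup_le (G_le_stX hinv x) ?_
        rw [Subgroup.zpowers_le]
        exact h
      · intro h
        exact (le_sup_right.trans h) (Subgroup.mem_zpowers a)))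
  have e2 : Nat.card {x : WtC p G e // a • x = x}
      = Nat.card {x : WtC p G e // G ⊔ Subgroup.zpowers a ≤ stZ (p := p) he hinv x} :=
    Nat.card_congr (Equiv.subtypeEquivRight (fun x => by
      constructor
      · intro h
        refine sup_le (G_le_stZ he hinv x) ?_
        rw [Subgroup.zpowers_le]
        exact h
      · intro h
        exact (le_sup_right.trans h) (Subgroup.mem_zpowers a)))
  rw [e1, e2]
  exact h0

end act

end Pool.Agent.Lib.P0c8ca5.Hy
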