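import Mathlib
import Pool.Agent.Lib.P0c8ca5E.Bij
import Pool.Agent.Lib.P0c8ca5.Official
import Pool.Agent.Lib.P0c8ca5R.Final
import Pool.Agent.Lib.P0c8ca5Y.MixY
import Pool.Agent.Lib.P0c8ca5Y.LcR4
import Pool.Agent.Lib.P0c8ca5W.VacR5

/-!
# Module SmallG: the local hypothesis for a block with a small defect group

PROOF of `simRel_up`: `M₀` the smallest normal subgroup of `G` with `G / M₀` p-solvable (`exists_residual`); it
is normal in `A`.  A nonabelian simple section of `K` is a section of `G`, or the image of `K ⊓ G` is trivial.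
PROOF of `below_of_small`: a block `b` of `Y ≤ K = G ⊔ zpowers t`; `navarro_transport`, and `navarro_mixS5` in `↥Y`.
-/

namespace Pool.Agent.Lib.P0c8ca5.Hy

open MonoidAlgebra Cy Ps Vc

universe u v

section grp

variable {p : ℕ} [Fact p.Prime] {A : Type u} [Group A] [Finite A]

omit [Finite A] [Fact p.Prime] in
theorem psolv_sec_cg {K M : Subgroup A} (hn : K ≤ Subgroup.normalizer (M : Set A))
    (h : PSolv p ↥(sec K M)) {g : A} (hg : cg g K = K) :
    K ≤ Subgroup.normalizer ((cg g M : Subgroup A) : Set A) ∧ PSolv p ↥(sec K (cg g M)) := by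
  have hgK : ∀ y ∈ K, g⁻¹ * y * g ∈ K := by
    intro y hy
    rw [← hg] at hy
    exact mem_cg.1 hy
  have hn' : K ≤ Subgroup.normalizer ((cg g M : Subgroup A) : Set A) := by
    intro y hy
    have h1 := cg_eq_self_iff.2 (hn (hgK y hy))
    rw [← cg_eq_self_iff, cg_cg]
    have e1 : y * g = g * (g⁻¹ * y * g) := by group
    rw [e1, ← cg_cg, h1]
  refine ⟨hn', ?_⟩
  let κ : ↥K →* ↥K :=
    { toFun := fun y => ⟨g⁻¹ * y * g, hgK y y.2⟩
      map_one' := Subtype.ext (by
        change g⁻¹ * 1 * g = 1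
        group)
      map_mul' := fun y z => Subtype.ext (by
        change g⁻¹ * (y.1 * z.1) * g = g⁻¹ * y.1 * g * (g⁻¹ * z.1 * g)
        group) }
  let f : ↥K →* ↥(sec K M) :=
    ((qhom hn).comp κ).codRestrict (sec K M) (fun y => qm_mem_sec _ (κ y).2)
  refine Yy.psolv_sec_of_hom hn' h f ?_
  intro y hy
  have h1 : κ y ∈ (qhom hn).ker := congrArg Subtype.val hy
  rw [qhom_ker] at h1
  exact mem_cg.2 h1

/-- the smallest normal subgroup with p-solvable quotient of a normal subgroup is normal -/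
theorem residual_normal {G M : Subgroup A} [hG : G.Normal]
    (hn : G ≤ Subgroup.normalizer (M : Set A)) (hM : PSolv p ↥(sec G M))
    (hmin : ∀ M' : Subgroup A, G ≤ Subgroup.normalizer (M' : Set A) →
        PSolv p ↥(sec G M') → M ≤ M') : M.Normal := by
  have key : ∀ g : A, M ≤ cg g M := by
    intro g
    obtain ⟨h1, h2⟩ := psolv_sec_cg hn hM (cg_normal g G)
    exact hmin _ h1 h2
  constructor
  intro x hx g
  have h1 := key g⁻¹ hx
  rw [mem_cg] at h1
  rwa [inv_inv] at h1

theorem psolv_sec_trans {G K M : Subgroup A} [hG : G.Normal] [hM : M.Normal] (hMG : M ≤ G)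
    (hGK : G ≤ K) (h : PSolv p ↥(sec G M)) (h' : PSolv p ↥(sec K G)) : PSolv p ↥(sec K M) := by
  have hnM : ∀ L : Subgroup A, L ≤ Subgroup.normalizer (M : Set A) := fun L x _ =>
    mem_norm_of_normal M x
  have hnG : ∀ L : Subgroup A, L ≤ Subgroup.normalizer (G : Set A) := fun L x _ =>
    mem_norm_of_normal G x
  have hGK' : (G.subgroupOf K).Normal := HypAux.normal_sub (hnG K)
  have hMG' : (M.subgroupOf G).Normal := HypAux.normal_sub (hnM G)
  have h1 := Yy.psolv_quot_of_sec (hnM G) h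
  have h2 := Yy.psolv_quot_of_sec (hnG K) h'
  obtain ⟨π, hπ⟩ : ∃ π : A →* A ⧸ M, π = QuotientGroup.mk' M := ⟨_, rfl⟩
  have hker : ∀ x, π x = 1 ↔ x ∈ M := by
    intro x
    rw [hπ]
    exact QuotientGroup.eq_one_iff x
  have h3 : PSolv p ↥(G.map π) := by
    refine h1.of_section (IsSection.of_surjective (QuotientGroup.lift (M.subgroupOf G)
      (π.subgroupMap G) ?_) ?_)
    · intro x hx
      apply Subtype.ext
      exact (hker _).2 (Subgroup.mem_subgroupOf.1 hx)
    · intro y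
      obtain ⟨x, hx⟩ := π.subgroupMap_surjective G y
      exact ⟨QuotientGroup.mk x, hx⟩
  have hN : ((G.map π).subgroupOf (K.map π)).Normal := by
    apply HypAux.normal_sub
    have : (G.map π).Normal := hG.map π (by rw [hπ]; exact QuotientGroup.mk'_surjective M)
    exact fun x _ => mem_norm_of_normal (G.map π) x
  have h4 : PSolv p ↥(K.map π) := by
    refine psolv_ext _ ↥(K.map π) rfl ((G.map π).subgroupOf (K.map π)) ?_ ?_
    · exact h3.of_equiv (Subgroup.subgroupOfEquivOfLe (Subgroup.map_mono hGK)).symm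
    · refine h2.of_section (IsSection.of_surjective (QuotientGroup.lift (G.subgroupOf K)
        ((QuotientGroup.mk' ((G.map π).subgroupOf (K.map π))).comp (π.subgroupMap K)) ?_) ?_)
      · intro x hx
        change QuotientGroup.mk (π.subgroupMap K x) = 1
        rw [QuotientGroup.eq_one_iff, Subgroup.mem_subgroupOf]
        exact ⟨x, Subgroup.mem_subgroupOf.1 hx, rfl⟩
      · intro y
        obtain ⟨z, rfl⟩ := QuotientGroup.mk_surjective y
        obtain ⟨x, rfl⟩ := π.subgroupMap_surjective K z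
        exact ⟨QuotientGroup.mk x, rfl⟩
  refine Yy.psolv_sec_of_hom (hnM K) h4 (π.subgroupMap K) ?_
  intro x hx
  exact (hker _).1 (congrArg Subtype.val hx)

theorem simRel_up {G K D : Subgroup A} [hG : G.Normal] (hGK : G ≤ K) (hK : PSolv p ↥(sec K G))
    (h : SimRel p G D) : SimRel p K (D ⊓ G) := by
  obtain ⟨M₀, hM₀G, hM₀n, hM₀s, hmin⟩ := exists_residual p G
  have hM₀ : M₀.Normal := residual_normal hM₀n hM₀s hmin
  obtain ⟨M, hMG, hMn, hMs, hsm⟩ := h
  refine ⟨M₀, hM₀G.trans hGK, fun x _ => mem_norm_of_normal M₀ x,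
    psolv_sec_trans hM₀G hGK hM₀s hK, ?_⟩
  intro T _ _ hT P hP hPp
  obtain ⟨J, f, hf, hPf⟩ := hP
  -- the subgroup `J ⊓ G`
  let L : Subgroup ↥J := (G.subgroupOf K).subgroupOf J
  have hL : L.Normal := by
    constructor
    intro x hx g
    have h1 : ((x : ↥K) : A) ∈ G := hx
    exact hG.conj_mem _ h1 _
  have hmap : (L.map f).Normal := hL.map f hf
  have hle : P ≤ L.map f := by
    refine hPf.trans (Subgroup.map_mono ?_)
    intro x hx
    have h1 : ((x : ↥K) : A) ∈ D ⊓ G ⊓ M₀ := hx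
    exact h1.1.2
  rcases hmap.eq_bot_or_eq_top with h1 | h1
  · rw [h1] at hle
    rw [le_bot_iff.1 hle]
    infer_instance
  · -- a section of `G`
    have hmem : ∀ x : ↥L, (((x : ↥J) : ↥K) : A) ∈ G := fun x => x.2
    let ι : ↥L →* ↥G := ((K.subtype.comp J.subtype).comp L.subtype).codRestrict G hmem
    have hι : Function.Injective ι := by
      intro x y hxy
      have h2 : (((x : ↥J) : ↥K) : A) = (((y : ↥J) : ↥K) : A) :=
        congrArg (fun z : ↥G => (z : A)) hxy
      exact Subtype.ext (Subtype.ext (Subtype.ext h2))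
    let E : ↥L ≃* ↥ι.range := MonoidHom.ofInjective hι
    have hps : PairSec P ((D ⊓ M).subgroupOf G) := by
      refine ⟨ι.range, (f.comp L.subtype).comp E.symm.toMonoidHom, ?_, ?_⟩
      · intro y
        have hy : y ∈ L.map f := by rw [h1]; exact Subgroup.mem_top y
        obtain ⟨x, hx, rfl⟩ := hy
        refine ⟨E ⟨x, hx⟩, ?_⟩
        change f (E.symm (E _)) = f x
        rw [E.symm_apply_apply]
      · intro y hy
        obtain ⟨x, hx, rfl⟩ := hPf hy
        have h2 : ((x : ↥K) : A) ∈ D ⊓ G ⊓ M₀ := hx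
        have hxL : x ∈ L := h2.1.2
        refine ⟨E ⟨x, hxL⟩, ?_, ?_⟩
        · change ((x : ↥K) : A) ∈ D ⊓ M
          exact ⟨h2.1.1, hmin M hMn hMs h2.2⟩
        · change f (E.symm (E _)) = f x
          rw [E.symm_apply_apply]
    exact hsm T hT P hps hPp

omit [Fact p.Prime] [Finite A] in
theorem simRel_mono_right {K E E' : Subgroup A} (h : SimRel p K E) (hE : E' ≤ E) :
    SimRel p K E' := by
  obtain ⟨M, h1, h2, h3, h4⟩ := h
  refine ⟨M, h1, h2, h3, h4.of_pairSec (PairSec.of_le ?_)⟩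
  intro x hx
  exact ⟨hE hx.1, hx.2⟩

omit [Fact p.Prime] in
/-- restriction to `↥Y` -/
theorem simRel_dn {Y E : Subgroup A} (h : SimRel p Y E) :
    SimRel p (⊤ : Subgroup ↥Y) (E.subgroupOf Y) := by
  obtain ⟨M, hMY, hMn, hMs, hsm⟩ := h
  have hn : (⊤ : Subgroup ↥Y) ≤ Subgroup.normalizer ((M.subgroupOf Y : Subgroup ↥Y) : Set ↥Y) := by
    have := HypAux.normal_sub hMn
    exact fun x _ => mem_norm_of_normal (M.subgroupOf Y) x
  refine ⟨M.subgroupOf Y, le_top, hn, ?_, ?_⟩
  · let f : ↥(⊤ : Subgroup ↥Y) →* ↥(sec Y M) :=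
      ((qhom hMn).comp (Subgroup.subtype (⊤ : Subgroup ↥Y))).codRestrict (sec Y M)
        (fun y => qm_mem_sec _ y.1.2)
    refine Yy.psolv_sec_of_hom hn hMs f ?_
    intro x hx
    have h1 : (x : ↥Y) ∈ (qhom hMn).ker := congrArg Subtype.val hx
    rw [qhom_ker] at h1
    exact h1
  · refine hsm.of_pairSec (PairSec.of_hom
      (Subgroup.topEquiv (G := ↥Y)).symm.toMonoidHom (Subgroup.topEquiv (G := ↥Y)).symm.surjective ?_)
    intro x hx
    exact ⟨x.1, hx, rfl⟩

end grp

section blk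

variable {p : ℕ} {k : Type v} [Field k] {A : Type u} [Group A] [Fintype A]

omit [Fintype A] in
theorem hasBr_dn {H : Subgroup A} {c : MonoidAlgebra k A} (hc : SuppIn H c) {P : Subgroup A}
    (h : HasBr P c) : HasBr (P.subgroupOf H) (dn H c) := by
  obtain ⟨x, hx, hx'⟩ := h
  refine ⟨⟨x, hc x hx'⟩, ?_, hx'⟩
  rw [Subgroup.mem_centralizer_iff] at hx ⊢
  intro y hy
  exact Subtype.ext (hx y hy)

omit [Fintype A] in
theorem hasBr_up {H : Subgroup A} {c : MonoidAlgebra k A} {P : Subgroup ↥H}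
    (h : HasBr P (dn H c)) : HasBr (P.map H.subtype) c := by
  obtain ⟨x, hx, hx'⟩ := h
  refine ⟨(x : A), ?_, hx'⟩
  rw [Subgroup.mem_centralizer_iff] at hx ⊢
  rintro y ⟨z, hz, rfl⟩
  exact congrArg Subtype.val (hx z hz)

omit [Fintype A] in
theorem isDefect_dn {H D : Subgroup A} {c : MonoidAlgebra k A} (hc : SuppIn H c)
    (h : IsDefectGroup p H c D) : IsDefectGroup p ⊤ (dn H c) (D.subgroupOf H) := by
  refine ⟨le_top, h.isPGroup.comap_subtype, hasBr_dn hc h.br, ?_⟩
  intro P _ hP hbr hDP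
  have h1 : P.map H.subtype = D := by
    refine h.max _ TrBAux.up_le (hP.map _) (hasBr_up hbr) ?_
    intro x hx
    exact ⟨⟨x, h.le hx⟩, hDP (Subgroup.mem_subgroupOf.2 hx), rfl⟩
  rw [← h1, Subgroup.subgroupOf]
  exact (Subgroup.comap_map_eq_self_of_injective H.subtype_injective P).symm

/-- the defect groups of a block of a subgroup are conjugate -/
theorem defect_conj_sub [Fact p.Prime] [CharP k p] [IsAlgClosed k] {H : Subgroup A}
    {c : MonoidAlgebra k A} (hc : IsBlock H c) {D D' : Subgroup A}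
    (hD : IsDefectGroup p H c D) (hD' : IsDefectGroup p H c D') : ∃ g ∈ H, D' = cg g D := by
  have : Fintype ↥H := Fintype.ofFinite _
  obtain ⟨g, hg⟩ := Rk.defect_conj (dn_isBlock hc) (isDefect_dn hc.suppIn hD)
    (isDefect_dn hc.suppIn hD')
  refine ⟨g, g.2, ?_⟩
  ext x
  rw [mem_cg]
  constructor
  · intro hx
    have h1 : (⟨x, hD'.le hx⟩ : ↥H) ∈ D'.subgroupOf H := Subgroup.mem_subgroupOf.2 hx
    rw [hg, mem_cg] at h1
    exact h1
  · intro hx
    have hxH : x ∈ H := by
      have h1 := H.mul_mem (H.mul_mem g.2 (hD.le hx)) (H.inv_mem g.2)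
      have e : (g : A) * ((g : A)⁻¹ * x * (g : A)) * (g : A)⁻¹ = x := by group
      rwa [e] at h1
    have h1 : (⟨x, hxH⟩ : ↥H) ∈ cg g (D.subgroupOf H) := by
      rw [mem_cg]
      exact hx
    rw [← hg] at h1
    exact h1

theorem below_of_small [Fact p.Prime] [CharP k p] [IsAlgClosed k] {G : Subgroup A} [hG : G.Normal]
    {e : MonoidAlgebra k A} (he : IsBlock G e) {D : Subgroup A} (hD : IsDefectGroup p G e D)
    (hs : SimRel p G D) : BelowC p G ⊤ e := by
  classical
  intro Y _ hY b hb hR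
  have : Fintype ↥Y := Fintype.ofFinite _
  refine navarro_transport hb ?_
  have hb' := dn_isBlock hb
  -- a defect group
  obtain ⟨E, hE, -⟩ := exists_defect (p := p) (N := (⊤ : Subgroup ↥Y)) (e := dn Y b)
    (bot_le : (⊥ : Subgroup ↥Y) ≤ ⊤) IsPGroup.of_bot (by
      by_contra hno
      apply hb'.ne_zero
      ext x
      by_contra hx
      refine hno ⟨x, ?_, hx⟩
      rw [Subgroup.mem_centralizer_iff]
      intro y hy
      rw [Subgroup.mem_bot.1 hy, one_mul, mul_one])
  have hEY : E.map Y.subtype ≤ Y := TrBAux.up_le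
  have hEp : IsPGroup p (E.map Y.subtype) := hE.isPGroup.map _
  have hEG : E.map Y.subtype ≤ G :=
    (hY.le_of_pGroup hEY hEp).trans inf_le_left
  have hEe : HasBr (E.map Y.subtype) e := hR _ hEY hEp (hasBr_up hE.br)
  obtain ⟨D', hD', hED'⟩ := exists_defect hEG hEp hEe
  obtain ⟨g, hg, rfl⟩ := defect_conj_sub he hD hD'
  obtain ⟨t, ht, htY⟩ := hY.cyc
  have hYK : Y ≤ G ⊔ Subgroup.zpowers t := by
    calc Y = G ⊓ Y ⊔ Subgroup.zpowers t := htY.symm
      _ ≤ _ := sup_le_sup_right inf_le_left _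
  obtain ⟨Γ', hΓ'⟩ := exists_hypExt (p := p) (le_refl G) (le_sup_left : G ≤ G ⊔ Subgroup.zpowers t)
    (fun x _ => mem_norm_of_normal G x) (fun x hx => ⟨0, by simpa using hx⟩)
    (Subgroup.mem_sup_right (Subgroup.mem_zpowers t)) rfl
  have h1 : SimRel p G (cg g D) := by
    have := SimRel.cg hs g
    rwa [cg_normal g G] at this
  have h2 := simRel_up le_sup_left (Yy.psolv_sec_of_hypExt hΓ') h1
  have h3 : SimRel p Y (E.map Y.subtype) :=
    simRel_mono_right (h2.mono hYK) (le_inf hED' hEG)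
  have h4 : SimRel p (⊤ : Subgroup ↥Y) E := by
    have := simRel_dn h3
    rwa [Subgroup.subgroupOf, Subgroup.comap_map_eq_self_of_injective Y.subtype_injective] at this
  refine navarro_mixS5 (G := (⊤ : Subgroup ↥Y)) (V := ⊥) (fun x => ⟨0, Subgroup.mem_top _⟩)
    hb' hb'.invBy hE ?_ bot_le le_top (fun _ => True) (fun _ _ _ => trivial)
    (fun _ _ => trivial) ?_
  · exact ⟨0, fun _ => ⊥, rfl, Subsingleton.elim _ _, fun _ => inferInstance,
      fun i hi => absurd hi (Nat.not_lt_zero i)⟩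
  · intro Q _ _ _
    exact Or.inl (Or.inr (h4.mono inf_le_left))

end blk

end Pool.Agent.Lib.P0c8ca5.Hy
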